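import Pool.Agent.Rotor2.Bnd

/-!
# The start of RSW for bonds: `1/2 ≤ P (bHC 0 (n - 1) 0 n)`

PROOF.  By `rec_or` there is a horizontal open crossing of `Rec 0 (n-1) 0 n` or a vertical closed
one.  A vertical closed crossing becomes a vertical open crossing of `Rec (-2) (n-3) 0 n` after
the translation by `(1, 0)` and the flip of the labels (`P_bJoinC`), and by `bVC_le_bHC` a horizontal
open crossing of `X` in `[-1, n+1]`, row in `[-2, n-3]`; translate by `X - 2`, row `+ 2`.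
-/

namespace Pool.Agent.Rotor2

open MeasureTheory Set Pool.Agent.TriPerc

theorem bhalf {n : ℤ} (hn : 2 ≤ n) : 1 / 2 ≤ P (bHC 0 (n - 1) 0 n) := by
  set E : Set Lab := bHC 0 (n - 1) 0 n with hE
  set B : Set Lab := {w | VC (Ob w)ᶜ 0 (n - 1) 0 n} with hB
  have hcov : (Set.univ : Set Lab) ⊆ E ∪ B := fun w _ => rec_or (Ob w) (by omega) (by omega)
  have h1 : P B ≤ P (bVC (-2) (n - 3) 0 n) := by
    refine P_bJoinC (isAut_tr (1, 0)) ob_flip_tr (finite_rec (-2) (n - 3) 0 n) ?_ ?_ ?_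
    · ext v
      show (0 ≤ 2 * (v.1 + 1) + (v.2 + 0) ∧ 2 * (v.1 + 1) + (v.2 + 0) ≤ n - 1 ∧ 0 ≤ v.2 + 0 ∧
        v.2 + 0 ≤ n) ↔ (-2 ≤ 2 * v.1 + v.2 ∧ 2 * v.1 + v.2 ≤ n - 3 ∧ 0 ≤ v.2 ∧ v.2 ≤ n)
      constructor <;> rintro ⟨a1, a2, a3, a4⟩ <;> refine ⟨?_, ?_, ?_, ?_⟩ <;> omega
    · ext v
      show v.2 + 0 ≤ 0 ↔ v.2 ≤ 0
      rw [add_zero]
    · ext v
      show n ≤ v.2 + 0 ↔ n ≤ v.2
      rw [add_zero]
  have h2 : P (bVC (-2) (n - 3) 0 n) ≤ P (bHC (0 - 1) (n + 1) (-2) (n - 3)) := bVC_le_bHC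
  have h3 := shift_bHC (l := 0 - 1) (r := n + 1) (b := -2) (t := n - 3) (-1) 1
  have h4 : P (bHC (0 - 1 + (4 * (-1) + 2 * 1)) (n + 1 + (4 * (-1) + 2 * 1)) (-2 + 2 * 1)
      (n - 3 + 2 * 1)) ≤ P E := by
    refine measure_mono fun w hw => ?_
    have h5 : HC (Ob w) (0 - 1 + (4 * (-1) + 2 * 1)) (n + 1 + (4 * (-1) + 2 * 1)) (-2 + 2 * 1)
      (n - 3 + 2 * 1) := hw
    exact hc_wide (b' := 0) (t' := n) (by omega) (by omega)
      (hc_sub (l' := 0) (r' := n - 1) (by omega) (by omega) (by omega) h5)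
  have h6 : P B ≤ P E := h1.trans (h2.trans (h3 ▸ h4))
  have h7 : (1 : ENNReal) ≤ P E + P E := by
    calc (1 : ENNReal) = P Set.univ := measure_univ.symm
      _ ≤ P (E ∪ B) := measure_mono hcov
      _ ≤ P E + P B := measure_union_le _ _
      _ ≤ P E + P E := by gcongr
  by_contra hlt
  rw [not_le] at hlt
  have h8 : P E + P E < 1 / 2 + 1 / 2 := ENNReal.add_lt_add hlt hlt
  rw [ENNReal.add_halves] at h8
  exact absurd h7 (not_le.2 h8)

/-- The form used for the induction (`n - 2` is even if `n` is). -/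
theorem bhalf' {n : ℤ} (hn : 3 ≤ n) : 1 / 2 ≤ P (bHC 0 (n - 2) 0 n) := by
  refine (bhalf (n := n) (by omega)).trans (measure_mono fun w hw => ?_)
  have h : HC (Ob w) 0 (n - 1) 0 n := hw
  exact hc_sub (l' := 0) (r' := n - 2) le_rfl (by omega) (by omega) h

end Pool.Agent.Rotor2
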