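import Pool.Agent.TriPerc.RswA

/-!
# Two paths give a crossing (the reflection in `X = m - 1`)

`Mm m n O`: an open path in `R2 m n = Rec 0 (2m) 0 n` from `X ≤ 1` to `A3 m` (`X ≥ 2m - 1`, or row `≤ 0` and
`X ≥ m - 1`).  `keyB'`: `Mm m n O` and `Mm m n (vref (m - 1) ⁻¹' O)` imply `HC O 0 (2m - 2) 0 n`.
PROOF.  The second path, reflected in `X = m - 1`, is an open path in `Rec (-2) (2m - 2) 0 n` from
`X ≥ 2m - 3` to `X ≤ -1`, or row `≤ 0` and `X ≤ m - 1`.  If it visits `X ≤ 1`, it contains a crossing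
(`hc_of_conn`); if the first path visits `X ≥ 2m - 3`, the same.  Otherwise both paths are in
`Rec 0 (2m - 2) 0 n`, and their ends `u'`, `w'` are in row `0` with `X w' ≤ m - 1 ≤ X u'`; conclude
as in `keyB` with `no_B`.
-/

namespace Pool.Agent.Rotor2

open Pool.Agent.TriPerc

variable {m n : ℤ} {O : Set V}

theorem keyB' (hm : 3 ≤ m) (hn : 0 ≤ n) (h : Mm m n O) (h' : Mm m n (vref (m - 1) ⁻¹' O)) :
    HC O 0 (2 * m - 2) 0 n := by
  obtain ⟨u, hu, u', hu', h⟩ := h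
  obtain ⟨w0, hw, w0', hw', h'⟩ := h'
  replace hu : X u ≤ 1 := hu
  replace hw : X w0 ≤ 1 := hw
  replace hu' : 2 * m - 1 ≤ X u' ∨ (u'.2 ≤ 0 ∧ m - 1 ≤ X u') := hu'
  replace hw' : 2 * m - 1 ≤ X w0' ∨ (w0'.2 ≤ 0 ∧ m - 1 ≤ X w0') := hw'
  -- the reflected second path
  have h2 : vref (m - 1) ⁻¹' (O ∩ Rec (-2) (2 * m - 2) 0 n) =
      vref (m - 1) ⁻¹' O ∩ R2 m n := by
    ext v
    obtain ⟨x1, x2⟩ := X_vref (m - 1) v
    constructor
    · rintro ⟨h3, h4, h5, h6, h7⟩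
      refine ⟨h3, ?_, ?_, ?_, ?_⟩ <;> omega
    · rintro ⟨h3, h4, h5, h6, h7⟩
      refine ⟨h3, ?_, ?_, ?_, ?_⟩ <;> omega
  rw [← h2, conn_preimage (isAut_vref (m - 1))] at h'
  obtain ⟨w, hw1⟩ : ∃ w, w = vref (m - 1) w0 := ⟨_, rfl⟩
  obtain ⟨w', hw2⟩ : ∃ w, w = vref (m - 1) w0' := ⟨_, rfl⟩
  rw [← hw1, ← hw2] at h'
  have x1 := (X_vref (m - 1) w0).1
  have x2 := (X_vref (m - 1) w0').1
  have x3 := (X_vref (m - 1) w0').2
  rw [← hw1] at x1
  rw [← hw2] at x2 x3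
  have wX : 2 * m - 3 ≤ X w := by omega
  -- the first path stays in `X ≤ 2 m - 4`, or done
  by_cases hA : Conn ((O ∩ R2 m n) ∩ {z | X z ≤ 2 * m - 4}) u u'
  swap
  · have hex : ∃ z, 2 * m - 3 ≤ X z ∧ Conn (O ∩ R2 m n) u z := by
      by_contra hno
      push Not at hno
      refine hA ((h.in_comp).mono fun z hz => ?_)
      refine ⟨comp_subset hz, ?_⟩
      by_contra hz'
      replace hz' : ¬ X z ≤ 2 * m - 4 := hz'
      exact hno z (by omega) hz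
    obtain ⟨z, hz, hc⟩ := hex
    exact hc_of_conn (hc.mono fun x hx => ⟨hx.1, hx.2.2.2⟩) (by omega) (by omega) (by omega)
  by_cases hB : Conn ((O ∩ Rec (-2) (2 * m - 2) 0 n) ∩ {z | 2 ≤ X z}) w w'
  swap
  · have hex : ∃ z, X z ≤ 1 ∧ Conn (O ∩ Rec (-2) (2 * m - 2) 0 n) w z := by
      by_contra hno
      push Not at hno
      refine hB ((h'.in_comp).mono fun z hz => ?_)
      refine ⟨comp_subset hz, ?_⟩
      by_contra hz'
      replace hz' : ¬ 2 ≤ X z := hz'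
      exact hno z (by omega) hz
    obtain ⟨z, hz, hc⟩ := hex
    exact hc_of_conn (hc.symm.mono fun x hx => ⟨hx.1, hx.2.2.2⟩) (by omega) (by omega)
      (by omega)
  have hf0 : Conn (O ∩ Rec 0 (2 * m - 2) 0 n) u u' := by
    refine hA.mono ?_
    rintro z ⟨⟨z1, z2, z3, z4, z5⟩, z6⟩
    replace z6 : X z ≤ 2 * m - 4 := z6
    exact ⟨z1, z2, by omega, z4, z5⟩
  have hg0 : Conn (O ∩ Rec 0 (2 * m - 2) 0 n) w w' := by
    refine hB.mono ?_
    rintro z ⟨⟨z1, z2, z3, z4, z5⟩, z6⟩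
    replace z6 : 2 ≤ X z := z6
    exact ⟨z1, by omega, z3, z4, z5⟩
  have eA : X u' ≤ 2 * m - 4 := hA.right.2
  have eB : 2 ≤ X w' := hB.right.2
  by_cases hc : Conn (O ∩ Rec 0 (2 * m - 2) 0 n) u w
  · refine ⟨u, ?_, w, ?_, hc⟩
    · show X u ≤ 0 + 1
      omega
    · show 2 * m - 2 - 1 ≤ X w
      omega
  exfalso
  have hd : Disjoint (comp (O ∩ Rec 0 (2 * m - 2) 0 n) u)
      (comp (O ∩ Rec 0 (2 * m - 2) 0 n) w) := by
    rw [Set.disjoint_left]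
    intro z h3 h4
    have h5 : Conn (O ∩ Rec 0 (2 * m - 2) 0 n) u z := h3
    have h6 : Conn (O ∩ Rec 0 (2 * m - 2) 0 n) w z := h4
    exact hc (h5.trans h6.symm)
  have hS : ∀ x ∈ comp (O ∩ Rec 0 (2 * m - 2) 0 n) u,
      0 ≤ X x ∧ X x ≤ 2 * m - 2 ∧ 0 ≤ x.2 ∧ x.2 ≤ n := fun x hx => (comp_subset hx).2
  have hT : ∀ x ∈ comp (O ∩ Rec 0 (2 * m - 2) 0 n) w,
      0 ≤ X x ∧ X x ≤ 2 * m - 2 ∧ 0 ≤ x.2 ∧ x.2 ≤ n := fun x hx => (comp_subset hx).2
  have hf := hf0.in_comp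
  have hg := hg0.in_comp
  have q1 := hS _ hf.right
  have q2 := hT _ hg.right
  have hne : u' ≠ w' := fun h3 => Set.disjoint_left.1 hd hf.right (h3 ▸ hg.right)
  have hna : ¬ Adj u' w' := fun h3 =>
    Set.disjoint_left.1 hd (comp_adj hf.right (comp_subset hg.right) h3) hg.right
  have hlt : w'.1 < u'.1 := by
    by_contra h3
    have h4 : w'.1 = u'.1 ∨ w'.1 = u'.1 + 1 := by
      unfold X at *
      omega
    rcases h4 with h4 | h4
    · exact hne (Prod.ext h4.symm (by omega))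
    · exact hna (Or.inl ⟨h4, by omega⟩)
  refine no_B hd hf hg ?_ ?_ ?_ ?_ hlt
  · intro y hy h3
    have h4 := hT y hy
    unfold X at *
    omega
  · intro x hx h3
    have h4 := hS x hx
    unfold X at *
    omega
  · intro y hy
    have h4 := hT y hy
    omega
  · intro x hx
    have h4 := hS x hx
    omega

end Pool.Agent.Rotor2
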