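import Pool.Agent.Rotor2.Bnd
import Pool.Agent.Rotor2.BKey
import Pool.Agent.TriPerc.Harris

/-!
# The RSW step for bonds

Notation of `TriPerc.RswA`.  `m ≥ 3` is odd, so the reflection `vref m` exchanges sites and faces and the
reflection `vref (m - 1)` preserves them.

* `ev_ccB`, `ev_artB`, `art_halfB`, `mm_halfB`: as in `TriPerc.RswB`, with `Ob w` instead of `Op (1/2) w`.
* `b_step`: `(h (m - 1) / 2) ^ 2 ≤ h (2 m - 2)` by Harris and `keyB'`.
-/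

namespace Pool.Agent.Rotor2

open MeasureTheory Set Pool.Agent.TriPerc

variable {m n : ℤ}

theorem ev_ccB {c : Set V} (hc : c ⊆ Rl m n) :
    Ev (ex m n c) {w | cc m n (Ob w) = c} := by
  by_cases hj : ∀ x ∈ c, ∃ u ∈ c, n ≤ u.2 ∧ Conn c u x
  · have hfin : (ex m n c).Finite := (finite_rec 0 (m - 1) 0 n).subset fun v hv => hv.1
    have h := ev_ob hfin fun T => (∀ v ∈ c, v ∉ T) ∧ ∀ v ∈ ex m n c, v ∉ c → v ∈ T
    have e : ∀ w : Lab, ((∀ v ∈ c, v ∉ Ob w ∩ ex m n c) ∧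
        ∀ v ∈ ex m n c, v ∉ c → v ∈ Ob w ∩ ex m n c) ↔ cc m n (Ob w) = c := by
      intro w
      rw [cc_eq_iff hc hj]
      constructor
      · rintro ⟨h1, h2⟩
        exact ⟨fun v hv h3 => h1 v hv ⟨h3, hc hv, Or.inl hv⟩, fun v hv h3 => (h2 v hv h3).1⟩
      · rintro ⟨h1, h2⟩
        exact ⟨fun v hv h3 => h1 v hv h3.1, fun v hv h3 => ⟨h2 v hv h3, hv⟩⟩
    simp only [e] at h
    exact h
  · have h1 : {w | cc m n (Ob w) = c} = ∅ := by
      ext w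
      refine ⟨fun hw => hj ?_, fun hw => absurd hw (notMem_empty w)⟩
      have h2 := (cc_prop (m := m) (n := n) (Ob w)).2
      rw [show cc m n (Ob w) = c from hw] at h2
      exact h2
    rw [h1]
    exact ev_empty

theorem ev_artB {e A B : Set V} (he : e ⊆ Rl m n) :
    Ev {v | v ∈ R2 m n ∧ v ∉ e ∧ vref m v ∉ e} {w | Join (art m (Ob w) e ∩ R2 m n) A B} := by
  have hfin : {v | v ∈ R2 m n ∧ v ∉ e ∧ vref m v ∉ e}.Finite :=
    (finite_rec 0 (2 * m) 0 n).subset fun v hv => hv.1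
  have h := ev_ob hfin fun T => Join ({v | v ∈ e ∧ v ∈ R2 m n} ∪ T) A B
  have h2 : ∀ w : Lab, {v | v ∈ e ∧ v ∈ R2 m n} ∪
      (Ob w ∩ {v | v ∈ R2 m n ∧ v ∉ e ∧ vref m v ∉ e}) = art m (Ob w) e ∩ R2 m n := by
    intro w
    ext v
    constructor
    · rintro (⟨h3, h4⟩ | ⟨h3, h4, h5, h6⟩)
      · exact ⟨Or.inl h3, h4⟩
      · exact ⟨Or.inr ⟨h3, h6⟩, h4⟩
    · rintro ⟨h3 | ⟨h3, h4⟩, h5⟩
      · exact Or.inl ⟨h3, h5⟩
      · by_cases h6 : v ∈ e
        · exact Or.inl ⟨h6, h5⟩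
        · exact Or.inr ⟨h3, h5, h6, h4⟩
  simp only [h2] at h
  exact h

private theorem vref_vref (m : ℤ) (v : V) : vref m (vref m v) = v := by
  ext
  · show m - (m - v.1 - v.2) - v.2 = v.1
    ring
  · rfl

private theorem vref_R2 (m n : ℤ) (v : V) : vref m v ∈ R2 m n ↔ v ∈ R2 m n := by
  obtain ⟨h1, h2⟩ := X_vref m v
  show (0 ≤ X (vref m v) ∧ X (vref m v) ≤ 2 * m ∧ 0 ≤ (vref m v).2 ∧ (vref m v).2 ≤ n) ↔
    (0 ≤ X v ∧ X v ≤ 2 * m ∧ 0 ≤ v.2 ∧ v.2 ≤ n)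
  rw [h1, h2]
  constructor <;> rintro ⟨a1, a2, a3, a4⟩ <;> refine ⟨?_, ?_, a3, a4⟩ <;> omega

theorem art_halfB (hm : 2 ≤ m) (hodd : m % 2 = 1) (hn : 0 ≤ n) {e : Set V} (he : e ⊆ Rl m n) :
    1 / 2 ≤ P {w | Join (art m (Ob w) e ∩ R2 m n) (A1 m n) (A3 m)} := by
  set J : Set Lab := {w | Join (art m (Ob w) e ∩ R2 m n) (A1 m n) (A3 m)} with hJ
  set J' : Set Lab := {w | Join ((art m (Ob w) e)ᶜ ∩ R2 m n) (A2 m n) (A4 m)} with hJ'
  have hmJ : MeasurableSet J := (ev_artB he).1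
  have hcov : (Set.univ : Set Lab) ⊆ J ∪ J' := fun w _ => arc_or hm hn _
  have hmp : MeasurePreserving (fun w : Lab => fun v => 1 - w (vref m v)) P P :=
    mp_flip.comp (mp_comp (vref m))
  have hsub : J' ⊆ (fun w : Lab => fun v => 1 - w (vref m v)) ⁻¹' J := by
    intro w hw
    have h1 : Join ((art m (Ob w) e)ᶜ ∩ R2 m n) (A2 m n) (A4 m) := hw
    refine Join.mono ((join_preimage (isAut_vref m)).2 h1) ?_ ?_ ?_
    · rintro v ⟨h2, h3⟩
      refine ⟨?_, (vref_R2 m n v).1 h3⟩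
      by_cases h4 : v ∈ e
      · exact Or.inl h4
      · have h5 : vref m v ∉ e := fun h => h2 (Or.inl h)
        have h6 : vref m v ∉ Ob w := fun h => h2 (Or.inr ⟨h, by rwa [vref_vref]⟩)
        exact Or.inr ⟨ob_flip_vref hodd w h6, h5⟩
    · rintro v ⟨h2, h3⟩
      rw [(X_vref m v).1] at h3
      exact ⟨h2, by omega⟩
    · rintro v (h2 | ⟨h2, h3⟩)
      · left
        have h4 : X (vref m v) ≤ 1 := h2
        rw [(X_vref m v).1] at h4
        omega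
      · right
        rw [(X_vref m v).1] at h3
        exact ⟨h2, by omega⟩
  have h1 : P J' ≤ P J :=
    (measure_mono hsub).trans_eq (hmp.measure_preimage hmJ.nullMeasurableSet)
  have h2 : (1 : ENNReal) ≤ P J + P J := by
    calc (1 : ENNReal) = P Set.univ := measure_univ.symm
      _ ≤ P (J ∪ J') := measure_mono hcov
      _ ≤ P J + P J' := measure_union_le _ _
      _ ≤ P J + P J := by gcongr
  by_contra hlt
  rw [not_le] at hlt
  have h3 : P J + P J < 1 / 2 + 1 / 2 := ENNReal.add_lt_add hlt hlt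
  rw [ENNReal.add_halves] at h3
  exact absurd h2 (not_le.2 h3)

theorem mm_halfB (hm : 2 ≤ m) (hodd : m % 2 = 1) (hn : 0 ≤ n) :
    1 / 2 * P (bHC 0 (m - 1) 0 n) ≤ P {w | Mm m n (Ob w)} := by
  classical
  set Rf : Finset V := (finite_rec 0 (m - 1) 0 n).toFinset with hRf
  set I : Finset (Finset V) := Rf.powerset.filter fun c => ∀ v ∈ c, 0 < v.2 with hI
  have hsubI : ∀ c ∈ I, (c : Set V) ⊆ Rl m n := fun c hc v hv => by
    have h1 := Finset.mem_powerset.1 (Finset.mem_filter.1 hc).1 (Finset.mem_coe.1 hv)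
    exact (finite_rec 0 (m - 1) 0 n).mem_toFinset.1 h1
  have hex : ∀ c : Finset V, ex m n (c : Set V) ⊆ Rl m n := fun c v hv => hv.1
  set E : Finset V → Set Lab := fun c => {w | cc m n (Ob w) = (c : Set V)} with hE
  set J : Finset V → Set Lab := fun c =>
    {w | Join (art m (Ob w) (ex m n c) ∩ R2 m n) (A1 m n) (A3 m)} with hJ
  have h1 : P (bHC 0 (m - 1) 0 n) ≤ ∑ c ∈ I, P (E c) := by
    refine (measure_mono ?_).trans (measure_biUnion_finset_le I E)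
    intro w hw
    have h2 := (hc_iff_cc hm hn (Ob w)).1 hw
    have h3 : (cc m n (Ob w)).Finite :=
      (finite_rec 0 (m - 1) 0 n).subset (cc_prop (Ob w)).1
    refine mem_iUnion₂.2 ⟨h3.toFinset, ?_, ?_⟩
    · refine Finset.mem_filter.2 ⟨Finset.mem_powerset.2 fun v hv => ?_, fun v hv => ?_⟩
      · exact (finite_rec 0 (m - 1) 0 n).mem_toFinset.2
          ((cc_prop (Ob w)).1 (h3.mem_toFinset.1 hv))
      · exact h2 v (h3.mem_toFinset.1 hv)
    · show cc m n (Ob w) = (h3.toFinset : Set V)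
      rw [h3.coe_toFinset]
  have h2 : ∑ c ∈ I, P (E c ∩ J c) ≤ P {w | Mm m n (Ob w)} := by
    rw [← measure_biUnion_finset]
    · refine measure_mono fun w hw => ?_
      obtain ⟨c, hc, h3, h4⟩ := mem_iUnion₂.1 hw
      have h5 : cc m n (Ob w) = (c : Set V) := h3
      refine keyA hm hn ((hc_iff_cc hm hn _).2 ?_) ?_
      · rw [h5]
        exact fun v hv => (Finset.mem_filter.1 hc).2 v (Finset.mem_coe.1 hv)
      · rw [h5]
        exact h4
    · intro c _ d _ hcd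
      refine Set.disjoint_left.2 fun w h3 h4 => hcd ?_
      have h5 : cc m n (Ob w) = (c : Set V) := h3.1
      have h6 : cc m n (Ob w) = (d : Set V) := h4.1
      exact Finset.coe_injective (h5.symm.trans h6)
    · intro c hc
      exact (ev_ccB (hsubI c hc)).1.inter (ev_artB (hex c)).1
  have h3 : ∀ c ∈ I, 1 / 2 * P (E c) ≤ P (E c ∩ J c) := by
    intro c hc
    rw [indep (ev_ccB (hsubI c hc)) (ev_artB (hex c))
      (Set.disjoint_left.2 fun v hv hv' => hv'.2.1 hv), mul_comm]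
    gcongr
    exact art_halfB hm hodd hn (hex c)
  calc 1 / 2 * P (bHC 0 (m - 1) 0 n) ≤ 1 / 2 * ∑ c ∈ I, P (E c) := by gcongr
    _ = ∑ c ∈ I, 1 / 2 * P (E c) := Finset.mul_sum _ _ _
    _ ≤ ∑ c ∈ I, P (E c ∩ J c) := Finset.sum_le_sum h3
    _ ≤ P {w | Mm m n (Ob w)} := h2

theorem b_step (hm : 3 ≤ m) (hodd : m % 2 = 1) (hn : 0 ≤ n) :
    (1 / 2 * P (bHC 0 (m - 1) 0 n)) ^ 2 ≤ P (bHC 0 (2 * m - 2) 0 n) := by
  set M1 : Set Lab := {w | Mm m n (Ob w)} with hM1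
  set M2 : Set Lab := {w | Mm m n (vref (m - 1) ⁻¹' Ob w)} with hM2
  have hfin : (Rec (-2) (2 * m) 0 n).Finite := finite_rec _ _ _ _
  have e1 := ev_bJoin (A := {v | X v ≤ 1}) (B := A3 m) (finite_rec 0 (2 * m) 0 n)
  have e2 := ev_bJoin (A := vref (m - 1) ⁻¹' {v | X v ≤ 1}) (B := vref (m - 1) ⁻¹' A3 m)
    (finite_rec (-2) (2 * m - 2) 0 n)
  have s1 : Rec 0 (2 * m) 0 n ⊆ Rec (-2) (2 * m) 0 n := by
    rintro v ⟨j1, j2, j3, j4⟩
    exact ⟨by omega, j2, j3, j4⟩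
  have s2 : Rec (-2) (2 * m - 2) 0 n ⊆ Rec (-2) (2 * m) 0 n := by
    rintro v ⟨j1, j2, j3, j4⟩
    exact ⟨j1, by omega, j3, j4⟩
  have h2 : M2 = {w | Join (Ob w ∩ Rec (-2) (2 * m - 2) 0 n) (vref (m - 1) ⁻¹' {v | X v ≤ 1})
      (vref (m - 1) ⁻¹' A3 m)} := by
    ext w
    have h3 : vref (m - 1) ⁻¹' Ob w ∩ R2 m n =
        vref (m - 1) ⁻¹' (Ob w ∩ Rec (-2) (2 * m - 2) 0 n) := by
      ext v
      obtain ⟨x1, x2⟩ := X_vref (m - 1) v
      constructor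
      · rintro ⟨k1, k2, k3, k4, k5⟩
        refine ⟨k1, ?_, ?_, ?_, ?_⟩ <;> omega
      · rintro ⟨k1, k2, k3, k4, k5⟩
        refine ⟨k1, ?_, ?_, ?_, ?_⟩ <;> omega
    have h4 : ∀ A : Set V, vref (m - 1) ⁻¹' (vref (m - 1) ⁻¹' A) = A := fun A => by
      ext v
      show vref (m - 1) (vref (m - 1) v) ∈ A ↔ v ∈ A
      rw [vref_vref]
    show Join (vref (m - 1) ⁻¹' Ob w ∩ R2 m n) {v | X v ≤ 1} (A3 m) ↔ _
    rw [h3]
    conv_lhs => rw [← h4 {v | X v ≤ 1}, ← h4 (A3 m)]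
    exact join_preimage (isAut_vref (m - 1))
  have h5 : P M2 = P M1 := by
    rw [← (mp_comp (vref (m - 1))).measure_preimage
      (show MeasurableSet M1 from e1.1.1).nullMeasurableSet]
    congr 1
    ext w
    show Mm m n (vref (m - 1) ⁻¹' Ob w) ↔ Mm m n (Ob (fun v => w (vref (m - 1) v)))
    rw [ob_vref (by omega)]
  have h6 : P M1 * P M2 ≤ P (M1 ∩ M2) :=
    harris_low hfin (e1.1.mono s1) (by rw [h2]; exact e2.1.mono s2) e1.2
      (by rw [h2]; exact e2.2)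
  calc (1 / 2 * P (bHC 0 (m - 1) 0 n)) ^ 2 ≤ (P M1) ^ 2 := by
        gcongr
        exact mm_halfB (by omega) hodd hn
    _ = P M1 * P M2 := by rw [h5, sq]
    _ ≤ P (M1 ∩ M2) := h6
    _ ≤ P (bHC 0 (2 * m - 2) 0 n) :=
        measure_mono fun w hw => keyB' hm hn hw.1 hw.2

end Pool.Agent.Rotor2
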