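import Pool.Agent.Rotor2.BHalf
import Pool.Agent.Rotor2.BStep

/-!
# RSW for bonds at `p = 1/2`

`h_k = P (bHC 0 (2^k (n-2)) 0 n)`, `n ≥ 4` even: `h_0 ≥ 1/2` (`bhalf'`), `h_(k+1) ≥ (h_k / 2)^2`
(`b_step` with `m - 1 = 2^k (n - 2)`).  Three steps: `P (bHC 0 (8 (n-2)) 0 n) ≥ c > 0`.
`n = 2 N - 4`: width `8 (2 N - 6) = 16 N - 48 ≥ 6 N + 5` for `N ≥ 10`; then `bHC_lb` for the
horizontal crossings and `bHC_le_bVC` for the vertical ones.
-/

namespace Pool.Agent.Rotor2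

open MeasureTheory Set Pool.Agent.TriPerc

/-- The constant. -/
noncomputable def cRsw : ENNReal := (1 / 2 * (1 / 2 * (1 / 2 * (1 / 2)) ^ 2) ^ 2) ^ 2

theorem cRsw_ne_zero : cRsw ≠ 0 := by
  unfold cRsw
  have h : (1 / 2 : ENNReal) ≠ 0 := by simp
  exact pow_ne_zero 2 (mul_ne_zero h (pow_ne_zero 2 (mul_ne_zero h (pow_ne_zero 2
    (mul_ne_zero h h)))))

theorem cRsw_ne_top : cRsw ≠ ⊤ := by
  unfold cRsw
  have h : (1 / 2 : ENNReal) ≠ ⊤ := by simp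
  exact ENNReal.pow_ne_top (ENNReal.mul_ne_top h (ENNReal.pow_ne_top (ENNReal.mul_ne_top h
    (ENNReal.pow_ne_top (ENNReal.mul_ne_top h h)))))

theorem b_three {n : ℤ} (hn : 4 ≤ n) (he : n % 2 = 0) :
    cRsw ≤ P (bHC 0 (8 * (n - 2)) 0 n) := by
  have h0 : 1 / 2 ≤ P (bHC 0 (n - 2) 0 n) := bhalf' (by omega)
  have h1 := b_step (m := n - 1) (n := n) (by omega) (by omega) (by omega)
  have h2 := b_step (m := 2 * (n - 2) + 1) (n := n) (by omega) (by omega) (by omega)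
  have h3 := b_step (m := 4 * (n - 2) + 1) (n := n) (by omega) (by omega) (by omega)
  rw [show n - 1 - 1 = n - 2 by ring, show 2 * (n - 1) - 2 = 2 * (n - 2) by ring] at h1
  rw [show 2 * (n - 2) + 1 - 1 = 2 * (n - 2) by ring,
    show 2 * (2 * (n - 2) + 1) - 2 = 4 * (n - 2) by ring] at h2
  rw [show 4 * (n - 2) + 1 - 1 = 4 * (n - 2) by ring,
    show 2 * (4 * (n - 2) + 1) - 2 = 8 * (n - 2) by ring] at h3
  calc cRsw = (1 / 2 * (1 / 2 * (1 / 2 * (1 / 2)) ^ 2) ^ 2) ^ 2 := rfl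
    _ ≤ (1 / 2 * (1 / 2 * (1 / 2 * P (bHC 0 (n - 2) 0 n)) ^ 2) ^ 2) ^ 2 := by gcongr
    _ ≤ (1 / 2 * (1 / 2 * P (bHC 0 (2 * (n - 2)) 0 n)) ^ 2) ^ 2 := by gcongr
    _ ≤ (1 / 2 * P (bHC 0 (4 * (n - 2)) 0 n)) ^ 2 := by gcongr
    _ ≤ P (bHC 0 (8 * (n - 2)) 0 n) := h3

/-- Horizontal crossings of rectangles of width `6 N` (+ 2) and height `≥ 2 N - 2`. -/
theorem b_hor {N l r b t : ℤ} (hN : 10 ≤ N) (hlr : l < r) (h1 : r - l ≤ 6 * N + 2)
    (h2 : 2 * N - 2 ≤ t - b) : cRsw ≤ P (bHC l r b t) := by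
  have h3 := b_three (n := 2 * N - 4) (by omega) (by omega)
  refine h3.trans (bHC_lb hlr ?_ ?_)
  · omega
  · omega

/-- RSW for bonds. -/
theorem rsw_b : ∃ c : ℝ, 0 < c ∧ ∀ N : ℤ, 10 ≤ N →
    c ≤ (P (bHC (-3 * N) (3 * N) N (3 * N))).toReal ∧
    c ≤ (P (bHC (-3 * N) (3 * N) (-3 * N) (-N))).toReal ∧
    c ≤ (P (bVC N (3 * N) (-3 * N) (3 * N))).toReal ∧
    c ≤ (P (bVC (-3 * N) (-N) (-3 * N) (3 * N))).toReal := by
  refine ⟨cRsw.toReal, ENNReal.toReal_pos cRsw_ne_zero cRsw_ne_top, fun N hN => ?_⟩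
  refine ⟨?_, ?_, ?_, ?_⟩
  · exact ENNReal.toReal_mono (measure_ne_top _ _)
      (b_hor hN (by omega) (by omega) (by omega))
  · exact ENNReal.toReal_mono (measure_ne_top _ _)
      (b_hor hN (by omega) (by omega) (by omega))
  · refine ENNReal.toReal_mono (measure_ne_top _ _) ?_
    have h1 : cRsw ≤ P (bHC (-3 * N - 1) (3 * N + 1) (N + 1) (3 * N - 1)) :=
      b_hor hN (by omega) (by omega) (by omega)
    have h2 := bHC_le_bVC (l := -3 * N - 1) (r := 3 * N + 1) (b := N + 1) (t := 3 * N - 1)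
      (by omega)
    rw [show N + 1 - 1 = N by ring, show 3 * N - 1 + 1 = 3 * N by ring,
      show -3 * N - 1 + 1 = -3 * N by ring, show 3 * N + 1 - 1 = 3 * N by ring] at h2
    exact h1.trans h2
  · refine ENNReal.toReal_mono (measure_ne_top _ _) ?_
    have h1 : cRsw ≤ P (bHC (-3 * N - 1) (3 * N + 1) (-3 * N + 1) (-N - 1)) :=
      b_hor hN (by omega) (by omega) (by omega)
    have h2 := bHC_le_bVC (l := -3 * N - 1) (r := 3 * N + 1) (b := -3 * N + 1) (t := -N - 1)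
      (by omega)
    rw [show -3 * N + 1 - 1 = -3 * N by ring, show -N - 1 + 1 = -N by ring,
      show -3 * N - 1 + 1 = -3 * N by ring, show 3 * N + 1 - 1 = 3 * N by ring] at h2
    exact h1.trans h2

end Pool.Agent.Rotor2
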