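import Pool.Agent.TriPerc.Half
import Pool.Agent.TriPerc.Harris

/-!
# Bond percolation on the square lattice at `p = 1/2`, coded on the triangular lattice

In the doubled coordinates `(a, a + b)` of the vertex `v = (a, b)`: even-even = site of the square
lattice, odd-odd = face, odd sum = bond.  So the rows `b` even consist of sites (`a` even, always
open) and faces (`a` odd, always closed), the rows `b` odd consist of bonds (fair coins).

`Ob w` is the set of open vertices.  Every event about `Ob w` is an event about `Op (1/2) w`.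

* Symmetries of the types: translations by `(2 i, 2 j)`; `vref k` for `k` even; `sw`.
  `vref m` for `m` odd and the translation by `(1, 0)` exchange sites and faces.
* `sw (a, b) = (- a, 2 a + b)` exchanges `X` and the row and preserves the types; it is not an
  automorphism of the triangular lattice, but the only edges between open vertices which are
  destroyed are the horizontal edges between two bonds of an odd row, and the images of their ends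
  are joined through a site (`conn_sw`).
-/

namespace Pool.Agent.Rotor2

open MeasureTheory Set Pool.Agent.TriPerc

/-- The open vertices: all sites, and the bonds whose label is at most `1/2`. -/
def Ob (w : Lab) : Set V := {v | (v.1 % 2 = 0 ∧ v.2 % 2 = 0) ∨ (v.2 % 2 = 1 ∧ w v ≤ 1 / 2)}

/-- Horizontal crossing by open vertices. -/
def bHC (l r b t : ℤ) : Set Lab := {w | HC (Ob w) l r b t}

/-- Vertical crossing by open vertices. -/
def bVC (l r b t : ℤ) : Set Lab := {w | VC (Ob w) l r b t}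

variable {l r b t : ℤ} {w : Lab} {u v : V}

theorem mem_ob : v ∈ Ob w ↔ (v.1 % 2 = 0 ∧ v.2 % 2 = 0) ∨ (v.2 % 2 = 1 ∧ w v ≤ 1 / 2) := Iff.rfl

/-! ### Measurability and monotonicity -/

/-- An event about `Ob w ∩ D` depends on the labels in `D` only. -/
theorem ev_ob {D : Set V} (hD : D.Finite) (Q : Set V → Prop) : Ev D {w | Q (Ob w ∩ D)} := by
  have h := ev_op hD (1 / 2)
    fun T => Q ({v | v ∈ D ∧ v.1 % 2 = 0 ∧ v.2 % 2 = 0} ∪ (T ∩ {v | v.2 % 2 = 1}))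
  have e : ∀ w : Lab, {v : V | v ∈ D ∧ v.1 % 2 = 0 ∧ v.2 % 2 = 0} ∪
      ((Op (1 / 2) w ∩ D) ∩ {v | v.2 % 2 = 1}) = Ob w ∩ D := by
    intro w
    ext v
    constructor
    · rintro (⟨h1, h2⟩ | ⟨⟨h1, h2⟩, h3⟩)
      · exact ⟨Or.inl h2, h1⟩
      · exact ⟨Or.inr ⟨h3, h1⟩, h2⟩
    · rintro ⟨h1 | ⟨h1, h2⟩, h3⟩
      · exact Or.inl ⟨h3, h1⟩
      · exact Or.inr ⟨⟨h2, h3⟩, h1⟩
  simp only [e] at h
  exact h

theorem ob_anti {w w' : Lab} (h : w ≤ w') : Ob w' ⊆ Ob w := by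
  rintro v (h1 | ⟨h1, h2⟩)
  · exact Or.inl h1
  · exact Or.inr ⟨h1, (h v).trans h2⟩

/-- Crossings of a finite region `D` by open vertices. -/
theorem ev_bJoin {D A B : Set V} (hD : D.Finite) :
    Ev D {w | Join (Ob w ∩ D) A B} ∧ IsLowerSet {w | Join (Ob w ∩ D) A B} := by
  refine ⟨ev_ob hD fun T => Join T A B, ?_⟩
  intro w w' hle hw
  exact Join.mono hw (Set.inter_subset_inter_left _ (ob_anti hle)) subset_rfl subset_rfl

/-- Crossings of a finite region `D` by closed vertices. -/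
theorem ev_bJoinC {D A B : Set V} (hD : D.Finite) : Ev D {w | Join ((Ob w)ᶜ ∩ D) A B} := by
  have h := ev_ob hD fun T => Join (Tᶜ ∩ D) A B
  have e : ∀ w : Lab, (Ob w ∩ D)ᶜ ∩ D = (Ob w)ᶜ ∩ D := by
    intro w
    ext v
    constructor
    · rintro ⟨h1, h2⟩
      exact ⟨fun h3 => h1 ⟨h3, h2⟩, h2⟩
    · rintro ⟨h1, h2⟩
      exact ⟨fun h3 => h1 h3.1, h2⟩
  simp only [e] at h
  exact h

theorem ev_bHC : Ev (Rec l r b t) (bHC l r b t) := (ev_bJoin (finite_rec l r b t)).1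

theorem ev_bVC : Ev (Rec l r b t) (bVC l r b t) := (ev_bJoin (finite_rec l r b t)).1

theorem low_bHC : IsLowerSet (bHC l r b t) := (ev_bJoin (finite_rec l r b t)).2

theorem low_bVC : IsLowerSet (bVC l r b t) := (ev_bJoin (finite_rec l r b t)).2

/-! ### Symmetries which preserve the types -/

theorem ob_tr (i j : ℤ) (w : Lab) :
    Ob (fun v => w (tr (2 * i, 2 * j) v)) = tr (2 * i, 2 * j) ⁻¹' Ob w := by
  ext v
  show ((v.1 % 2 = 0 ∧ v.2 % 2 = 0) ∨ (v.2 % 2 = 1 ∧ w (tr (2 * i, 2 * j) v) ≤ 1 / 2)) ↔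
    (((v.1 + 2 * i) % 2 = 0 ∧ (v.2 + 2 * j) % 2 = 0) ∨
      ((v.2 + 2 * j) % 2 = 1 ∧ w (tr (2 * i, 2 * j) v) ≤ 1 / 2))
  rw [show (v.1 + 2 * i) % 2 = v.1 % 2 by omega, show (v.2 + 2 * j) % 2 = v.2 % 2 by omega]

theorem ob_vref {k : ℤ} (hk : k % 2 = 0) (w : Lab) :
    Ob (fun v => w (vref k v)) = vref k ⁻¹' Ob w := by
  ext v
  show ((v.1 % 2 = 0 ∧ v.2 % 2 = 0) ∨ (v.2 % 2 = 1 ∧ w (vref k v) ≤ 1 / 2)) ↔
    (((k - v.1 - v.2) % 2 = 0 ∧ v.2 % 2 = 0) ∨ (v.2 % 2 = 1 ∧ w (vref k v) ≤ 1 / 2))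
  constructor
  · rintro (⟨h1, h2⟩ | h)
    · exact Or.inl ⟨by omega, h2⟩
    · exact Or.inr h
  · rintro (⟨h1, h2⟩ | h)
    · exact Or.inl ⟨by omega, h2⟩
    · exact Or.inr h

/-- The general form of the symmetry lemmas. -/
theorem P_bJoin {g : V ≃ V} (hg : IsAut g) (hO : ∀ w : Lab, Ob (fun v => w (g v)) = g ⁻¹' Ob w)
    {D D' A A' B B' : Set V} (hDf : D.Finite) (hD : g ⁻¹' D' = D) (hA : g ⁻¹' A' = A)
    (hB : g ⁻¹' B' = B) :
    P {w | Join (Ob w ∩ D') A' B'} = P {w | Join (Ob w ∩ D) A B} := by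
  rw [← (mp_comp g).measure_preimage (ev_bJoin (A := A) (B := B) hDf).1.1.nullMeasurableSet]
  congr 1
  ext w
  show Join (Ob w ∩ D') A' B' ↔ Join (Ob (fun v => w (g v)) ∩ D) A B
  rw [hO, ← hD, ← hA, ← hB, ← Set.preimage_inter]
  exact (join_preimage hg).symm

theorem X_tr2 (i j : ℤ) (v : V) : X (tr (2 * i, 2 * j) v) = X v + (4 * i + 2 * j) ∧
    (tr (2 * i, 2 * j) v).2 = v.2 + 2 * j := by
  refine ⟨?_, rfl⟩
  show 2 * (v.1 + 2 * i) + (v.2 + 2 * j) = 2 * v.1 + v.2 + (4 * i + 2 * j)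
  ring

theorem shift_bHC (i j : ℤ) :
    P (bHC (l + (4 * i + 2 * j)) (r + (4 * i + 2 * j)) (b + 2 * j) (t + 2 * j)) =
      P (bHC l r b t) := by
  refine P_bJoin (isAut_tr (2 * i, 2 * j)) (ob_tr i j) (finite_rec l r b t) ?_ ?_ ?_
  · ext v
    obtain ⟨h1, h2⟩ := X_tr2 i j v
    show (l + (4 * i + 2 * j) ≤ X (tr (2 * i, 2 * j) v) ∧
      X (tr (2 * i, 2 * j) v) ≤ r + (4 * i + 2 * j) ∧ b + 2 * j ≤ (tr (2 * i, 2 * j) v).2 ∧
      (tr (2 * i, 2 * j) v).2 ≤ t + 2 * j) ↔ (l ≤ X v ∧ X v ≤ r ∧ b ≤ v.2 ∧ v.2 ≤ t)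
    rw [h1, h2]
    constructor <;> rintro ⟨a1, a2, a3, a4⟩ <;> refine ⟨?_, ?_, ?_, ?_⟩ <;> omega
  · ext v
    have h1 := (X_tr2 i j v).1
    show X (tr (2 * i, 2 * j) v) ≤ l + (4 * i + 2 * j) + 1 ↔ X v ≤ l + 1
    rw [h1]
    constructor <;> intro h <;> omega
  · ext v
    have h1 := (X_tr2 i j v).1
    show r + (4 * i + 2 * j) - 1 ≤ X (tr (2 * i, 2 * j) v) ↔ r - 1 ≤ X v
    rw [h1]
    constructor <;> intro h <;> omega

/-- Crossings at all positions: compare with the corner `(0, 0)`. -/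
theorem bHC_lb {m n : ℤ} (hlr : l < r) (hm : r - l + 3 ≤ m) (hn : n ≤ t - b - 1) :
    P (bHC 0 m 0 n) ≤ P (bHC l r b t) := by
  -- `b0` even in `{b, b + 1}`, `l0 ≡ b0` mod 4 in `{l - 3, ..., l}`
  obtain ⟨j, hj1, hj2⟩ : ∃ j : ℤ, b ≤ 2 * j ∧ 2 * j ≤ b + 1 := ⟨(b + 1) / 2, by omega, by omega⟩
  obtain ⟨i, hi1, hi2⟩ : ∃ i : ℤ, l - 3 ≤ 4 * i + 2 * j ∧ 4 * i + 2 * j ≤ l :=
    ⟨(l - 2 * j) / 4, by omega, by omega⟩
  rw [← shift_bHC (l := 0) (r := m) (b := 0) (t := n) i j]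
  refine measure_mono fun w hw => ?_
  have h1 : HC (Ob w) (0 + (4 * i + 2 * j)) (m + (4 * i + 2 * j)) (0 + 2 * j) (n + 2 * j) := hw
  exact hc_wide (by omega) (by omega) (hc_sub (by omega) (by omega) hlr h1)

/-! ### Exchanging sites and faces -/

theorem ob_flip {g : V ≃ V} (hg : ∀ v : V, v.2 % 2 = (g v).2 % 2 ∧
    (v.2 % 2 = 0 → (v.1 + (g v).1) % 2 = 1)) (w : Lab) :
    g ⁻¹' (Ob w)ᶜ ⊆ Ob (fun v => 1 - w (g v)) := by
  intro v hv
  have h1 : ¬ (((g v).1 % 2 = 0 ∧ (g v).2 % 2 = 0) ∨ ((g v).2 % 2 = 1 ∧ w (g v) ≤ 1 / 2)) := hv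
  obtain ⟨h2, h3⟩ := hg v
  rcases Int.emod_two_eq_zero_or_one v.2 with h4 | h4
  · left
    refine ⟨?_, h4⟩
    have h5 := h3 h4
    by_contra h6
    exact h1 (Or.inl ⟨by omega, by omega⟩)
  · right
    refine ⟨h4, ?_⟩
    have h5 : ¬ w (g v) ≤ 1 / 2 := fun h => h1 (Or.inr ⟨by omega, h⟩)
    show 1 - w (g v) ≤ 1 / 2
    linarith [not_le.1 h5]

/-- The reflection in the line `X = m`, `m` odd. -/
theorem ob_flip_vref {m : ℤ} (hm : m % 2 = 1) (w : Lab) :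
    vref m ⁻¹' (Ob w)ᶜ ⊆ Ob (fun v => 1 - w (vref m v)) := by
  refine ob_flip (fun v => ⟨rfl, fun h => ?_⟩) w
  show (v.1 + (m - v.1 - v.2)) % 2 = 1
  omega

/-- The translation by `(1, 0)`. -/
theorem ob_flip_tr (w : Lab) :
    tr (1, 0) ⁻¹' (Ob w)ᶜ ⊆ Ob (fun v => 1 - w (tr (1, 0) v)) := by
  refine ob_flip (fun v => ⟨?_, fun h => ?_⟩) w
  · show v.2 % 2 = (v.2 + 0) % 2
    rw [add_zero]
  · show (v.1 + (v.1 + 1)) % 2 = 1
    omega

/-- The general form: `g` exchanges sites and faces; closed crossings are at most as likely as the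
reflected open ones. -/
theorem P_bJoinC {g : V ≃ V} (hg : IsAut g)
    (hO : ∀ w : Lab, g ⁻¹' (Ob w)ᶜ ⊆ Ob (fun v => 1 - w (g v)))
    {D D' A A' B B' : Set V} (hDf : D.Finite) (hD : g ⁻¹' D' = D) (hA : g ⁻¹' A' = A)
    (hB : g ⁻¹' B' = B) :
    P {w | Join ((Ob w)ᶜ ∩ D') A' B'} ≤ P {w | Join (Ob w ∩ D) A B} := by
  have hmp : MeasurePreserving (fun w : Lab => fun v => 1 - w (g v)) P P :=
    mp_flip.comp (mp_comp g)
  rw [← hmp.measure_preimage (ev_bJoin (A := A) (B := B) hDf).1.1.nullMeasurableSet]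
  refine measure_mono fun w hw => ?_
  have h1 : Join ((Ob w)ᶜ ∩ D') A' B' := hw
  have h2 := (join_preimage hg).2 h1
  rw [Set.preimage_inter, hD, hA, hB] at h2
  exact h2.mono (Set.inter_subset_inter_left _ (hO w)) subset_rfl subset_rfl

/-! ### The exchange of `X` and the row -/

/-- Exchange of `X` and the row. -/
def sw : V ≃ V where
  toFun v := (-v.1, 2 * v.1 + v.2)
  invFun v := (-v.1, 2 * v.1 + v.2)
  left_inv v := by ext <;> simp
  right_inv v := by ext <;> simp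

theorem sw_apply (v : V) : sw v = (-v.1, 2 * v.1 + v.2) := rfl

theorem X_sw (v : V) : X (sw v) = v.2 ∧ (sw v).2 = X v := by
  refine ⟨?_, rfl⟩
  show 2 * (-v.1) + (2 * v.1 + v.2) = v.2
  ring

theorem sw_sw (v : V) : sw (sw v) = v := sw.left_inv v

theorem ob_sw (w : Lab) : Ob (fun v => w (sw v)) = sw ⁻¹' Ob w := by
  ext v
  show ((v.1 % 2 = 0 ∧ v.2 % 2 = 0) ∨ (v.2 % 2 = 1 ∧ w (sw v) ≤ 1 / 2)) ↔
    (((-v.1) % 2 = 0 ∧ (2 * v.1 + v.2) % 2 = 0) ∨ ((2 * v.1 + v.2) % 2 = 1 ∧ w (sw v) ≤ 1 / 2))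
  constructor
  · rintro (⟨h1, h2⟩ | ⟨h1, h2⟩)
    · exact Or.inl ⟨by omega, by omega⟩
    · exact Or.inr ⟨by omega, h2⟩
  · rintro (⟨h1, h2⟩ | ⟨h1, h2⟩)
    · exact Or.inl ⟨by omega, by omega⟩
    · exact Or.inr ⟨by omega, h2⟩

/-- The image under `sw` of an open path in a rectangle. -/
theorem conn_sw (h : Conn (Ob w ∩ Rec l r b t) u v) :
    Conn (Ob (fun x => w (sw x)) ∩ Rec (b - 1) (t + 1) l r) (sw u) (sw v) := by
  have hmem : ∀ x ∈ Ob w ∩ Rec l r b t,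
      sw x ∈ Ob (fun x => w (sw x)) ∩ Rec (b - 1) (t + 1) l r := by
    rintro x ⟨h1, h2, h3, h4, h5⟩
    obtain ⟨k1, k2⟩ := X_sw x
    refine ⟨?_, by omega, by omega, by omega, by omega⟩
    rw [ob_sw]
    show sw (sw x) ∈ Ob w
    rw [sw_sw]
    exact h1
  obtain ⟨hu, h⟩ := h
  induction h with
  | refl => exact Conn.refl (hmem u hu)
  | @tail y z hy hz ih =>
    obtain ⟨hyz, hzS⟩ := hz
    have hyS : y ∈ Ob w ∩ Rec l r b t := (Conn.right ⟨hu, hy⟩)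
    refine ih.trans ?_
    by_cases hadj : Adj (sw y) (sw z)
    · exact Conn.of_adj (hmem y hyS) (hmem z hzS) hadj
    -- a horizontal edge
    have hrow : z.2 = y.2 ∧ (z.1 = y.1 + 1 ∨ z.1 = y.1 - 1) := by
      unfold Adj at hadj hyz
      unfold sw at hadj
      simp only [Equiv.coe_fn_mk] at hadj
      omega
    have hodd : y.2 % 2 = 1 := by
      have h1 := hyS.1
      have h2 := hzS.1
      rw [mem_ob] at h1 h2
      omega
    obtain ⟨hrow1, hrow2⟩ := hrow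
    -- the common site
    have key : ∃ s : V, Adj (sw y) s ∧ Adj s (sw z) ∧ s.1 % 2 = 0 ∧ s.2 % 2 = 0 ∧
        b - 1 ≤ X s ∧ X s ≤ t + 1 ∧ l ≤ s.2 ∧ s.2 ≤ r := by
      obtain ⟨-, a1, a2, a3, a4⟩ := hyS
      obtain ⟨-, c1, c2, c3, c4⟩ := hzS
      unfold X at a1 a2 c1 c2
      rcases hrow2 with h1 | h1
      · rcases Int.emod_two_eq_zero_or_one y.1 with h2 | h2
        · refine ⟨(-y.1, 2 * y.1 + y.2 + 1), ?_, ?_, ?_, ?_, ?_, ?_, ?_, ?_⟩ <;>
            ((try rw [sw_apply]); (try unfold Adj); (try unfold X); (try dsimp only); omega)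
        · refine ⟨(-y.1 - 1, 2 * y.1 + y.2 + 1), ?_, ?_, ?_, ?_, ?_, ?_, ?_, ?_⟩ <;>
            ((try rw [sw_apply]); (try unfold Adj); (try unfold X); (try dsimp only); omega)
      · rcases Int.emod_two_eq_zero_or_one y.1 with h2 | h2
        · refine ⟨(-y.1, 2 * y.1 + y.2 - 1), ?_, ?_, ?_, ?_, ?_, ?_, ?_, ?_⟩ <;>
            ((try rw [sw_apply]); (try unfold Adj); (try unfold X); (try dsimp only); omega)
        · refine ⟨(-y.1 + 1, 2 * y.1 + y.2 - 1), ?_, ?_, ?_, ?_, ?_, ?_, ?_, ?_⟩ <;>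
            ((try rw [sw_apply]); (try unfold Adj); (try unfold X); (try dsimp only); omega)
    obtain ⟨s, s1, s2, s3, s4, s5, s6, s7, s8⟩ := key
    have hs : s ∈ Ob (fun x => w (sw x)) ∩ Rec (b - 1) (t + 1) l r :=
      ⟨Or.inl ⟨s3, s4⟩, s5, s6, s7, s8⟩
    exact (Conn.of_adj (hmem y hyS) hs s1).trans (Conn.of_adj hs (hmem z hzS) s2)

theorem hc_sw (hlr : l + 1 ≤ r - 1) (h : HC (Ob w) l r b t) :
    VC (Ob (fun x => w (sw x))) (b - 1) (t + 1) (l + 1) (r - 1) := by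
  obtain ⟨u, hu, v, hv, h⟩ := h
  replace hu : X u ≤ l + 1 := hu
  replace hv : r - 1 ≤ X v := hv
  have k1 := (X_sw u).2
  have k2 := (X_sw v).2
  exact vc_of_conn ((conn_sw h).mono fun z hz => ⟨hz.1, hz.2.1, hz.2.2.1⟩) (by omega) (by omega)
    hlr

theorem vc_sw (h : VC (Ob w) l r b t) :
    HC (Ob (fun x => w (sw x))) (b - 1) (t + 1) l r := by
  obtain ⟨u, hu, v, hv, h⟩ := h
  replace hu : u.2 ≤ b := hu
  replace hv : t ≤ v.2 := hv
  have k1 := (X_sw u).1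
  have k2 := (X_sw v).1
  refine ⟨sw u, ?_, sw v, ?_, conn_sw h⟩
  · show X (sw u) ≤ b - 1 + 1
    omega
  · show t + 1 - 1 ≤ X (sw v)
    omega

theorem bHC_le_bVC (hlr : l + 1 ≤ r - 1) :
    P (bHC l r b t) ≤ P (bVC (b - 1) (t + 1) (l + 1) (r - 1)) := by
  rw [← (mp_comp sw).measure_preimage
    (show MeasurableSet (bVC (b - 1) (t + 1) (l + 1) (r - 1)) from ev_bVC.1).nullMeasurableSet]
  exact measure_mono fun w hw => hc_sw hlr hw

theorem bVC_le_bHC : P (bVC l r b t) ≤ P (bHC (b - 1) (t + 1) l r) := by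
  rw [← (mp_comp sw).measure_preimage
    (show MeasurableSet (bHC (b - 1) (t + 1) l r) from ev_bHC.1).nullMeasurableSet]
  exact measure_mono fun w hw => vc_sw hw

end Pool.Agent.Rotor2
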