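import Pool.Agent.Rotor2.Defs

/-!
# Certificates imply recurrence (least action principle)

Clockwise mechanism `s = fun d => d + 1`.

* `turn_add`: `turn (j + k) d = turn j (turn k d)`; `turn_four : turn 4 d = d`
  (`fin_cases d`, `decide`).
* For a function `u : Site → ℕ` (numbers of firings) put `rot r u y = turn (u y) (r y)` (current
  rotor of `y` after `u y` firings).
* INVARIANT. Let `u t y` be the number of times `i < t` with `walk s r i = y`. Then by induction on
  `t`: `(step s)^[t] ((0,0), r) = (walk s r t, fun y => turn (u t y) (r y))`.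
* CONSERVATION: for all `t` and `x` `u t x + (if walk s r t = x then 1 else 0) = recv r (u t) x +
  (if x = (0,0) then 1 else 0)`. Induction on `t`: if `y = walk s r t`, then `u (t+1) = update (u t)
  y (u t y + 1)`, and `recv r (u (t+1)) x = recv r (u t) x + (if y + vec (turn (u t y) (r y)) = x
  then 1 else 0)`: the range for the direction `d` with `x + vec d = y` grows by the element `k = u
  t y`, which counts iff `turn (u t y) (r y) = d + 2`, i.e. iff `y + vec (turn (u t y) (r y)) = x`
  (for given `x`, `y` there is at most one `d` with `x + vec d = y`; `vec` is injective and `vec (d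
  + 2) = - vec d`).
* MONOTONE: if `c ≤ c'` pointwise then `recv r c x ≤ recv r c' x`.
* NESTED SUMS. Call `U` good if `∀ x, recv r U x ≤ U x`. If `Cert r c`, `U` is good, and `∀ x, U x ≠
  0 → c x = 4`... in fact we need the sum of nested certificates `c_1, ..., c_k` with `c_(j+1) = 4`
  on the support of `c_j`. Put `U_0 = 0`, `U_(j+1) = U_j + c_(j+1)`. Then `U_(j+1) y = c_(j+1) y` if
  `U_j y = 0` and `U_(j+1) y = U_j y + 4` otherwise, so in both cases the number of `k < U_(j+1) y`
  with `turn k (r y) = d'` is the number of those `k < U_j y` plus the number of those `k < c_(j+1)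
  y` (in `4` consecutive values of `k` every direction occurs exactly once: `turn (k + 4) = turn
  k`). Hence `recv r U_(j+1) x = recv r U_j x + recv r c_(j+1) x ≤ U_(j+1) x`. It is convenient to
  prove: for every `k : ℕ` there is `U : Site → ℕ` with finite support, good, `U (0,0) = 4 * k`
  (start with `U = 0`; given `U`, choose `R` such that the support of `U` and the origin are in the
  box `|x.1|, |x.2| ≤ R`, take the certificate `c` for this `R` and `U + c`).
* LEAST ACTION: if `U` is good with finite support and `u t (0,0) ≤ U (0,0)` then `∀ x, u t x ≤ U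
  x`. Induction on `t`: for `t + 1`, `u t (0,0) ≤ u (t+1) (0,0) ≤ U (0,0)`, so `u t ≤ U`. Let `y =
  walk s r t`. Only the value at `y` has changed. If `u (t+1) y > U y` then `u t y = U y` and by
  conservation `U y + 1 = recv r (u t) y + (if y = 0 ..) ≤ U y + (if y = 0 then 1 else 0)`, so `y =
  0`, but then `u (t+1) (0,0) = U (0,0) + 1`, contradiction.
* Since `∑ x, u t x = t` and `∑ x, U x` is finite, for every `k` there is `t` with
  `u t (0,0) > 4 k`: the origin is visited infinitely often: for every `T` there is `t ≥ T` with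
  `walk s r t = (0,0)` (take `4 k ≥ T`, more than `T` visits).
* NEIGHBOURS: if `y` is visited infinitely often, then every neighbour is: the rotor at `y` after
  `u` firings is `turn u (r y)`; every direction `d` occurs for infinitely many of the visits:
  for given `T` choose `n` (number of firings of `y`) large with `turn n (r y) = d` (one of four
  consecutive values), and the time `t` of the firing number `n` (`u t y = n`, `walk s r t = y`);
  then `walk s r (t+1) = y + vec d`.
* Every site is reached from the origin by finitely many unit steps (induction on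
  `|y.1| + |y.2|`).
-/

namespace Pool.Agent.Rotor2

theorem turn_four (d : Fin 4) : turn 4 d = d := by
  fin_cases d <;> rfl

private theorem turn_zero_Cert (d : Fin 4) : turn 0 d = d := rfl

private theorem turn_succ_Cert (k : ℕ) (d : Fin 4) : turn (k + 1) d = turn k d + 1 := by
  unfold turn
  rw [Function.iterate_succ_apply']

/-- number of the first `m` firings of `y` in direction `d` -/
private def nn (r : Site → Fin 4) (d : Fin 4) (y : Site) (m : ℕ) : ℕ :=
  ((Finset.range m).filter (fun k => turn k (r y) = d)).card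

private theorem recv_eq_Cert (r : Site → Fin 4) (c : Site → ℕ) (x : Site) :
    recv r c x = ∑ d : Fin 4, nn r (d + 2) (x + vec d) (c (x + vec d)) := rfl

private theorem nn_zero_Cert (r : Site → Fin 4) (d : Fin 4) (y : Site) : nn r d y 0 = 0 := by
  simp [nn]

private theorem nn_succ_Cert (r : Site → Fin 4) (d : Fin 4) (y : Site) (m : ℕ) :
    nn r d y (m + 1) = nn r d y m + if turn m (r y) = d then 1 else 0 := by
  unfold nn
  rw [Finset.range_add_one, Finset.filter_insert]
  split_ifs with hm
  · rw [Finset.card_insert_of_notMem]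
    simp
  · rfl

private theorem nn_mono_Cert (r : Site → Fin 4) (d : Fin 4) (y : Site) {m n : ℕ} (h : m ≤ n) :
    nn r d y m ≤ nn r d y n := by
  unfold nn
  exact Finset.card_le_card (Finset.filter_subset_filter _ (Finset.range_mono h))

private theorem one_of_four_Cert : ∀ a d : Fin 4,
    ((((if a = d then 1 else 0) + if a + 1 = d then 1 else 0) +
      if a + 1 + 1 = d then 1 else 0) + if a + 1 + 1 + 1 = d then 1 else 0) = 1 := by
  decide

private theorem nn_four_Cert (r : Site → Fin 4) (d : Fin 4) (y : Site) (m : ℕ) :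
    nn r d y (m + 4) = nn r d y m + 1 := by
  have h := one_of_four_Cert (turn m (r y)) d
  have h1 := nn_succ_Cert r d y m
  have h2 := nn_succ_Cert r d y (m + 1)
  have h3 := nn_succ_Cert r d y (m + 1 + 1)
  have h4 := nn_succ_Cert r d y (m + 1 + 1 + 1)
  rw [turn_succ_Cert] at h2
  rw [turn_succ_Cert, turn_succ_Cert] at h3
  rw [turn_succ_Cert, turn_succ_Cert, turn_succ_Cert] at h4
  have e : m + 4 = m + 1 + 1 + 1 + 1 := rfl
  rw [e, h4, h3, h2, h1]
  omega

private theorem nn_add_Cert (r : Site → Fin 4) (d : Fin 4) (y : Site) {m n : ℕ}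
    (h : m ≠ 0 → n = 4) : nn r d y (m + n) = nn r d y m + nn r d y n := by
  rcases Nat.eq_zero_or_pos m with h0 | h0
  · rw [h0, nn_zero_Cert, Nat.zero_add, Nat.zero_add]
  · rw [h h0.ne', nn_four_Cert]
    have h1 := nn_four_Cert r d y 0
    rw [nn_zero_Cert, Nat.zero_add] at h1
    rw [h1]

/-- good functions -/
private def Gd (r : Site → Fin 4) (U : Site → ℕ) : Prop := ∀ x, recv r U x ≤ U x

private theorem gd_add_Cert {r : Site → Fin 4} {U c : Site → ℕ} (hU : Gd r U) (hc : Cert r c)
    (h : ∀ x, U x ≠ 0 → c x = 4) : Gd r (fun x => U x + c x) := by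
  intro x
  have h1 : recv r (fun x => U x + c x) x = recv r U x + recv r c x := by
    rw [recv_eq_Cert, recv_eq_Cert, recv_eq_Cert, ← Finset.sum_add_distrib]
    apply Finset.sum_congr rfl
    intro d _
    exact nn_add_Cert r _ _ (h _)
  rw [h1]
  exact Nat.add_le_add (hU x) (hc.le x)

private theorem exists_gd_Cert (r : Site → Fin 4)
    (h : ∀ R : ℕ, ∃ c, Cert r c ∧ ∀ x : Site, |x.1| ≤ R → |x.2| ≤ R → c x = 4) (k : ℕ) :
    ∃ U : Site → ℕ, (Function.support U).Finite ∧ Gd r U ∧ U (0, 0) = 4 * k := by
  induction k with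
  | zero =>
    refine ⟨fun _ => 0, by simp, ?_, by simp⟩
    intro x
    rw [recv_eq_Cert]
    simp [nn_zero_Cert]
  | succ k ih =>
    obtain ⟨U, hf, hg, h0⟩ := ih
    obtain ⟨R, hR⟩ : ∃ R : ℕ, ∀ x, U x ≠ 0 → x.1.natAbs + x.2.natAbs ≤ R := by
      refine ⟨hf.toFinset.sup (fun x => x.1.natAbs + x.2.natAbs), fun x hx => ?_⟩
      have hx' : x ∈ hf.toFinset := by
        rw [Set.Finite.mem_toFinset]
        exact hx
      exact Finset.le_sup (f := fun x : Site => x.1.natAbs + x.2.natAbs) hx'
    obtain ⟨c, hc, hc4⟩ := h R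
    have h4 : ∀ x, U x ≠ 0 → c x = 4 := by
      intro x hx
      have h1 := hR x hx
      apply hc4 x
      · rw [Int.abs_eq_natAbs]
        omega
      · rw [Int.abs_eq_natAbs]
        omega
    refine ⟨fun x => U x + c x, ?_, gd_add_Cert hg hc h4, ?_⟩
    · apply (hf.union hc.fin).subset
      intro x hx
      rw [Function.mem_support] at hx
      rw [Set.mem_union, Function.mem_support, Function.mem_support]
      omega
    · have h1 : c (0, 0) = 4 := hc4 (0, 0) (by simp) (by simp)
      simp only [h0, h1]
      ring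

/-- the clockwise walk -/
private def wk (r : Site → Fin 4) (t : ℕ) : Site := walk (fun d => d + 1) r t

/-- number of visits before time `t` -/
private def uu (r : Site → Fin 4) (t : ℕ) (y : Site) : ℕ :=
  ((Finset.range t).filter (fun i => wk r i = y)).card

private theorem uu_zero_Cert (r : Site → Fin 4) (y : Site) : uu r 0 y = 0 := by
  simp [uu]

private theorem uu_succ_Cert (r : Site → Fin 4) (t : ℕ) (y : Site) :
    uu r (t + 1) y = uu r t y + if wk r t = y then 1 else 0 := by
  unfold uu
  rw [Finset.range_add_one, Finset.filter_insert]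
  split_ifs with hm
  · rw [Finset.card_insert_of_notMem]
    simp
  · rfl

private theorem uu_mono_Cert (r : Site → Fin 4) {s t : ℕ} (h : s ≤ t) (y : Site) :
    uu r s y ≤ uu r t y := by
  unfold uu
  exact Finset.card_le_card (Finset.filter_subset_filter _ (Finset.range_mono h))

private theorem state_Cert (r : Site → Fin 4) (t : ℕ) :
    (step (fun d => d + 1))^[t] ((0, 0), r) = (wk r t, fun y => turn (uu r t y) (r y)) := by
  induction t with
  | zero =>
    apply Prod.ext
    · rfl
    · funext y
      simp [uu_zero_Cert, turn_zero_Cert]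
  | succ t ih =>
    have h1 : wk r (t + 1) = ((step (fun d => d + 1))^[t + 1] ((0, 0), r)).1 := rfl
    apply Prod.ext
    · rfl
    · rw [Function.iterate_succ_apply', ih]
      funext y
      simp only [step]
      by_cases hy : y = wk r t
      · rw [hy, Function.update_self, uu_succ_Cert, if_pos rfl, turn_succ_Cert]
      · rw [Function.update_of_ne hy, uu_succ_Cert, if_neg (fun h => hy h.symm), Nat.add_zero]

private theorem wk_zero_Cert (r : Site → Fin 4) : wk r 0 = (0, 0) := rfl

private theorem wk_succ_Cert (r : Site → Fin 4) (t : ℕ) :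
    wk r (t + 1) = wk r t + vec (turn (uu r t (wk r t)) (r (wk r t))) := by
  have h1 : wk r (t + 1) = ((step (fun d => d + 1))^[t + 1] ((0, 0), r)).1 := rfl
  rw [h1, Function.iterate_succ_apply', state_Cert]
  rfl

private theorem eq_iff_Cert (x y : Site) (e : Fin 4) : y = x + vec (e + 2) ↔ y + vec e = x := by
  have h : vec (e + 2) = - vec e := by
    fin_cases e <;> simp [vec]
  rw [h]
  constructor
  · intro h
    rw [h]
    simp
  · intro h
    rw [← h]
    simp

private theorem two_Cert : ∀ e d : Fin 4, e = d + 2 ↔ d = e + 2 := by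
  decide

private theorem cons_Cert (r : Site → Fin 4) (t : ℕ) (x : Site) :
    uu r t x + (if wk r t = x then 1 else 0) =
      recv r (uu r t) x + (if x = (0, 0) then 1 else 0) := by
  induction t with
  | zero =>
    rw [recv_eq_Cert, uu_zero_Cert, wk_zero_Cert]
    have h1 : ∑ d : Fin 4, nn r (d + 2) (x + vec d) (uu r 0 (x + vec d)) = 0 := by
      apply Finset.sum_eq_zero
      intro d _
      rw [uu_zero_Cert, nn_zero_Cert]
    rw [h1]
    simp only [eq_comm]
  | succ t ih =>
    obtain ⟨e, he⟩ : ∃ e, e = turn (uu r t (wk r t)) (r (wk r t)) := ⟨_, rfl⟩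
    have h1 : recv r (uu r (t + 1)) x =
        recv r (uu r t) x + if wk r t + vec e = x then 1 else 0 := by
      rw [recv_eq_Cert, recv_eq_Cert]
      have h2 : (if wk r t + vec e = x then 1 else 0) =
          ∑ d : Fin 4, if d = e + 2 then (if wk r t = x + vec d then 1 else 0) else 0 := by
        rw [Finset.sum_ite_eq' Finset.univ (e + 2)]
        simp only [Finset.mem_univ, if_true, eq_iff_Cert]
      rw [h2, ← Finset.sum_add_distrib]
      apply Finset.sum_congr rfl
      intro d _
      rw [uu_succ_Cert]
      by_cases hw : wk r t = x + vec d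
      · rw [if_pos hw, nn_succ_Cert, ← hw, ← he]
        simp only [two_Cert e d]
      · rw [if_neg hw, Nat.add_zero, ite_self, Nat.add_zero]
    rw [h1, wk_succ_Cert, ← he, uu_succ_Cert]
    omega

private theorem recv_mono_Cert (r : Site → Fin 4) {c c' : Site → ℕ} (h : ∀ x, c x ≤ c' x)
    (x : Site) : recv r c x ≤ recv r c' x := by
  rw [recv_eq_Cert, recv_eq_Cert]
  exact Finset.sum_le_sum (fun d _ => nn_mono_Cert r _ _ (h _))

private theorem least_Cert {r : Site → Fin 4} {U : Site → ℕ} (hU : Gd r U) (t : ℕ)
    (h0 : uu r t (0, 0) ≤ U (0, 0)) (x : Site) : uu r t x ≤ U x := by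
  induction t generalizing x with
  | zero =>
    rw [uu_zero_Cert]
    exact Nat.zero_le _
  | succ t ih =>
    have h1 := ih ((uu_mono_Cert r (Nat.le_succ t) _).trans h0)
    by_cases hx : wk r t = x
    · by_contra hlt
      have h2 := h1 x
      have h3 := uu_succ_Cert r t x
      rw [if_pos hx] at h3
      have h4 := cons_Cert r t x
      rw [if_pos hx] at h4
      have h5 := recv_mono_Cert r h1 x
      have h6 := hU x
      split_ifs at h4 with hx0
      · rw [hx0] at hlt
        exact hlt h0
      · omega
    · rw [uu_succ_Cert, if_neg hx, Nat.add_zero]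
      exact h1 x

private theorem unbdd_Cert (r : Site → Fin 4)
    (h : ∀ R : ℕ, ∃ c, Cert r c ∧ ∀ x : Site, |x.1| ≤ R → |x.2| ≤ R → c x = 4) (k : ℕ) :
    ∃ t, 4 * k < uu r t (0, 0) := by
  by_contra hcon
  push Not at hcon
  obtain ⟨U, hf, hg, h0⟩ := exists_gd_Cert r h k
  have hle : ∀ t x, uu r t x ≤ U x := fun t => least_Cert hg t (by rw [h0]; exact hcon t)
  have hmem : ∀ i, wk r i ∈ hf.toFinset := by
    intro i
    rw [Set.Finite.mem_toFinset, Function.mem_support]
    have h1 := hle (i + 1) (wk r i)
    rw [uu_succ_Cert, if_pos rfl] at h1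
    omega
  have hsum : ∀ t, t = ∑ x ∈ hf.toFinset, uu r t x := by
    intro t
    have h1 := Finset.card_eq_sum_card_fiberwise (f := wk r) (s := Finset.range t)
      (t := hf.toFinset) (fun i _ => hmem i)
    rw [Finset.card_range] at h1
    exact h1
  have h2 := hsum (∑ x ∈ hf.toFinset, U x + 1)
  have h3 : ∑ x ∈ hf.toFinset, uu r (∑ x ∈ hf.toFinset, U x + 1) x ≤
      ∑ x ∈ hf.toFinset, U x := Finset.sum_le_sum (fun x _ => hle _ x)
  omega

private theorem grow_Cert {r : Site → Fin 4} {y : Site} (h : ∀ T, ∃ t ≥ T, wk r t = y) (M : ℕ) :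
    ∃ t, M ≤ uu r t y := by
  induction M with
  | zero => exact ⟨0, Nat.zero_le _⟩
  | succ M ih =>
    obtain ⟨t, ht⟩ := ih
    obtain ⟨t', ht', hw⟩ := h t
    refine ⟨t' + 1, ?_⟩
    rw [uu_succ_Cert, if_pos hw]
    have := uu_mono_Cert r ht' y
    omega

private theorem hit_Cert {r : Site → Fin 4} {y : Site} (h : ∀ T, ∃ t ≥ T, wk r t = y) (T n : ℕ)
    (hn : uu r T y ≤ n) : ∃ t ≥ T, wk r t = y ∧ uu r t y = n := by
  classical
  obtain ⟨m, hm⟩ := grow_Cert h (n + 1)
  have hex : ∃ m, n + 1 ≤ uu r m y := ⟨m, hm⟩
  have h1 := Nat.find_spec hex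
  have h2 := fun j hj => Nat.find_min hex (m := j) hj
  obtain ⟨t', ht'⟩ : ∃ t', t' = Nat.find hex := ⟨_, rfl⟩
  rw [← ht'] at h1 h2
  cases t' with
  | zero =>
    rw [uu_zero_Cert] at h1
    omega
  | succ t =>
    have h3 := h2 t (Nat.lt_succ_self t)
    rw [uu_succ_Cert] at h1
    split_ifs at h1 with hw
    · refine ⟨t, ?_, hw, by omega⟩
      by_contra hlt
      have h4 := uu_mono_Cert r (show t + 1 ≤ T by omega) y
      rw [uu_succ_Cert, if_pos hw] at h4
      omega
    · omega

private theorem pick_Cert : ∀ a d : Fin 4, a = d ∨ a + 1 = d ∨ a + 1 + 1 = d ∨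
    a + 1 + 1 + 1 = d := by
  decide

private theorem next_Cert {r : Site → Fin 4} {y : Site} (h : ∀ T, ∃ t ≥ T, wk r t = y)
    (d : Fin 4) (T : ℕ) : ∃ t ≥ T, wk r t = y + vec d := by
  obtain ⟨n, hn, hnd⟩ : ∃ n, uu r T y ≤ n ∧ turn n (r y) = d := by
    rcases pick_Cert (turn (uu r T y) (r y)) d with h1 | h1 | h1 | h1
    · exact ⟨_, le_rfl, h1⟩
    · exact ⟨uu r T y + 1, by omega, by rw [turn_succ_Cert]; exact h1⟩
    · exact ⟨uu r T y + 1 + 1, by omega, by rw [turn_succ_Cert, turn_succ_Cert]; exact h1⟩
    · exact ⟨uu r T y + 1 + 1 + 1, by omega,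
        by rw [turn_succ_Cert, turn_succ_Cert, turn_succ_Cert]; exact h1⟩
  obtain ⟨t, ht, hw, hu⟩ := hit_Cert h T n hn
  refine ⟨t + 1, by omega, ?_⟩
  rw [wk_succ_Cert, hw, hu, hnd]

theorem visits_of_cert (r : Site → Fin 4)
    (h : ∀ R : ℕ, ∃ c, Cert r c ∧ ∀ x : Site, |x.1| ≤ R → |x.2| ≤ R → c x = 4)
    (y : Site) (T : ℕ) : ∃ t ≥ T, walk (fun d => d + 1) r t = y := by
  have h00 : ∀ T, ∃ t ≥ T, wk r t = (0, 0) := by
    intro T
    by_contra hcon
    push Not at hcon
    obtain ⟨t, ht⟩ := unbdd_Cert r h T
    have h1 : uu r t (0, 0) ≤ T := by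
      unfold uu
      calc _ ≤ (Finset.range T).card := by
            apply Finset.card_le_card
            intro i hi
            rw [Finset.mem_filter] at hi
            rw [Finset.mem_range]
            by_contra hlt
            exact hcon i (not_lt.1 hlt) hi.2
        _ = T := Finset.card_range T
    omega
  have h1 : ∀ a : ℤ, ∀ T, ∃ t ≥ T, wk r t = (a, 0) := by
    intro a
    induction a using Int.induction_on with
    | zero => exact h00
    | succ i ih =>
      have := next_Cert ih 1
      simpa [vec] using this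
    | pred i ih =>
      have := next_Cert ih 3
      simpa [vec, sub_eq_add_neg] using this
  have h2 : ∀ a b : ℤ, ∀ T, ∃ t ≥ T, wk r t = (a, b) := by
    intro a b
    induction b using Int.induction_on with
    | zero => exact h1 a
    | succ i ih =>
      have := next_Cert ih 0
      simpa [vec] using this
    | pred i ih =>
      have := next_Cert ih 2
      simpa [vec, sub_eq_add_neg] using this
  exact h2 y.1 y.2 T

end Pool.Agent.Rotor2
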