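import Mathlib.Tactic
import Mathlib.Data.Fintype.BigOperators

/-!
# Counting configurations which depend on few coordinates

`marg`: let `φ : E → F` be injective (finite types) and `Q` a predicate on `E → Bool`.  Then
`#{w : F → Bool | Q (w ∘ φ)} * 2 ^ |E| = #{v : E → Bool | Q v} * 2 ^ |F|`.
PROOF.  `F ≃ E ⊕ {y // y ∉ range φ}`, so `(F → Bool) ≃ (E → Bool) × (Rest → Bool)` by
`w ↦ (w ∘ φ, w restricted)`; hence the first count is `#Q * 2 ^ |Rest|` and `|Rest| + |E| = |F|`.
(For example `Equiv.ofInjective`, `Equiv.Set.sumCompl`, `Equiv.sumArrowEquivProdArrow`.)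

`marg_sum` is the same statement for sums of natural numbers (the first one is the special case of an
indicator function; prove `marg_sum` and use it, or only one of them in the way you like).
-/

namespace Pool.Agent.Rotor2

theorem marg_sum {E F : Type} [Fintype E] [Fintype F] [DecidableEq E] [DecidableEq F]
    (φ : E → F) (hφ : Function.Injective φ) (q : (E → Bool) → ℕ) :
    (∑ w : F → Bool, q (fun e => w (φ e))) * 2 ^ Fintype.card E =
      (∑ v : E → Bool, q v) * 2 ^ Fintype.card F := by
  classical
  let R : Type := {y // y ∉ Set.range φ}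
  let e : E ⊕ R ≃ F :=
    (Equiv.sumCongr (Equiv.ofInjective φ hφ) (Equiv.refl R)).trans
      (Equiv.Set.sumCompl (Set.range φ))
  have he : ∀ x : E, e (Sum.inl x) = φ x := by
    intro x
    change (Equiv.Set.sumCompl (Set.range φ)) (Sum.inl ⟨φ x, Set.mem_range_self x⟩) = φ x
    exact Equiv.Set.sumCompl_apply_inl _ _
  have hcard : Fintype.card F = Fintype.card E + Fintype.card R := by
    rw [← Fintype.card_congr e, Fintype.card_sum]
  let g : (F → Bool) ≃ (E → Bool) × (R → Bool) :=
    (Equiv.arrowCongr e.symm (Equiv.refl Bool)).trans (Equiv.sumArrowEquivProdArrow E R Bool)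
  have hg : ∀ w : F → Bool, (g w).1 = fun x => w (φ x) := by
    intro w
    funext x
    simp [g, Equiv.sumArrowEquivProdArrow, Equiv.arrowCongr, he]
  have h1 : (∑ w : F → Bool, q (fun x => w (φ x))) =
      ∑ p : (E → Bool) × (R → Bool), q p.1 := by
    refine Fintype.sum_equiv g _ _ ?_
    intro w
    rw [hg]
  have h2 : (∑ p : (E → Bool) × (R → Bool), q p.1) =
      (∑ v : E → Bool, q v) * 2 ^ Fintype.card R := by
    rw [Fintype.sum_prod_type]
    simp only [Finset.sum_const, Finset.card_univ, Fintype.card_fun, Fintype.card_bool, smul_eq_mul]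
    rw [Finset.sum_mul]
    refine Finset.sum_congr rfl fun v _ => ?_
    ring
  rw [h1, h2, hcard, pow_add]
  ring

end Pool.Agent.Rotor2
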