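import Mathlib.Tactic
import Mathlib.Data.Fintype.BigOperators
import Mathlib.Algebra.BigOperators.Group.Finset.Basic

/-!
# McDiarmid's pair inequality (counting form)

`I` finite, `Om = I → Bool × Bool`.  `f : Om → ℕ` satisfies for every `i` and `w`
`f (w with (false,false) at i) + f (w with (true,true) at i)
   ≤ f (w with (true,false) at i) + f (w with (false,true) at i)`.

* `pair_eq`: `2 ^ |I| * ∑_s f (i ↦ (s i, s i)) ≤ ∑_w f w`.
* `pair_anti`: `∑_w f w ≤ 2 ^ |I| * ∑_s f (i ↦ (s i, !s i))`.

PROOF.  For `J : Finset I` let
`F J = ∑_w f (fun i => if i ∈ J then ((w i).1, (w i).1) else w i)` and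
`H J = ∑_w f (fun i => if i ∈ J then ((w i).1, !(w i).1) else w i)`.
`F ∅ = H ∅ = ∑_w f w`.  Claim: `F (insert i J) ≤ F J ≤ ..` and `H J ≤ H (insert i J)` for `i ∉ J`.
Group the sum over `w` in four terms by the value of `w i`: for every `g : Om → ℕ`
`4 * ∑_w g w = ∑_w ∑_{b : Bool × Bool} g (update w i b)` (exchange the sums; for fixed `b`
the map ... or: the map `(w, b) ↦ (update w i b, w i)` is an involution of `Om × (Bool × Bool)`, so
`∑_w ∑_b g (update w i b) = ∑_w ∑_b g w = 4 ∑_w g w`).
Apply it to both sides: for fixed `w` let `v` be the modification of `w` on `J`; the four values of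
`f (update v i b)` are `g00, g01, g10, g11`; the four terms of `F (insert i J)` are
`g00, g00, g11, g11`, those of `H (insert i J)` are `g01, g01, g10, g10` and those of `F J` or `H J`
are `g00, g01, g10, g11`.  Now `2 g00 + 2 g11 ≤ g00 + g01 + g10 + g11 ≤ 2 g01 + 2 g10` by the
hypothesis.
At the end `F univ = ∑_w f (i ↦ ((w i).1, (w i).1)) = 2 ^ |I| ∑_s f (i ↦ (s i, s i))`: the map
`w ↦ (fun i => (w i).1, fun i => (w i).2)` is a bijection of `Om` with `(I → Bool) × (I → Bool)`
(`Equiv.arrowProdEquivProdArrow`).
-/

namespace Pool.Agent.Rotor2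

variable {I : Type} [Fintype I] [DecidableEq I]

private theorem pair_avg (g : (I → Bool × Bool) → ℕ) (i : I) :
    ∑ w, ∑ b : Bool × Bool, g (Function.update w i b) = 4 * ∑ w, g w := by
  let e : ((I → Bool × Bool) × (Bool × Bool)) ≃ ((I → Bool × Bool) × (Bool × Bool)) :=
    { toFun := fun p => (Function.update p.1 i p.2, p.1 i)
      invFun := fun p => (Function.update p.1 i p.2, p.1 i)
      left_inv := by
        rintro ⟨w, b⟩
        simp
      right_inv := by
        rintro ⟨w, b⟩
        simp }
  have h1 : ∑ w, ∑ b : Bool × Bool, g (Function.update w i b)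
      = ∑ p : (I → Bool × Bool) × (Bool × Bool), g (e p).1 := by
    rw [Fintype.sum_prod_type]
    rfl
  rw [h1, Equiv.sum_comp e (fun p => g p.1), Fintype.sum_prod_type, Finset.mul_sum]
  refine Finset.sum_congr rfl fun w _ => ?_
  simp

private theorem pair_card (φ : (I → Bool) → ℕ) :
    ∑ w : I → Bool × Bool, φ (fun i => (w i).1) = 2 ^ Fintype.card I * ∑ s, φ s := by
  have h1 : ∑ w : I → Bool × Bool, φ (fun i => (w i).1)
      = ∑ p : (I → Bool) × (I → Bool), φ p.1 :=
    Equiv.sum_comp (Equiv.arrowProdEquivProdArrow I (fun _ => Bool) (fun _ => Bool))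
      (fun p => φ p.1)
  rw [h1, Fintype.sum_prod_type, Finset.mul_sum]
  refine Finset.sum_congr rfl fun s _ => ?_
  simp

omit [Fintype I] in
private theorem pair_upd_out (M : Bool × Bool → Bool × Bool) (J : Finset I) (i : I) (hi : i ∉ J)
    (w : I → Bool × Bool) (b : Bool × Bool) :
    (fun j => if j ∈ J then M (Function.update w i b j) else Function.update w i b j)
      = Function.update (fun j => if j ∈ J then M (w j) else w j) i b := by
  funext j
  by_cases h : j = i
  · subst h
    simp [hi]
  · simp [Function.update_of_ne h]

omit [Fintype I] in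
private theorem pair_upd_in (M : Bool × Bool → Bool × Bool) (J : Finset I) (i : I) (hi : i ∉ J)
    (w : I → Bool × Bool) (b : Bool × Bool) :
    (fun j => if j ∈ insert i J then M (Function.update w i b j) else Function.update w i b j)
      = Function.update (fun j => if j ∈ J then M (w j) else w j) i (M b) := by
  funext j
  by_cases h : j = i
  · subst h
    simp
  · simp [Finset.mem_insert, h]

theorem pair_eq (f : (I → Bool × Bool) → ℕ)
    (hf : ∀ w i, f (Function.update w i (false, false)) + f (Function.update w i (true, true)) ≤
      f (Function.update w i (true, false)) + f (Function.update w i (false, true))) :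
    2 ^ Fintype.card I * ∑ s : I → Bool, f (fun i => (s i, s i)) ≤ ∑ w, f w := by
  have key : ∀ J : Finset I,
      ∑ w : I → Bool × Bool, f (fun i => if i ∈ J then ((w i).1, (w i).1) else w i) ≤
        ∑ w, f w := by
    intro J
    induction J using Finset.induction_on with
    | empty => simp
    | insert i J hi ih =>
      refine le_trans ?_ ih
      have h1 := pair_avg (fun w => f (fun j => if j ∈ insert i J then
        (fun p : Bool × Bool => (p.1, p.1)) (w j) else w j)) i
      have h2 := pair_avg (fun w => f (fun j => if j ∈ J then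
        (fun p : Bool × Bool => (p.1, p.1)) (w j) else w j)) i
      simp only [pair_upd_in (fun p : Bool × Bool => (p.1, p.1)) J i hi] at h1
      simp only [pair_upd_out (fun p : Bool × Bool => (p.1, p.1)) J i hi] at h2
      have h3 : ∑ w : I → Bool × Bool, ∑ b : Bool × Bool,
          f (Function.update (fun j => if j ∈ J then ((w j).1, (w j).1) else w j) i (b.1, b.1))
          ≤ ∑ w : I → Bool × Bool, ∑ b : Bool × Bool,
          f (Function.update (fun j => if j ∈ J then ((w j).1, (w j).1) else w j) i b) := by
        refine Finset.sum_le_sum fun w _ => ?_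
        have h4 := hf (fun j => if j ∈ J then ((w j).1, (w j).1) else w j) i
        simp only [Fintype.sum_prod_type, Fintype.sum_bool]
        omega
      have h5 := h1.symm.trans_le (h3.trans h2.le)
      exact Nat.le_of_mul_le_mul_left h5 (by norm_num)
  have h := key Finset.univ
  simp only [Finset.mem_univ, if_true] at h
  rw [← pair_card (fun s => f (fun i => (s i, s i)))]
  exact h

theorem pair_anti (f : (I → Bool × Bool) → ℕ)
    (hf : ∀ w i, f (Function.update w i (false, false)) + f (Function.update w i (true, true)) ≤
      f (Function.update w i (true, false)) + f (Function.update w i (false, true))) :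
    ∑ w, f w ≤ 2 ^ Fintype.card I * ∑ s : I → Bool, f (fun i => (s i, !s i)) := by
  have key : ∀ J : Finset I, ∑ w, f w ≤
      ∑ w : I → Bool × Bool, f (fun i => if i ∈ J then ((w i).1, !(w i).1) else w i) := by
    intro J
    induction J using Finset.induction_on with
    | empty => simp
    | insert i J hi ih =>
      refine le_trans ih ?_
      have h1 := pair_avg (fun w => f (fun j => if j ∈ insert i J then
        (fun p : Bool × Bool => (p.1, !p.1)) (w j) else w j)) i
      have h2 := pair_avg (fun w => f (fun j => if j ∈ J then
        (fun p : Bool × Bool => (p.1, !p.1)) (w j) else w j)) i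
      simp only [pair_upd_in (fun p : Bool × Bool => (p.1, !p.1)) J i hi] at h1
      simp only [pair_upd_out (fun p : Bool × Bool => (p.1, !p.1)) J i hi] at h2
      have h3 : ∑ w : I → Bool × Bool, ∑ b : Bool × Bool,
          f (Function.update (fun j => if j ∈ J then ((w j).1, !(w j).1) else w j) i b)
          ≤ ∑ w : I → Bool × Bool, ∑ b : Bool × Bool,
          f (Function.update (fun j => if j ∈ J then ((w j).1, !(w j).1) else w j) i
            (b.1, !b.1)) := by
        refine Finset.sum_le_sum fun w _ => ?_
        have h4 := hf (fun j => if j ∈ J then ((w j).1, !(w j).1) else w j) i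
        simp only [Fintype.sum_prod_type, Fintype.sum_bool, Bool.not_true, Bool.not_false]
        omega
      have h5 := h2.symm.trans_le (h3.trans h1.le)
      exact Nat.le_of_mul_le_mul_left h5 (by norm_num)
  have h := key Finset.univ
  simp only [Finset.mem_univ, if_true] at h
  rw [← pair_card (fun s => f (fun i => (s i, !s i)))]
  exact h

end Pool.Agent.Rotor2
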