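import Pool.Agent.Rotor2.Loop
import Pool.Agent.Rotor2.Pair
import Pool.Agent.Rotor2.Marg

/-!
# Comparison of the rotor model with bond percolation (counting form)

`A : Finset Site`.
* `mids A`: the midpoints `midT x d`, `x ∈ A`, `d : Fin 4` (all edges with at least one end in `A`).
* `cW A`: number of rotor configurations `r : A → Fin 4` with `Circ A (OWA A r)`.
* `cB A`: number of bond configurations `s : mids A → Bool` with `Circ A (OBA A s)`.
* `cmp_count`: `cB A * 4 ^ |A| ≤ cW A * 2 ^ |mids A|`.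

PROOF (read `Pair.lean`, `Marg.lean`, `Loop.lean` for the statements used).
For `v : A × Fin 4 → Bool` let `OD v = {p | ∃ h : p.1 ∈ A, v (⟨p.1, h⟩, p.2) = true}` and
`qD v = 1` if `Circ A (OD v)`, else `0`; `ND = ∑ v, qD v`.

STEP 1 (`W ≥ D`), `ND ≤ 2 ^ (2 |A|) * cW A`.  Let `I = A × Bool` and identify `I → Bool × Bool` with
`A × Fin 4 → Bool`: `(x, false)` carries the edges east `1` (first component) and west `3` (second),
`(x, true)` carries north `0` (first) and south `2` (second); that is, for `u : I → Bool × Bool` let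
`toD u (x, d) = if d = 1 then (u (x,false)).1 else if d = 3 then (u (x,false)).2 else
if d = 0 then (u (x,true)).1 else (u (x,true)).2`; `toD` is a bijection.  `f u = qD (toD u)`
satisfies the hypothesis of `pair_anti`: changing `u` at `i = (x, b)` changes the two edges `a, a'`
out of
`x`; let `O` be the set of the open edges different from these two.  If `Circ A O`, all four values
are
`1` (`circ_mono`).  Otherwise `f (.. (false,false)) = 0`, and if `f (.. (true,true)) = 1` then by
`circ_out` one of the other two is `1`.  So `f 00 + f 11 ≤ f 10 + f 01`.  (`2 ≤ 2`, `0 + 1 ≤ ..`,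
trivial.)
In `pair_anti` the right-hand side is `2 ^ (2 |A|) * ∑_s f (i ↦ (s i, !s i))`, and
`s ↦ r` with `r x = 1` if `s (x,false) ∧ s (x,true)`, `r x = 2` if `s (x,false) ∧ ¬ s (x,true)`,
`r x = 0` if `¬ s (x,false) ∧ s (x,true)`, `r x = 3` otherwise, is a bijection
`(A × Bool → Bool) ≃ (A → Fin 4)` with `OD (toD (s, !s)) = OWA A r` (east open iff `r ∈ {1,2}`, west
iff `r ∈ {0,3}`, north iff `r ∈ {0,1}`, south iff `r ∈ {2,3}`: `decide`).
STEP 2 (`D ≥ B`).  `K = mids A`.  For `u : K → Bool × Bool` let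
`OK u = {p | ∃ h : p.1 ∈ A, bit}` where bit says `(u m).1 = true` if `p.2 < 2` (north, east) and
`(u m).2 = true` otherwise, `m = midT p.1 p.2`.  `f u = 1` if `Circ A (OK u)`.  It satisfies the
hypothesis of `pair_eq` by `circ_rev` and `circ_mono`: at `m` there are exactly two directed edges
with midpoint `m`, `(x, d)` and `(x + vec d, d + 2)` (`midT_rev`; `midT x d = midT y k` and
`d, k < 2` (or both `≥ 2`) imply `x = y`, `d = k`: parity of the doubled coordinates); an edge whose
tail is not in `A` is not in `OK u`, adding it is harmless because of `circ_local`/`mem` (a loop in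
`A` never uses it), so add both edges to the set before using `circ_rev`.
Hence `2 ^ |K| * ∑_s f (m ↦ (s m, s m)) ≤ ∑_u f u`, and `∑_s f (m ↦ (s m, s m)) = cB A` (a loop in
`A` only uses edges with tail in `A`).
STEP 3.  `marg_sum` with `E = A × Fin 4`, `F = K × Bool`, `φ (x, d) = (midT x d, decide (d < 2))`
(injective): `(∑_u f u) * 2 ^ (4 |A|) = ND * 2 ^ (2 |K|)` (identify `K → Bool × Bool` with
`K × Bool → Bool`, first component = `true`).
Together: `2 ^ |K| * cB * 2 ^ (4 |A|) ≤ ND * 2 ^ (2 |K|) ≤ 2 ^ (2 |A|) * cW * 2 ^ (2 |K|)`; cancel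
`2 ^ |K|` and `2 ^ (2 |A|)`.
-/

namespace Pool.Agent.Rotor2

open Classical in
/-- Midpoints of the edges at `A`. -/
noncomputable def mids (A : Finset Site) : Finset (ℤ × ℤ) :=
  (A ×ˢ (Finset.univ : Finset (Fin 4))).image (fun p => midT p.1 p.2)

/-- Open edges of a rotor configuration on `A`. -/
def OWA (A : Finset Site) (r : ↥A → Fin 4) : Set (Site × Fin 4) :=
  {p | ∃ h : p.1 ∈ A, r ⟨p.1, h⟩ = p.2 ∨ r ⟨p.1, h⟩ = p.2 + 1}

/-- Open edges of a bond configuration at `A`. -/
def OBA (A : Finset Site) (s : ↥(mids A) → Bool) : Set (Site × Fin 4) :=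
  {p | ∃ h : midT p.1 p.2 ∈ mids A, s ⟨midT p.1 p.2, h⟩ = true}

open Classical in
/-- Number of good rotor configurations. -/
noncomputable def cW (A : Finset Site) : ℕ :=
  ∑ r : ↥A → Fin 4, if Circ (A : Set Site) (OWA A r) then 1 else 0

open Classical in
/-- Number of good bond configurations. -/
noncomputable def cB (A : Finset Site) : ℕ :=
  ∑ s : ↥(mids A) → Bool, if Circ (A : Set Site) (OBA A s) then 1 else 0

open Classical in
/-- indicator of a circuit -/
private noncomputable def ind_Cmp (A : Finset Site) (O : Set (Site × Fin 4)) : ℕ :=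
  if Circ (A : Set Site) O then 1 else 0

private theorem ind_le_Cmp {A : Finset Site} {S0 S1 S2 S3 : Set (Site × Fin 4)} (h1 : S0 ⊆ S1)
    (h2 : S0 ⊆ S2)
    (h3 : Circ (A : Set Site) S3 → Circ (A : Set Site) S1 ∨ Circ (A : Set Site) S2) :
    ind_Cmp A S0 + ind_Cmp A S3 ≤ ind_Cmp A S1 + ind_Cmp A S2 := by
  unfold ind_Cmp
  by_cases c0 : Circ (A : Set Site) S0
  · have c1 := circ_mono h1 c0
    have c2 := circ_mono h2 c0
    simp only [c0, c1, c2, if_true]
    split_ifs <;> omega
  · by_cases c3 : Circ (A : Set Site) S3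
    · rcases h3 c3 with c1 | c1
      · simp only [c0, c3, c1, if_true, if_false]
        omega
      · simp only [c0, c3, c1, if_true, if_false]
        omega
    · simp only [c0, c3, if_false]
      omega

private theorem ind_congr_Cmp {A : Finset Site} {S S' : Set (Site × Fin 4)}
    (h : Circ (A : Set Site) S ↔ Circ (A : Set Site) S') : ind_Cmp A S = ind_Cmp A S' := by
  unfold ind_Cmp
  by_cases c : Circ (A : Set Site) S
  · rw [if_pos c, if_pos (h.1 c)]
  · rw [if_neg c, if_neg (fun hc => c (h.2 hc))]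

/-- functions to pairs of Booleans -/
private def prd_Cmp (I : Type) : (I → Bool × Bool) ≃ (I × Bool → Bool) where
  toFun u := fun p => if p.2 = true then (u p.1).1 else (u p.1).2
  invFun v := fun i => (v (i, true), v (i, false))
  left_inv u := by
    funext i
    simp
  right_inv v := by
    funext p
    obtain ⟨i, b⟩ := p
    cases b <;> simp

private theorem sum_prd_Cmp {I : Type} [Fintype I] [DecidableEq I]
    (g : (I → Bool × Bool) → ℕ) :
    ∑ u, g u = ∑ v : I × Bool → Bool, g (fun i => (v (i, true), v (i, false))) :=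
  (Equiv.sum_comp (prd_Cmp I).symm g).symm

/-- the four edges out of a site from the two pairs -/
private def gat_Cmp (a b : Bool × Bool) (d : Fin 4) : Bool :=
  if d = 0 then b.1 else if d = 1 then a.1 else if d = 2 then b.2 else a.2

/-- open edges of a pair configuration at the sites -/
private def OU_Cmp (A : Finset Site) (u : ↥A × Bool → Bool × Bool) : Set (Site × Fin 4) :=
  {p | ∃ h : p.1 ∈ A, gat_Cmp (u (⟨p.1, h⟩, false)) (u (⟨p.1, h⟩, true)) p.2 = true}

/-- open edges of a pair configuration at the midpoints -/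
private def OM_Cmp (A : Finset Site) (u : ↥(mids A) → Bool × Bool) : Set (Site × Fin 4) :=
  {p | p.1 ∈ A ∧ ∃ h : midT p.1 p.2 ∈ mids A,
    (if p.2 < 2 then (u ⟨midT p.1 p.2, h⟩).1 else (u ⟨midT p.1 p.2, h⟩).2) = true}

private theorem mem_mids_Cmp {A : Finset Site} {x : Site} (hx : x ∈ A) (d : Fin 4) :
    midT x d ∈ mids A := by
  classical
  unfold mids
  exact Finset.mem_image.2 ⟨(x, d), Finset.mem_product.2 ⟨hx, Finset.mem_univ _⟩, rfl⟩

private theorem midT_inj_Cmp (x y : Site) (d k : Fin 4) (h : d < 2 ↔ k < 2)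
    (hm : midT x d = midT y k) : x = y ∧ d = k := by
  obtain ⟨a, b⟩ := x
  obtain ⟨u, v⟩ := y
  have h1 : (midT (a, b) d).1 = (midT (u, v) k).1 := congrArg Prod.fst hm
  have h2 : (midT (a, b) d).2 = (midT (u, v) k).2 := congrArg Prod.snd hm
  revert h h1 h2
  clear hm
  fin_cases d <;> fin_cases k <;> simp [midT, vec] <;> intros <;> omega

/-! ### Step 1 -/

private theorem step1_cond_Cmp (A : Finset Site) (w : ↥A × Bool → Bool × Bool)
    (i : ↥A × Bool) :
    ind_Cmp A (OU_Cmp A (Function.update w i (false, false))) +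
      ind_Cmp A (OU_Cmp A (Function.update w i (true, true))) ≤
    ind_Cmp A (OU_Cmp A (Function.update w i (true, false))) +
      ind_Cmp A (OU_Cmp A (Function.update w i (false, true))) := by
  obtain ⟨⟨x, hx⟩, b⟩ := i
  -- the value of the configuration at a site
  have hne : ∀ (y : Site) (hy : y ∈ A) (b' : Bool) (c : Bool × Bool),
      (y ≠ x ∨ b' ≠ b) → Function.update w (⟨x, hx⟩, b) c (⟨y, hy⟩, b') = w (⟨y, hy⟩, b') := by
    intro y hy b' c hyb
    refine Function.update_of_ne ?_ _ _
    intro he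
    have h1 : y = x := congrArg (fun q : ↥A × Bool => (q.1 : Site)) he
    have h2 : b' = b := congrArg Prod.snd he
    rcases hyb with h | h
    · exact h h1
    · exact h h2
  have heq : ∀ (h : x ∈ A) (c : Bool × Bool),
      Function.update w (⟨x, hx⟩, b) c (⟨x, h⟩, b) = c := fun h c => Function.update_self ..
  -- the two edges
  let d1 : Fin 4 := if b = true then 0 else 1
  let d2 : Fin 4 := if b = true then 2 else 3
  have hd : d1 ≠ d2 := by
    cases b <;> simp [d1, d2]
  have hsub : ∀ c c' : Bool × Bool, (c.1 = true → c'.1 = true) → (c.2 = true → c'.2 = true) →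
      OU_Cmp A (Function.update w (⟨x, hx⟩, b) c) ⊆
        OU_Cmp A (Function.update w (⟨x, hx⟩, b) c') := by
    rintro c c' h1 h2 ⟨y, d⟩ ⟨hy, hg⟩
    refine ⟨hy, ?_⟩
    by_cases hyx : y = x
    · subst hyx
      cases b
      · rw [heq hy c] at hg
        rw [heq hy c']
        rw [hne y hy true c (Or.inr (by decide))] at hg
        rw [hne y hy true c' (Or.inr (by decide))]
        revert hg
        fin_cases d <;> simp [gat_Cmp] <;> assumption
      · rw [heq hy c] at hg
        rw [heq hy c']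
        rw [hne y hy false c (Or.inr (by decide))] at hg
        rw [hne y hy false c' (Or.inr (by decide))]
        revert hg
        fin_cases d <;> simp [gat_Cmp] <;> assumption
    · rw [hne y hy false c (Or.inl hyx), hne y hy true c (Or.inl hyx)] at hg
      rw [hne y hy false c' (Or.inl hyx), hne y hy true c' (Or.inl hyx)]
      exact hg
  have hin1 : ∀ c : Bool × Bool, c.1 = true →
      (x, d1) ∈ OU_Cmp A (Function.update w (⟨x, hx⟩, b) c) := by
    intro c hc
    refine ⟨hx, ?_⟩
    cases b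
    · simp [gat_Cmp, d1, hc]
    · simp [gat_Cmp, d1, hc]
  have hin2 : ∀ c : Bool × Bool, c.2 = true →
      (x, d2) ∈ OU_Cmp A (Function.update w (⟨x, hx⟩, b) c) := by
    intro c hc
    refine ⟨hx, ?_⟩
    cases b
    · simp [gat_Cmp, d2, hc]
    · simp [gat_Cmp, d2, hc]
  have hout : OU_Cmp A (Function.update w (⟨x, hx⟩, b) (true, true)) ⊆
      OU_Cmp A (Function.update w (⟨x, hx⟩, b) (false, false)) ∪ {(x, d1), (x, d2)} := by
    rintro ⟨y, d⟩ ⟨hy, hg⟩
    by_cases hyx : y = x
    · subst hyx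
      by_cases h1 : d = d1
      · right; left; rw [h1]
      · by_cases h2 : d = d2
        · right; right; rw [h2]; rfl
        · left
          refine ⟨hy, ?_⟩
          cases b
          · rw [hne y hy true _ (Or.inr (by decide))] at hg
            rw [hne y hy true _ (Or.inr (by decide))]
            revert hg h1 h2
            fin_cases d <;> simp [gat_Cmp, d1, d2]
          · rw [hne y hy false _ (Or.inr (by decide))] at hg
            rw [hne y hy false _ (Or.inr (by decide))]
            revert hg h1 h2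
            fin_cases d <;> simp [gat_Cmp, d1, d2]
    · left
      refine ⟨hy, ?_⟩
      rw [hne y hy false _ (Or.inl hyx), hne y hy true _ (Or.inl hyx)] at hg
      rw [hne y hy false _ (Or.inl hyx), hne y hy true _ (Or.inl hyx)]
      exact hg
  refine ind_le_Cmp (hsub _ _ (by simp) (by simp)) (hsub _ _ (by simp) (by simp)) ?_
  intro hc
  rcases circ_out x d1 d2 hd (circ_mono hout hc) with h | h
  · left
    refine circ_mono ?_ h
    refine Set.union_subset (hsub _ _ (by simp) (by simp)) ?_
    rintro _ rfl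
    exact hin1 _ rfl
  · right
    refine circ_mono ?_ h
    refine Set.union_subset (hsub _ _ (by simp) (by simp)) ?_
    rintro _ rfl
    exact hin2 _ rfl

/-- two bits and a direction -/
private def code_Cmp (a b : Bool) : Fin 4 :=
  if a = true then (if b = true then 1 else 2) else (if b = true then 0 else 3)

/-- the rotor from the bits -/
private def eqv_Cmp (A : Finset Site) : (↥A × Bool → Bool) ≃ (↥A → Fin 4) where
  toFun s := fun x => code_Cmp (s (x, false)) (s (x, true))
  invFun r := fun p => if p.2 = true then decide (r p.1 = 0 ∨ r p.1 = 1)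
    else decide (r p.1 = 1 ∨ r p.1 = 2)
  left_inv s := by
    have k1 : ∀ a b : Bool, decide (code_Cmp a b = 1 ∨ code_Cmp a b = 2) = a := by
      intro a b
      cases a <;> cases b <;> decide
    have k2 : ∀ a b : Bool, decide (code_Cmp a b = 0 ∨ code_Cmp a b = 1) = b := by
      intro a b
      cases a <;> cases b <;> decide
    funext p
    obtain ⟨x, b⟩ := p
    cases b
    · exact k1 _ _
    · exact k2 _ _
  right_inv r := by
    funext x
    simp only [Bool.false_eq_true, if_true, if_false]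
    generalize r x = d
    fin_cases d <;> simp [code_Cmp]

private theorem step1_set_Cmp (A : Finset Site) (s : ↥A × Bool → Bool) :
    OU_Cmp A (fun i => (s i, !s i)) = OWA A (eqv_Cmp A s) := by
  have key : ∀ (a b : Bool) (d : Fin 4), (gat_Cmp (a, !a) (b, !b) d = true) ↔
      (code_Cmp a b = d ∨ code_Cmp a b = d + 1) := by
    intro a b d
    cases a <;> cases b <;> fin_cases d <;> decide
  ext ⟨x, d⟩
  constructor
  · rintro ⟨hx, hg⟩
    exact ⟨hx, (key (s (⟨x, hx⟩, false)) (s (⟨x, hx⟩, true)) d).1 hg⟩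
  · rintro ⟨hx, hg⟩
    exact ⟨hx, (key (s (⟨x, hx⟩, false)) (s (⟨x, hx⟩, true)) d).2 hg⟩

private theorem step1_Cmp (A : Finset Site) :
    ∑ u : ↥A × Bool → Bool × Bool, ind_Cmp A (OU_Cmp A u) ≤ 2 ^ (A.card * 2) * cW A := by
  have h1 := pair_anti (fun u : ↥A × Bool → Bool × Bool => ind_Cmp A (OU_Cmp A u))
    (step1_cond_Cmp A)
  have h2 : Fintype.card (↥A × Bool) = A.card * 2 := by simp
  have h3 : ∑ s : ↥A × Bool → Bool, ind_Cmp A (OU_Cmp A (fun i => (s i, !s i))) = cW A := by
    have h4 : ∑ s : ↥A × Bool → Bool, ind_Cmp A (OWA A (eqv_Cmp A s)) =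
        ∑ r : ↥A → Fin 4, ind_Cmp A (OWA A r) :=
      Equiv.sum_comp (eqv_Cmp A) (fun r => ind_Cmp A (OWA A r))
    rw [show (∑ s : ↥A × Bool → Bool, ind_Cmp A (OU_Cmp A (fun i => (s i, !s i)))) =
      ∑ s : ↥A × Bool → Bool, ind_Cmp A (OWA A (eqv_Cmp A s)) from
      Finset.sum_congr rfl fun s _ => by rw [step1_set_Cmp], h4]
    rfl
  rw [h2, h3] at h1
  exact h1

/-! ### Step 2 -/

private theorem step2_cond_Cmp (A : Finset Site) (w : ↥(mids A) → Bool × Bool)
    (i : ↥(mids A)) :
    ind_Cmp A (OM_Cmp A (Function.update w i (false, false))) +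
      ind_Cmp A (OM_Cmp A (Function.update w i (true, true))) ≤
    ind_Cmp A (OM_Cmp A (Function.update w i (true, false))) +
      ind_Cmp A (OM_Cmp A (Function.update w i (false, true))) := by
  classical
  obtain ⟨m, hm⟩ := i
  -- a representative with a direction `< 2`
  obtain ⟨x1, d1, hd1, hm1⟩ : ∃ (x1 : Site) (d1 : Fin 4), d1 < 2 ∧ midT x1 d1 = m := by
    have hm' := hm
    unfold mids at hm'
    obtain ⟨⟨x, d⟩, -, he⟩ := Finset.mem_image.1 hm'
    by_cases hd : d < 2
    · exact ⟨x, d, hd, he⟩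
    · refine ⟨x + vec d, d + 2, ?_, ?_⟩
      · revert hd
        clear he
        fin_cases d <;> decide
      · rw [midT_rev]
        exact he
  have hne : ∀ (m' : ℤ × ℤ) (h' : m' ∈ mids A) (c : Bool × Bool), m' ≠ m →
      Function.update w ⟨m, hm⟩ c ⟨m', h'⟩ = w ⟨m', h'⟩ := by
    intro m' h' c hmm
    refine Function.update_of_ne ?_ _ _
    intro he
    exact hmm (congrArg Subtype.val he)
  have heq : ∀ (m' : ℤ × ℤ) (h' : m' ∈ mids A) (c : Bool × Bool), m' = m →
      Function.update w ⟨m, hm⟩ c ⟨m', h'⟩ = c := by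
    intro m' h' c hmm
    subst hmm
    exact Function.update_self ..
  have hsub : ∀ c c' : Bool × Bool, (c.1 = true → c'.1 = true) → (c.2 = true → c'.2 = true) →
      OM_Cmp A (Function.update w ⟨m, hm⟩ c) ⊆ OM_Cmp A (Function.update w ⟨m, hm⟩ c') := by
    rintro c c' h1 h2 ⟨y, d⟩ ⟨hy, hmem, hg⟩
    refine ⟨hy, hmem, ?_⟩
    by_cases hmm : midT y d = m
    · rw [heq _ _ _ hmm] at hg ⊢
      by_cases hd : d < 2
      · simp only [hd, if_true] at hg ⊢
        exact h1 hg
      · simp only [hd, if_false] at hg ⊢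
        exact h2 hg
    · rw [hne _ _ _ hmm] at hg ⊢
      exact hg
  have hout : OM_Cmp A (Function.update w ⟨m, hm⟩ (true, true)) ⊆
      OM_Cmp A (Function.update w ⟨m, hm⟩ (false, false)) ∪
        {(x1, d1), (x1 + vec d1, d1 + 2)} := by
    rintro ⟨y, d⟩ ⟨hy, hmem, hg⟩
    by_cases hmm : midT y d = m
    · right
      by_cases hd : d < 2
      · obtain ⟨e1, e2⟩ := midT_inj_Cmp y x1 d d1 (by simp [hd, hd1]) (hmm.trans hm1.symm)
        left
        rw [e1, e2]
      · have hd' : d + 2 < 2 := by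
          revert hd
          clear hg hmem hmm
          fin_cases d <;> decide
        obtain ⟨e1, e2⟩ := midT_inj_Cmp (y + vec d) x1 (d + 2) d1 (by simp [hd', hd1])
          ((midT_rev y d).trans (hmm.trans hm1.symm))
        right
        rw [← e1, ← e2, vec_rev]
        have e3 : d + 2 + 2 = d := by
          clear e1 e2 hd hd' hg hmem hmm
          fin_cases d <;> decide
        rw [e3]
        rfl
    · left
      refine ⟨hy, hmem, ?_⟩
      rw [hne _ _ _ hmm] at hg ⊢
      exact hg
  refine ind_le_Cmp (hsub _ _ (by simp) (by simp)) (hsub _ _ (by simp) (by simp)) ?_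
  intro hc
  rcases circ_rev x1 d1 (circ_mono hout hc) with h | h
  · left
    refine circ_mono ?_ (circ_local h)
    rintro ⟨y, d⟩ ⟨h1 | h1, h2, -⟩
    · exact hsub _ _ (by simp) (by simp) h1
    · obtain ⟨e1, e2⟩ := Prod.mk.inj h1
      subst e1 e2
      refine ⟨h2, mem_mids_Cmp h2 _, ?_⟩
      rw [heq _ _ _ hm1]
      simp only [hd1, if_true]
  · right
    refine circ_mono ?_ (circ_local h)
    rintro ⟨y, d⟩ ⟨h1 | h1, h2, -⟩
    · exact hsub _ _ (by simp) (by simp) h1
    · obtain ⟨e1, e2⟩ := Prod.mk.inj h1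
      have hm2 : midT y d = m := by
        rw [e1, e2, midT_rev, hm1]
      have hd2 : ¬ d < 2 := by
        rw [e2]
        revert hd1
        clear hm1 h h1 e1 e2 hm2 hout
        fin_cases d1 <;> decide
      refine ⟨h2, mem_mids_Cmp h2 _, ?_⟩
      rw [heq _ _ _ hm2]
      simp only [hd2, if_false]

private theorem step2_Cmp (A : Finset Site) :
    2 ^ (mids A).card * cB A ≤
      ∑ u : ↥(mids A) → Bool × Bool, ind_Cmp A (OM_Cmp A u) := by
  have h1 := pair_eq (fun u : ↥(mids A) → Bool × Bool => ind_Cmp A (OM_Cmp A u))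
    (step2_cond_Cmp A)
  have h2 : Fintype.card ↥(mids A) = (mids A).card := Fintype.card_coe _
  have h3 : ∑ s : ↥(mids A) → Bool, ind_Cmp A (OM_Cmp A (fun i => (s i, s i))) = cB A := by
    have h4 : cB A = ∑ s : ↥(mids A) → Bool, ind_Cmp A (OBA A s) := rfl
    rw [h4]
    refine Finset.sum_congr rfl fun s _ => ind_congr_Cmp ⟨circ_mono ?_, fun h => ?_⟩
    · rintro ⟨y, d⟩ ⟨hy, hmem, hg⟩
      refine ⟨hmem, ?_⟩
      simp only [ite_self] at hg
      exact hg
    · refine circ_mono ?_ (circ_local h)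
      rintro ⟨y, d⟩ ⟨⟨hmem, hg⟩, hy, -⟩
      refine ⟨hy, hmem, ?_⟩
      simp only [ite_self]
      exact hg
  rw [h2, h3] at h1
  exact h1

/-! ### Step 3 -/

/-- the direction with given bits -/
private def dir_Cmp (b c : Bool) : Fin 4 :=
  if b = true then (if c = true then 0 else 2) else (if c = true then 1 else 3)

private theorem step3_Cmp (A : Finset Site) :
    (∑ u : ↥(mids A) → Bool × Bool, ind_Cmp A (OM_Cmp A u)) * 2 ^ (A.card * 2 * 2) =
      (∑ u : ↥A × Bool → Bool × Bool, ind_Cmp A (OU_Cmp A u)) * 2 ^ ((mids A).card * 2) := by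
  classical
  let φ : (↥A × Bool) × Bool → ↥(mids A) × Bool := fun p =>
    (⟨midT p.1.1 (dir_Cmp p.1.2 p.2), mem_mids_Cmp p.1.1.2 _⟩, p.2)
  have hφ : Function.Injective φ := by
    rintro ⟨⟨⟨x, hx⟩, b⟩, c⟩ ⟨⟨⟨y, hy⟩, b'⟩, c'⟩ h
    have h1 : midT x (dir_Cmp b c) = midT y (dir_Cmp b' c') :=
      congrArg (fun q : ↥(mids A) × Bool => (q.1 : ℤ × ℤ)) h
    have h2 : c = c' := congrArg Prod.snd h
    subst h2
    obtain ⟨e1, e2⟩ := midT_inj_Cmp x y _ _ (by cases b <;> cases b' <;> cases c <;> decide) h1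
    have e3 : b = b' := by
      revert e2
      clear h h1
      cases b <;> cases b' <;> cases c <;> decide
    subst e1 e3
    rfl
  have h1 := marg_sum φ hφ (fun v => ind_Cmp A (OU_Cmp A (fun i => (v (i, true), v (i, false)))))
  have hE : Fintype.card ((↥A × Bool) × Bool) = A.card * 2 * 2 := by simp
  have hF : Fintype.card (↥(mids A) × Bool) = (mids A).card * 2 := by simp
  rw [hE, hF] at h1
  rw [sum_prd_Cmp (fun u : ↥A × Bool → Bool × Bool => ind_Cmp A (OU_Cmp A u)), ← h1,
    sum_prd_Cmp (fun u : ↥(mids A) → Bool × Bool => ind_Cmp A (OM_Cmp A u))]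
  congr 1
  refine Finset.sum_congr rfl fun w _ => ?_
  have hset : OM_Cmp A (fun i => (w (i, true), w (i, false))) =
      OU_Cmp A (fun i => (w (φ (i, true)), w (φ (i, false)))) := by
    ext ⟨x, d⟩
    constructor
    · rintro ⟨hx, hmem, hg⟩
      refine ⟨hx, ?_⟩
      revert hmem hg
      fin_cases d <;> intro hmem hg <;> exact hg
    · rintro ⟨hx, hg⟩
      refine ⟨hx, mem_mids_Cmp hx _, ?_⟩
      revert hg
      fin_cases d <;> intro hg <;> exact hg
  rw [hset]

theorem cmp_count (A : Finset Site) : cB A * 4 ^ A.card ≤ cW A * 2 ^ (mids A).card := by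
  have h1 := step1_Cmp A
  have h2 := step2_Cmp A
  have h3 := step3_Cmp A
  generalize (∑ u : ↥(mids A) → Bool × Bool, ind_Cmp A (OM_Cmp A u)) = SK at h2 h3
  generalize (∑ u : ↥A × Bool → Bool × Bool, ind_Cmp A (OU_Cmp A u)) = SI at h1 h3
  generalize (mids A).card = k at *
  generalize A.card = n at *
  have h4 : (4 : ℕ) ^ n = 2 ^ (n * 2) := by
    rw [Nat.mul_comm, Nat.pow_mul]
  rw [h4]
  rw [Nat.pow_mul 2 (n * 2) 2, Nat.pow_mul 2 k 2] at h3
  generalize hN : (2 : ℕ) ^ (n * 2) = N at *
  generalize hM : (2 : ℕ) ^ k = M at *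
  have hNpos : 0 < N := by rw [← hN]; positivity
  have hMpos : 0 < M := by rw [← hM]; positivity
  have h5 : M * N * (cB A * N) ≤ M * N * (cW A * M) := by
    calc M * N * (cB A * N) = (M * cB A) * N ^ 2 := by ring
      _ ≤ SK * N ^ 2 := Nat.mul_le_mul_right _ h2
      _ = SI * M ^ 2 := h3
      _ ≤ (N * cW A) * M ^ 2 := Nat.mul_le_mul_right _ h1
      _ = M * N * (cW A * M) := by ring
  exact Nat.le_of_mul_le_mul_left h5 (Nat.mul_pos hMpos hNpos)

end Pool.Agent.Rotor2
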