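import Mathlib.Tactic

/-!
# Rotor walk on the square lattice: definitions

`Site = ℤ × ℤ`; the directions are `0` north, `1` east, `2` south, `3` west (clockwise order),
`d + 2` is the opposite direction of `d`, `d + 1` is `d` turned clockwise.

`walk s r t` is the position at time `t` of the rotor walk (prospective convention) which starts at
the origin with the initial rotor configuration `r`; `s` is the rotor mechanism (successor map).

Everything below except `step` and `walk` is about the CLOCKWISE mechanism `fun d => d + 1`:
the `k`-th firing (`k = 0, 1, 2, ...`) of `x` goes in direction `turn k (r x)`.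

* `recv r c x`: number of chips which arrive at `x` if every site `y` fires `c y` times.
* `Cert r c`: certificate.
* `fc x d`: the face (unit square, named by its lower left corner) at `x` between the directions `d`
  and `d + 1`.  It is on the right of the directed edge `(x, d)`; `fc x (d + 3)` is on its left.
* `Opn r x d`: the directed edge from `x` in direction `d` is open (`d` is one of the two
  directions `r x` and `r x` turned counterclockwise).
* `IsLoop O A l g e`: a closed lattice walk of length `l` in `A` along directed edges in `O`.
* `sg f x d`: signed crossing of the vertical ray above the face `f`; `wind` = winding number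
  (clockwise = positive).
* `Circ A O`: there is a closed walk in `A` along edges in `O` with winding number at least `1` about the
  face `(0, 0)`.
* `Ann R R'`: the square annulus.
-/

namespace Pool.Agent.Rotor2

/-- Sites of the square lattice. -/
abbrev Site : Type := ℤ × ℤ

/-- The unit vectors: north, east, south, west. -/
def vec : Fin 4 → Site
  | 0 => (0, 1)
  | 1 => (1, 0)
  | 2 => (0, -1)
  | 3 => (-1, 0)

/-- One step of the rotor walk; a state is a position and a rotor configuration. -/
def step (s : Fin 4 → Fin 4) (p : Site × (Site → Fin 4)) : Site × (Site → Fin 4) :=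
  (p.1 + vec (p.2 p.1), Function.update p.2 p.1 (s (p.2 p.1)))

/-- The rotor walk started at the origin. -/
def walk (s : Fin 4 → Fin 4) (r : Site → Fin 4) (t : ℕ) : Site :=
  ((step s)^[t] ((0, 0), r)).1

/-- `k` clockwise quarter turns. -/
def turn (k : ℕ) (d : Fin 4) : Fin 4 := (fun e : Fin 4 => e + 1)^[k] d

/-- Number of chips which arrive at `x` if every site `y` fires `c y` times. -/
def recv (r : Site → Fin 4) (c : Site → ℕ) (x : Site) : ℕ :=
  ∑ d : Fin 4, ((Finset.range (c (x + vec d))).filter
    (fun k => turn k (r (x + vec d)) = d + 2)).card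

/-- Certificates. -/
structure Cert (r : Site → Fin 4) (c : Site → ℕ) : Prop where
  le4 : ∀ x, c x ≤ 4
  fin : (Function.support c).Finite
  le : ∀ x, recv r c x ≤ c x

/-- The face at `x` between the directions `d` and `d + 1`. -/
def fc (x : Site) : Fin 4 → Site
  | 0 => (x.1, x.2)
  | 1 => (x.1, x.2 - 1)
  | 2 => (x.1 - 1, x.2 - 1)
  | 3 => (x.1 - 1, x.2)

/-- The directed edge from `x` in direction `d` is open. -/
def Opn (r : Site → Fin 4) (x : Site) (d : Fin 4) : Prop := r x = d ∨ r x = d + 1

/-- Closed sets of faces: an edge with its right face in `G` and its left face outside is open. -/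
def ClosedG (r : Site → Fin 4) (G : Set Site) : Prop :=
  ∀ x d, fc x d ∈ G → fc x (d + 3) ∉ G → Opn r x d

/-- A closed lattice walk of length `l` in `A` along directed edges in `O`. -/
structure IsLoop (O : Set (Site × Fin 4)) (A : Set Site) (l : ℕ) (g : ℕ → Site)
    (e : ℕ → Fin 4) : Prop where
  step : ∀ t < l, g (t + 1) = g t + vec (e t)
  opn : ∀ t < l, (g t, e t) ∈ O
  mem : ∀ t < l, g t ∈ A
  closed : g l = g 0

/-- Signed crossing of the vertical ray above the face `f` by the step from `x` in direction `d`. -/
def sg (f x : Site) (d : Fin 4) : ℤ :=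
  if d = 1 ∧ x.1 = f.1 ∧ f.2 < x.2 then 1
  else if d = 3 ∧ x.1 = f.1 + 1 ∧ f.2 < x.2 then -1 else 0

/-- Winding number about the face `f`. -/
def wind (f : Site) (l : ℕ) (g : ℕ → Site) (e : ℕ → Fin 4) : ℤ :=
  ∑ t ∈ Finset.range l, sg f (g t) (e t)

/-- There is a closed walk in `A` along directed edges in `O` with winding number at least one about
the face `(0, 0)`. -/
def Circ (A : Set Site) (O : Set (Site × Fin 4)) : Prop :=
  ∃ l g e, IsLoop O A l g e ∧ 1 ≤ wind (0, 0) l g e

/-- The square annulus. -/
def Ann (R R' : ℤ) : Set Site := {x | (R < |x.1| ∨ R < |x.2|) ∧ |x.1| ≤ R' ∧ |x.2| ≤ R'}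

/-- The open directed edges of a rotor configuration. -/
def OW (r : Site → Fin 4) : Set (Site × Fin 4) := {p | Opn r p.1 p.2}

/-- The vertex of the triangular lattice which represents the edge from `x` in direction `d`:
in the doubled coordinates `(p, q) = 2 x + vec d`, it is `(p, q - p)`. -/
def midT (x : Site) (d : Fin 4) : ℤ × ℤ :=
  (2 * x.1 + (vec d).1, 2 * x.2 + (vec d).2 - (2 * x.1 + (vec d).1))

/-- The open directed edges of a bond configuration given by labels on the midpoints. -/
def OB (w : ℤ × ℤ → ℝ) : Set (Site × Fin 4) := {p | w (midT p.1 p.2) ≤ 1 / 2}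

theorem fc_rev (x : Site) (d : Fin 4) :
    fc (x + vec d) (d + 2) = fc x (d + 3) ∧ fc (x + vec d) (d + 2 + 3) = fc x d := by
  fin_cases d <;> refine ⟨?_, ?_⟩ <;> ext <;> simp [fc, vec] <;> ring

theorem vec_rev (x : Site) (d : Fin 4) : x + vec d + vec (d + 2) = x := by
  fin_cases d <;> ext <;> simp [vec]

theorem midT_rev (x : Site) (d : Fin 4) : midT (x + vec d) (d + 2) = midT x d := by
  fin_cases d <;> ext <;> simp [vec, midT] <;> ring

end Pool.Agent.Rotor2
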