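import Pool.Agent.Rotor2.Defs

/-!
# From a closed set of faces to a certificate

Let `G` be closed (`ClosedG r G`).  Write `a d = (fc x d ∈ G)` for the four faces at `x`.
The relation (`x` fires `d`) is the relation
`F x d := (fc x d ∈ G ∧ fc x (d + 3) ∈ G) ∨ (fc x d ∈ G ∧ fc x (d + 3) ∉ G ∧ r x = d)
   ∨ (fc x d ∉ G ∧ fc x (d + 3) ∈ G ∧ r (x + vec d) = d + 2)`.
* SYMMETRY: `F (x + vec d) (d + 2) ↔ F x d` (`fc_rev`, `vec_rev`, and `d + 2 + 2 = d`).
* Put `c x = #{d | F x d}`.
* LOCAL LEMMA: `(∃ k < c x, turn k (r x) = d) ↔ F x d`.  It is a finite check: the truth values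
  `a 0, .., a 3`, the value of `r x` and the four truth values `b d = (r (x + vec d) = d + 2)`; the
  hypothesis is `∀ d, a d → ¬ a (d + 3) → r x = d ∨ r x = d + 1`.
* Hence `recv r c x = ∑ d, (if F (x + vec d) (d + 2) then 1 else 0) = ∑ d, (if F x d ..) = c x`.
* `c x ≤ 4` clear.  Finite support: if `c x ≠ 0` then some `fc x d ∈ G`, so `x` is one of the four
  corners of a face of `G`.
* If all four faces are in `G` then `F x d` for all `d`, so `c x = 4`; if none is then `c x = 0`.
-/

namespace Pool.Agent.Rotor2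

/-- the firing relation for Booleans -/
private def FB (a b : Fin 4 → Bool) (q d : Fin 4) : Bool :=
  (a d && a (d + 3)) || (a d && !a (d + 3) && q == d) || (!a d && a (d + 3) && b d)

private def cB (a b : Fin 4 → Bool) (q : Fin 4) : ℕ :=
  (Finset.univ.filter fun d => FB a b q d = true).card

private lemma local_aux : ∀ (a0 a1 a2 a3 b0 b1 b2 b3 : Bool) (q : Fin 4),
    (∀ d, ![a0, a1, a2, a3] d = true → ![a0, a1, a2, a3] (d + 3) = false → q = d ∨ q = d + 1) →
    ∀ d, ((Finset.range (cB ![a0, a1, a2, a3] ![b0, b1, b2, b3] q)).filter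
      (fun k => turn k q = d)).card =
      if FB ![a0, a1, a2, a3] ![b0, b1, b2, b3] q d = true then 1 else 0 := by
  decide +kernel

private lemma local_lemma (a b : Fin 4 → Bool) (q : Fin 4)
    (h : ∀ d, a d = true → a (d + 3) = false → q = d ∨ q = d + 1) (d : Fin 4) :
    ((Finset.range (cB a b q)).filter (fun k => turn k q = d)).card =
      if FB a b q d = true then 1 else 0 := by
  have e : ∀ f : Fin 4 → Bool, f = ![f 0, f 1, f 2, f 3] := by
    intro f
    ext i
    fin_cases i <;> rfl
  rw [e a, e b]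
  rw [e a] at h
  exact local_aux _ _ _ _ _ _ _ _ q h d

theorem cert_of_faces (r : Site → Fin 4) (G : Set Site) (hG : G.Finite) (hc : ClosedG r G) :
    ∃ c, Cert r c ∧ (∀ x, (∀ d, fc x d ∈ G) → c x = 4) ∧
      (∀ x, (∀ d, fc x d ∉ G) → c x = 0) := by
  classical
  set a : Site → Fin 4 → Bool := fun x d => decide (fc x d ∈ G) with ha
  set b : Site → Fin 4 → Bool := fun x d => decide (r (x + vec d) = d + 2) with hb
  have hrev : ∀ x d, FB (a (x + vec d)) (b (x + vec d)) (r (x + vec d)) (d + 2) =
      FB (a x) (b x) (r x) d := by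
    intro x d
    have h1 := fc_rev x d
    have h2 := vec_rev x d
    have h3 : d + 2 + 2 = d := by fin_cases d <;> rfl
    simp only [FB, ha, hb, h1.1, h1.2, h2, h3]
    by_cases p1 : fc x d ∈ G <;> by_cases p2 : fc x (d + 3) ∈ G <;> simp [p1, p2]
    · rw [Bool.eq_iff_iff]
      simp
    · rw [Bool.eq_iff_iff]
      simp
  have hloc : ∀ x d, ((Finset.range (cB (a x) (b x) (r x))).filter
      (fun k => turn k (r x) = d)).card = if FB (a x) (b x) (r x) d = true then 1 else 0 := by
    intro x d
    refine local_lemma (a x) (b x) (r x) (fun d h1 h2 => ?_) d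
    simp only [ha, decide_eq_true_eq, decide_eq_false_iff_not] at h1 h2
    exact hc x d h1 h2
  refine ⟨fun x => cB (a x) (b x) (r x), ⟨fun x => ?_, ?_, fun x => ?_⟩, fun x hx => ?_,
    fun x hx => ?_⟩
  · exact (Finset.card_le_univ _).trans (by simp)
  · refine (((hG.image fun y : Site => y).union (hG.image fun y : Site => (y.1, y.2 + 1))).union
      ((hG.image fun y : Site => (y.1 + 1, y.2 + 1)).union
        (hG.image fun y : Site => (y.1 + 1, y.2)))).subset fun x hx => ?_
    have h1 : ∃ d, fc x d ∈ G := by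
      by_contra h2
      push Not at h2
      apply hx
      show cB (a x) (b x) (r x) = 0
      rw [cB, Finset.card_eq_zero, Finset.filter_eq_empty_iff]
      intro d _
      simp [FB, ha, h2]
    obtain ⟨d, hd⟩ := h1
    fin_cases d
    · left; left
      exact ⟨fc x 0, hd, rfl⟩
    · left; right
      refine ⟨fc x 1, hd, ?_⟩
      simp [fc]
    · right; left
      refine ⟨fc x 2, hd, ?_⟩
      simp [fc]
    · right; right
      refine ⟨fc x 3, hd, ?_⟩
      simp [fc]
  · apply le_of_eq
    unfold recv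
    rw [cB, Finset.card_filter]
    refine Finset.sum_congr rfl fun d _ => ?_
    rw [hloc (x + vec d) (d + 2), hrev]
  · show cB (a x) (b x) (r x) = 4
    rw [cB, Finset.filter_true_of_mem]
    · simp
    · intro d _
      simp [FB, ha, hx]
  · show cB (a x) (b x) (r x) = 0
    rw [cB, Finset.card_eq_zero, Finset.filter_eq_empty_iff]
    intro d _
    simp [FB, ha, hx]

end Pool.Agent.Rotor2
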