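import Pool.Agent.Rotor2.FourB
import Pool.Agent.Rotor2.BRsw
import Pool.Agent.TriPerc.Harris

/-!
# Circuits of bond percolation in annuli have probability bounded below

`circ_prob`: let `c` be the constant of `rsw_b`, `N = 4 R + 10`.  The four crossing events are lower
sets, so by Harris their intersection has probability at least `c ^ 4`; on it `circ_of_four` gives
the circuit.
-/

namespace Pool.Agent.Rotor2

open TriPerc MeasureTheory

private theorem typ_ob (w : Lab) : Typ (Ob w) := by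
  rintro v (h | h)
  · exact Or.inl h
  · exact Or.inr h.1

private theorem oe_ob (w : Lab) : OE (Ob w) ⊆ OB w := by
  rintro ⟨x, d⟩ h
  have h1 : midT x d ∈ Ob w := h
  rcases h1 with ⟨h1, h2⟩ | ⟨-, h2⟩
  · exfalso
    have h3 : (midT x d).1 % 2 = 0 ∧ (midT x d).2 % 2 = 0 := ⟨h1, h2⟩
    fin_cases d <;> simp [midT, vec] at h3
  · exact h2

theorem circ_prob : ∃ c : ENNReal, c ≠ 0 ∧ ∀ R : ℤ, 0 ≤ R →
    c ≤ TriPerc.P {w | Circ (Ann R (8 * R + 20)) (OB w)} := by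
  obtain ⟨c, hc, h⟩ := rsw_b
  refine ⟨ENNReal.ofReal c ^ 4, pow_ne_zero 4 (by simpa using hc), fun R hR => ?_⟩
  obtain ⟨N, hN⟩ : ∃ N : ℤ, N = 4 * R + 10 := ⟨_, rfl⟩
  have hN10 : 10 ≤ N := by omega
  obtain ⟨h1, h2, h3, h4⟩ := h N hN10
  have e0 : -3 * N = -(3 * N) := by ring
  rw [e0] at h1 h2 h3 h4
  set D : Set V := Rec (-(3 * N)) (3 * N) (-(3 * N)) (3 * N) with hD
  have hfin : D.Finite := finite_rec _ _ _ _
  have sub : ∀ {l r b t : ℤ}, -(3 * N) ≤ l → r ≤ 3 * N → -(3 * N) ≤ b → t ≤ 3 * N →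
      Rec l r b t ⊆ D := by
    rintro l r b t a1 a2 a3 a4 v ⟨b1, b2, b3, b4⟩
    exact ⟨by omega, by omega, by omega, by omega⟩
  have E1 : Ev D (bHC (-(3 * N)) (3 * N) N (3 * N)) :=
    ev_bHC.mono (sub le_rfl le_rfl (by omega) le_rfl)
  have E2 : Ev D (bHC (-(3 * N)) (3 * N) (-(3 * N)) (-N)) :=
    ev_bHC.mono (sub le_rfl le_rfl le_rfl (by omega))
  have E3 : Ev D (bVC N (3 * N) (-(3 * N)) (3 * N)) :=
    ev_bVC.mono (sub (by omega) le_rfl le_rfl le_rfl)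
  have E4 : Ev D (bVC (-(3 * N)) (-N) (-(3 * N)) (3 * N)) :=
    ev_bVC.mono (sub le_rfl (by omega) le_rfl le_rfl)
  have k : ∀ {A : Set Lab}, c ≤ (P A).toReal → ENNReal.ofReal c ≤ P A := fun hA =>
    ENNReal.ofReal_le_of_le_toReal hA
  have H1 := harris_low hfin E1 E2 low_bHC low_bHC
  have H2 := harris_low hfin E3 E4 low_bVC low_bVC
  have H3 := harris_low hfin (E1.inter E2) (E3.inter E4) (low_bHC.inter low_bHC)
    (low_bVC.inter low_bVC)
  calc ENNReal.ofReal c ^ 4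
      = (ENNReal.ofReal c * ENNReal.ofReal c) * (ENNReal.ofReal c * ENNReal.ofReal c) := by ring
    _ ≤ (P (bHC (-(3 * N)) (3 * N) N (3 * N)) * P (bHC (-(3 * N)) (3 * N) (-(3 * N)) (-N))) *
        (P (bVC N (3 * N) (-(3 * N)) (3 * N)) * P (bVC (-(3 * N)) (-N) (-(3 * N)) (3 * N))) :=
        mul_le_mul' (mul_le_mul' (k h1) (k h2)) (mul_le_mul' (k h3) (k h4))
    _ ≤ _ := (mul_le_mul' H1 H2).trans H3
    _ ≤ _ := by
        refine measure_mono fun w hw => ?_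
        obtain ⟨⟨w1, w2⟩, w3, w4⟩ := hw
        have h5 := circ_of_four (typ_ob w) hN10 hR (by omega) w3 w1 w4 w2
        have e1 : 2 * N = 8 * R + 20 := by omega
        rw [e1] at h5
        obtain ⟨l, g, e, h6, h7⟩ := h5
        exact ⟨l, g, e, ⟨h6.step, fun t ht => oe_ob w (h6.opn t ht), h6.mem, h6.closed⟩, h7⟩

end Pool.Agent.Rotor2
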