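import Pool.Agent.Rotor2.Cmp
import Pool.Agent.TriPerc.Meas
import Mathlib.Probability.Independence.Basic

/-!
# From counting to probability

* `prob_b`: `P {w | Circ A (OB w)} = cB A / 2 ^ |mids A|`, where `P` is the law of the labels of
  `TriPerc` (i.i.d. uniform on `[0,1]`).  PROOF.  For `w` let
  `s w m = decide (w m ≤ 1/2)`, `m ∈ mids A`.  A loop in `A` uses only edges `(x, d)` with `x ∈ A`,
  whose midpoint is in `mids A`; so `Circ A (OB w) ↔ Circ A (OBA A (s w))`.  The event is the
  disjoint union over the good `s` of `{w | ∀ m, s w m = s m}`, and each of these has probability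
  `2 ^ (- |mids A|)`: it is a box `Set.pi (mids A) t`, `t m = Iic (1/2)` or its complement,
  `Measure.infinitePi_pi`, `unif_Iic` (see `Meas.lean`).
* `prob_w`: if `ρ x`, `x : Site`, are independent and uniform on `Fin 4` (on any probability space)
  then `Q {ω | Circ A (OW (fun x => ρ x ω))} = cW A / 4 ^ |A|`.  PROOF.
  `Circ A (OW r) ↔ Circ A (OWA A (restriction of r to A))`; disjoint union over the good
  `r : A → Fin 4` of `{ω | ∀ x ∈ A, ρ x ω = r x}`, which has probability `4 ^ (- |A|)`
  (`iIndepFun.measure_inter_preimage_eq_mul`).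
* `prob_le`: hence `P {w | Circ A (OB w)} ≤ Q {ω | ...}` by `cmp_count`.
* `meas_w`: the event of the rotor model is measurable (finite union of measurable sets).
-/

namespace Pool.Agent.Rotor2

open MeasureTheory ProbabilityTheory

/-- Independent uniform rotors. -/
structure IsUnif {Ω : Type*} [MeasurableSpace Ω] (Q : Measure Ω) (ρ : Site → Ω → Fin 4) :
    Prop where
  meas : ∀ x, Measurable (ρ x)
  indep : iIndepFun ρ Q
  unif : ∀ x d, Q {ω | ρ x ω = d} = 1 / 4

private theorem circ_imp_Prob {A : Set Site} {O O' : Set (Site × Fin 4)}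
    (h : ∀ x ∈ A, ∀ d, (x, d) ∈ O → (x, d) ∈ O') (hc : Circ A O) : Circ A O' := by
  obtain ⟨l, g, e, hl, hw⟩ := hc
  exact ⟨l, g, e, ⟨hl.step, fun t ht => h _ (hl.mem t ht) _ (hl.opn t ht), hl.mem, hl.closed⟩, hw⟩

private theorem circ_congr_Prob {A : Set Site} {O O' : Set (Site × Fin 4)}
    (h : ∀ x ∈ A, ∀ d, (x, d) ∈ O ↔ (x, d) ∈ O') : Circ A O ↔ Circ A O' :=
  ⟨circ_imp_Prob fun x hx d => (h x hx d).1, circ_imp_Prob fun x hx d => (h x hx d).2⟩

/-- Probability of a good configuration if all configurations have the same probability. -/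
private theorem gen_Prob {Ω C : Type*} [MeasurableSpace Ω] [Fintype C] (Q : Measure Ω)
    (f : Ω → C) (hm : ∀ c, MeasurableSet {ω | f ω = c}) (κ : ENNReal)
    (hk : ∀ c, Q {ω | f ω = c} = κ) (G : C → Prop) [DecidablePred G] :
    Q {ω | G (f ω)} = ((∑ c, if G c then 1 else 0 : ℕ) : ENNReal) * κ := by
  classical
  have h1 : {ω | G (f ω)} = ⋃ c ∈ Finset.univ.filter G, {ω | f ω = c} := by
    ext ω
    simp
  rw [h1, measure_biUnion_finset]
  · rw [Finset.sum_congr rfl fun c _ => hk c, Finset.sum_const, nsmul_eq_mul,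
      Finset.sum_boole]
    simp
  · intro c _ c' _ hcc
    refine Set.disjoint_left.2 fun ω h h' => hcc ?_
    exact (show f ω = c from h).symm.trans h'
  · exact fun c _ => hm c

private theorem unif_half_Prob : TriPerc.unif (Set.Iic (1 / 2 : ℝ)) = 1 / 2 := by
  rw [TriPerc.unif_Iic (by norm_num) (by norm_num)]
  rw [ENNReal.ofReal_div_of_pos (by norm_num)]
  simp

private theorem unif_half_compl_Prob : TriPerc.unif (Set.Iic (1 / 2 : ℝ))ᶜ = 1 / 2 := by
  rw [prob_compl_eq_one_sub measurableSet_Iic, unif_half_Prob]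
  simp

open Classical in
/-- The box of a bond configuration. -/
private noncomputable def box_Prob (A : Finset Site) (s : ↥(mids A) → Bool) (m : ℤ × ℤ) :
    Set ℝ :=
  if h : m ∈ mids A then (if s ⟨m, h⟩ then Set.Iic (1 / 2) else (Set.Iic (1 / 2))ᶜ)
  else Set.univ

private theorem box_meas_Prob (A : Finset Site) (s : ↥(mids A) → Bool) (m : ℤ × ℤ) :
    MeasurableSet (box_Prob A s m) := by
  unfold box_Prob
  split_ifs
  · exact measurableSet_Iic
  · exact measurableSet_Iic.compl
  · exact MeasurableSet.univ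

private theorem fib_Prob (A : Finset Site) (s : ↥(mids A) → Bool) :
    {w : ℤ × ℤ → ℝ | (fun m : ↥(mids A) => decide (w m ≤ 1 / 2)) = s} =
      Set.pi (mids A : Set (ℤ × ℤ)) (box_Prob A s) := by
  ext w
  simp only [Set.mem_ofPred_eq, Set.mem_pi, Finset.mem_coe]
  constructor
  · intro h m hm
    have h1 := congrFun h ⟨m, hm⟩
    unfold box_Prob
    rw [dif_pos hm, ← h1]
    by_cases h2 : w m ≤ 1 / 2
    · rw [if_pos (by simpa using h2)]
      exact h2
    · rw [if_neg (by simpa using h2)]
      exact h2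
  · intro h
    funext m
    have h1 := h m.1 m.2
    unfold box_Prob at h1
    rw [dif_pos m.2] at h1
    cases hs : s m
    · rw [hs] at h1
      simpa using h1
    · rw [hs] at h1
      simpa using h1

theorem prob_b (A : Finset Site) :
    TriPerc.P {w | Circ (A : Set Site) (OB w)} = (cB A : ENNReal) / 2 ^ (mids A).card := by
  classical
  have h1 : {w : TriPerc.Lab | Circ (A : Set Site) (OB w)} =
      {w : TriPerc.Lab | Circ (A : Set Site)
        (OBA A ((fun m : ↥(mids A) => decide (w m ≤ 1 / 2))))} := by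
    ext w
    refine circ_congr_Prob fun x hx d => ?_
    have hm : midT x d ∈ mids A := by
      unfold mids
      exact Finset.mem_image.2 ⟨(x, d), by simpa using hx, rfl⟩
    constructor
    · intro h
      exact ⟨hm, by simpa [OB] using h⟩
    · rintro ⟨h, h2⟩
      simpa [OB] using h2
  rw [h1, gen_Prob (C := ↥(mids A) → Bool) TriPerc.P
    (fun w => (fun m : ↥(mids A) => decide (w m ≤ 1 / 2))) ?_ ((1 / 2 : ENNReal) ^ (mids A).card)
    ?_ (fun s => Circ (A : Set Site) (OBA A s))]
  · rw [cB, ENNReal.div_eq_inv_mul, mul_comm, ENNReal.div_eq_inv_mul, mul_one,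
      ENNReal.inv_pow]
  · intro s
    have := fib_Prob A s
    rw [this]
    exact MeasurableSet.pi (mids A).countable_toSet fun i _ => box_meas_Prob A s i
  · intro s
    have := fib_Prob A s
    rw [this]
    unfold TriPerc.P
    rw [Measure.infinitePi_pi _ fun i _ => box_meas_Prob A s i, ← Finset.prod_const]
    refine Finset.prod_congr rfl fun m hm => ?_
    unfold box_Prob
    rw [dif_pos hm]
    split_ifs
    · exact unif_half_Prob
    · exact unif_half_compl_Prob

variable {Ω : Type*} [MeasurableSpace Ω] {Q : Measure Ω} [IsProbabilityMeasure Q]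
  {ρ : Site → Ω → Fin 4}

open Classical in
/-- extension of a rotor configuration -/
private noncomputable def ext_Prob (A : Finset Site) (r : ↥A → Fin 4) (x : Site) :
    Set (Fin 4) := if h : x ∈ A then {r ⟨x, h⟩} else Set.univ

omit [MeasurableSpace Ω] in
private theorem fibw_Prob (A : Finset Site) (r : ↥A → Fin 4) :
    {ω : Ω | (fun x : ↥A => ρ x ω) = r} = ⋂ x ∈ A, ρ x ⁻¹' ext_Prob A r x := by
  ext ω
  simp only [Set.mem_ofPred_eq, Set.mem_iInter, Set.mem_preimage]
  constructor
  · intro h x hx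
    have h1 := congrFun h ⟨x, hx⟩
    unfold ext_Prob
    rw [dif_pos hx]
    exact h1
  · intro h
    funext x
    have h1 := h x.1 x.2
    unfold ext_Prob at h1
    rw [dif_pos x.2] at h1
    exact h1

omit [MeasurableSpace Ω] in
private theorem eqw_Prob (A : Finset Site) :
    {ω : Ω | Circ (A : Set Site) (OW fun x => ρ x ω)} =
      {ω : Ω | Circ (A : Set Site) (OWA A (fun x : ↥A => ρ x ω))} := by
  ext ω
  refine circ_congr_Prob fun x hx d => ?_
  constructor
  · intro h
    exact ⟨hx, h⟩
  · rintro ⟨_, h⟩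
    exact h

omit [IsProbabilityMeasure Q] in
private theorem measw_Prob (hρ : IsUnif Q ρ) (A : Finset Site) (r : ↥A → Fin 4) :
    MeasurableSet {ω : Ω | (fun x : ↥A => ρ x ω) = r} := by
  rw [fibw_Prob]
  exact Finset.measurableSet_biInter _ fun x _ => hρ.meas x (Set.toFinite _).measurableSet

theorem prob_w (hρ : IsUnif Q ρ) (A : Finset Site) :
    Q {ω | Circ (A : Set Site) (OW fun x => ρ x ω)} = (cW A : ENNReal) / 4 ^ A.card := by
  classical
  rw [eqw_Prob, gen_Prob (C := ↥A → Fin 4) Q (fun ω => (fun x : ↥A => ρ x ω))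
    (fun r => measw_Prob hρ A r) ((1 / 4 : ENNReal) ^ A.card)
    ?_ (fun r => Circ (A : Set Site) (OWA A r))]
  · rw [cW, ENNReal.div_eq_inv_mul, mul_comm, ENNReal.div_eq_inv_mul, mul_one,
      ENNReal.inv_pow]
  · intro r
    rw [fibw_Prob, hρ.indep.measure_inter_preimage_eq_mul A
      (fun x _ => (Set.toFinite _).measurableSet), ← Finset.prod_const]
    refine Finset.prod_congr rfl fun x hx => ?_
    unfold ext_Prob
    rw [dif_pos hx]
    exact hρ.unif x _

theorem meas_w (hρ : IsUnif Q ρ) (A : Finset Site) :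
    MeasurableSet {ω | Circ (A : Set Site) (OW fun x => ρ x ω)} := by
  classical
  rw [eqw_Prob]
  have h1 : {ω : Ω | Circ (A : Set Site) (OWA A (fun x : ↥A => ρ x ω))} =
      ⋃ r ∈ Finset.univ.filter (fun r : ↥A → Fin 4 => Circ (A : Set Site) (OWA A r)),
        {ω : Ω | (fun x : ↥A => ρ x ω) = r} := by
    ext ω
    simp
  rw [h1]
  exact Finset.measurableSet_biUnion _ fun r _ => measw_Prob hρ A r

theorem prob_le (hρ : IsUnif Q ρ) (A : Finset Site) :
    TriPerc.P {w | Circ (A : Set Site) (OB w)} ≤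
      Q {ω | Circ (A : Set Site) (OW fun x => ρ x ω)} := by
  rw [prob_b, prob_w hρ]
  have h := cmp_count A
  rw [ENNReal.div_le_iff (by positivity) (by simp), ENNReal.div_eq_inv_mul, mul_assoc,
    ← ENNReal.div_eq_inv_mul, ENNReal.le_div_iff_mul_le (by simp) (by simp)]
  exact_mod_cast h

end Pool.Agent.Rotor2
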