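import Pool.Agent.Rotor2.Face

/-!
# Winding numbers: an open loop gives a certificate

Let `g, e` be a loop of length `l` (`IsLoop O A l g e`), `T x d = #{t < l | g t = x ∧ e t = d}`.

* `wind_jump`: `wind (fc x d) - wind (fc x (d + 3)) = T x d - T (x + vec d) (d + 2)`.
  PROOF: termwise.  For a step from `y` in direction `k`:
  - `d = 1` (east): `sg (fc x 1) y k - sg (fc x 0) y k = [y = x, k = 1] - [y = x + (1,0), k = 3]`
    (`fc x 1 = (x.1, x.2 - 1)`, `fc x 0 = (x.1, x.2)`: the difference is the crossing at height exactly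
    `x.2`); `d = 3` similarly with `fc x 3 = (x.1 - 1, x.2)`, `fc x 2 = (x.1 - 1, x.2 - 1)`.
  - `d = 0` (north): with `h y = [y.1 = x.1 ∧ x.2 < y.2]`:
    `sg (fc x 0) y k - sg (fc x 3) y k
       = h y - h (y + vec k) + [y = x, k = 0] - [y = x + (0,1), k = 2]`, and the `h`-terms telescope to
    `h (g 0) - h (g l) = 0`.  (`fc x 0 = (x.1, x.2)`, `fc x 3 = (x.1 - 1, x.2)`.)
  - `d = 2` (south): this is the case `d = 0` at the site `x - (0,1)` with the signs exchanged
    (`fc x 2 = fc (x - (0,1)) 3`, `fc x 1 = fc (x - (0,1)) 0`); or directly in the same way.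
  All identities are checked by `fin_cases k`, `split_ifs` and `omega`.
* `closed_wind`: if all steps are open for `r` then `G = {f | 1 ≤ wind f l g e}` is `ClosedG`:
  `1 ≤ wind (fc x d)` and `wind (fc x (d+3)) ≤ 0` give `T x d ≥ 1`.
* `wind_out`: if all `g t` are in the box `|x.1|, |x.2| ≤ R'` then `wind f = 0` unless
  `-R' ≤ f.1 < R'` and `-R' ≤ f.2 < R'`.  (Column `f.1` or `f.1 + 1` not visited, or nothing above
  height `f.2`, or `f.2 < -R'`: then every step between the columns counts, and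
  `sg f y k = [y.1 ≤ f.1] - [(y + vec k).1 ≤ f.1]`, which telescopes to `0`.)
* `wind_hole`: if no `g t` is in the box `|x.1|, |x.2| ≤ R` then `wind f = wind (0,0)` for all faces
  with `-R - 1 ≤ f.1 ≤ R`, `-R - 1 ≤ f.2 ≤ R` (`0 ≤ R`): move from `(0,0)` to `f` first along the first
  coordinate and then along the second one; two neighbouring such faces are separated by an edge with at least
  one end in the box (for the horizontal move at second coordinate `0`, both `(i, 0)` ... are
  in the box; for the vertical move from `(i, j)` to `(i, j+1)`, `-R-1 ≤ i ≤ R`, `-R-1 ≤ j < R`: the edge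
  from `(i, j+1)` to `(i+1, j+1)`, `|j+1| ≤ R` and one of `i, i+1` is in `[-R, R]`), both ends of a
  traversed edge are visited (`g (t+1)` is `g 0` if `t + 1 = l`, and `g 0` is in `A` if `l > 0`), so
  `T = 0` in both directions and `wind_jump` applies.
* `cert_of_circ`: `cert_of_faces` with `G`; it is finite by `wind_out`; it contains all four faces of
  every `x` with `|x.1|, |x.2| ≤ R` by `wind_hole`.
-/

namespace Pool.Agent.Rotor2

/-- potential whose differences are the terms of `wind_jump` -/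
private def HH (d : Fin 4) (x y : Site) : ℤ :=
  if d = 0 then (if y.1 = x.1 ∧ x.2 < y.2 then 1 else 0)
  else if d = 2 then (if y.1 = x.1 ∧ x.2 - 1 < y.2 then -1 else 0) else 0

private lemma jump_term (x y : Site) (d k : Fin 4) :
    sg (fc x d) y k - sg (fc x (d + 3)) y k = HH d x y - HH d x (y + vec k) +
      (if y = x ∧ k = d then 1 else 0) - (if y = x + vec d ∧ k = d + 2 then 1 else 0) := by
  obtain ⟨a, b⟩ := x
  obtain ⟨c, e⟩ := y
  fin_cases d <;> fin_cases k <;>
    simp [sg, fc, HH, vec, Prod.ext_iff] <;> split_ifs <;> omega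

/-- number of steps from `x` in direction `d` -/
private def TT (l : ℕ) (g : ℕ → Site) (e : ℕ → Fin 4) (x : Site) (d : Fin 4) : ℤ :=
  ∑ t ∈ Finset.range l, if g t = x ∧ e t = d then 1 else 0

private lemma wind_jump {O : Set (Site × Fin 4)} {A : Set Site} {l : ℕ} {g : ℕ → Site}
    {e : ℕ → Fin 4} (hl : IsLoop O A l g e) (x : Site) (d : Fin 4) :
    wind (fc x d) l g e - wind (fc x (d + 3)) l g e =
      TT l g e x d - TT l g e (x + vec d) (d + 2) := by
  have h1 : ∀ t ∈ Finset.range l, sg (fc x d) (g t) (e t) - sg (fc x (d + 3)) (g t) (e t) =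
      (HH d x (g t) - HH d x (g (t + 1))) + (if g t = x ∧ e t = d then 1 else 0) -
        (if g t = x + vec d ∧ e t = d + 2 then 1 else 0) := by
    intro t ht
    rw [jump_term, ← hl.step t (Finset.mem_range.mp ht)]
  unfold wind TT
  rw [← Finset.sum_sub_distrib, Finset.sum_congr rfl h1, Finset.sum_sub_distrib,
    Finset.sum_add_distrib, Finset.sum_range_sub', hl.closed]
  ring

private lemma TT_nonneg (l : ℕ) (g : ℕ → Site) (e : ℕ → Fin 4) (x : Site) (d : Fin 4) :
    0 ≤ TT l g e x d :=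
  Finset.sum_nonneg fun t _ => by split_ifs <;> norm_num

private lemma TT_eq_zero {l : ℕ} {g : ℕ → Site} {e : ℕ → Fin 4} {x : Site} {d : Fin 4}
    (h : ∀ t < l, ¬ (g t = x ∧ e t = d)) : TT l g e x d = 0 :=
  Finset.sum_eq_zero fun t ht => by rw [if_neg (h t (Finset.mem_range.mp ht))]

private lemma next_mem {O : Set (Site × Fin 4)} {A : Set Site} {l : ℕ} {g : ℕ → Site}
    {e : ℕ → Fin 4} (hl : IsLoop O A l g e) {t : ℕ} (ht : t < l) : g (t + 1) ∈ A := by
  rcases Nat.lt_or_ge (t + 1) l with h | h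
  · exact hl.mem _ h
  · have h2 : t + 1 = l := by omega
    rw [h2, hl.closed]
    exact hl.mem 0 (by omega)

private lemma jump_zero {O : Set (Site × Fin 4)} {A : Set Site} {l : ℕ} {g : ℕ → Site}
    {e : ℕ → Fin 4} (hl : IsLoop O A l g e) {x : Site} {d : Fin 4}
    (h : x ∉ A ∨ x + vec d ∉ A) : wind (fc x d) l g e = wind (fc x (d + 3)) l g e := by
  have h1 : TT l g e x d = 0 := by
    refine TT_eq_zero fun t ht hh => ?_
    have m1 := hl.mem t ht
    have m2 := next_mem hl ht
    rw [hl.step t ht] at m2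
    rw [hh.1] at m1
    rw [hh.1, hh.2] at m2
    rcases h with h | h
    · exact h m1
    · exact h m2
  have h2 : TT l g e (x + vec d) (d + 2) = 0 := by
    refine TT_eq_zero fun t ht hh => ?_
    have m1 := hl.mem t ht
    have m2 := next_mem hl ht
    rw [hl.step t ht] at m2
    rw [hh.1] at m1
    rw [hh.1, hh.2, vec_rev] at m2
    rcases h with h | h
    · exact h m2
    · exact h m1
  have := wind_jump hl x d
  omega

private lemma closed_wind {r : Site → Fin 4} {A : Set Site} {l : ℕ} {g : ℕ → Site}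
    {e : ℕ → Fin 4} (hl : IsLoop (OW r) A l g e) :
    ClosedG r {f | 1 ≤ wind f l g e} := by
  intro x d h1 h2
  have h1' : 1 ≤ wind (fc x d) l g e := h1
  have h2' : ¬ 1 ≤ wind (fc x (d + 3)) l g e := h2
  have h3 := wind_jump hl x d
  have h4 := TT_nonneg l g e (x + vec d) (d + 2)
  have h5 : TT l g e x d ≠ 0 := by omega
  by_contra hno
  apply h5
  refine TT_eq_zero fun t ht hh => hno ?_
  have := hl.opn t ht
  rw [hh.1, hh.2] at this
  exact this

private lemma wind_out {O : Set (Site × Fin 4)} {A : Set Site} {l : ℕ} {g : ℕ → Site}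
    {e : ℕ → Fin 4} (hl : IsLoop O A l g e) {R' : ℤ}
    (hA : ∀ x ∈ A, |x.1| ≤ R' ∧ |x.2| ≤ R') (f : Site) (hf : 1 ≤ wind f l g e) :
    (-R' ≤ f.1 ∧ f.1 ≤ R') ∧ (-R' ≤ f.2 ∧ f.2 ≤ R') := by
  have hbox : ∀ t < l, (-R' ≤ (g t).1 ∧ (g t).1 ≤ R' ∧ -R' ≤ (g t).2 ∧ (g t).2 ≤ R') ∧
      (-R' ≤ (g (t + 1)).1 ∧ (g (t + 1)).1 ≤ R') := by
    intro t ht
    have h1 := hA _ (hl.mem t ht)
    have h2 := hA _ (next_mem hl ht)
    rw [abs_le, abs_le] at h1 h2
    exact ⟨⟨h1.1.1, h1.1.2, h1.2.1, h1.2.2⟩, h2.1.1, h2.1.2⟩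
  by_contra hcon
  have h0 : wind f l g e = 0 := by
    by_cases hc : f.2 < -R'
    · have h1 : ∀ t ∈ Finset.range l, sg f (g t) (e t) =
          (if (g t).1 ≤ f.1 then (1 : ℤ) else 0) - (if (g (t + 1)).1 ≤ f.1 then 1 else 0) := by
        intro t ht
        have ht' := Finset.mem_range.mp ht
        obtain ⟨⟨_, _, b3, _⟩, _⟩ := hbox t ht'
        rw [hl.step t ht']
        generalize g t = y at *
        generalize e t = k at *
        fin_cases k <;> simp [sg, vec] <;> split_ifs <;> omega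
      unfold wind
      rw [Finset.sum_congr rfl h1, Finset.sum_range_sub', hl.closed]
      ring
    · refine Finset.sum_eq_zero fun t ht => ?_
      have ht' := Finset.mem_range.mp ht
      obtain ⟨⟨b1, b2, b3, b4⟩, b5, b6⟩ := hbox t ht'
      rw [hl.step t ht'] at b5 b6
      generalize g t = y at *
      generalize e t = k at *
      fin_cases k <;> simp [sg, vec] at * <;> omega
  omega

theorem cert_of_circ (r : Site → Fin 4) (R R' : ℤ) (hR : 0 ≤ R) (h : Circ (Ann R R') (OW r)) :
    ∃ c, Cert r c ∧ ∀ x : Site, |x.1| ≤ R → |x.2| ≤ R → c x = 4 := by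
  obtain ⟨l, g, e, hl, hw⟩ := h
  have hA : ∀ x ∈ Ann R R', |x.1| ≤ R' ∧ |x.2| ≤ R' := fun x hx => ⟨hx.2.1, hx.2.2⟩
  have hnot : ∀ x : Site, |x.1| ≤ R → |x.2| ≤ R → x ∉ Ann R R' := by
    intro x h1 h2 h3
    rcases h3.1 with h | h
    · exact absurd h (not_lt.mpr h1)
    · exact absurd h (not_lt.mpr h2)
  have hfin : ({f | 1 ≤ wind f l g e} : Set Site).Finite := by
    refine ((Set.finite_Icc (-R') R').prod (Set.finite_Icc (-R') R')).subset fun f hf => ?_
    have := wind_out hl hA f hf
    exact ⟨⟨this.1.1, this.1.2⟩, ⟨this.2.1, this.2.2⟩⟩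
  obtain ⟨c, hc, h4, _⟩ := cert_of_faces r _ hfin (closed_wind hl)
  refine ⟨c, hc, fun x hx1 hx2 => h4 x fun d => ?_⟩
  show 1 ≤ wind (fc x d) l g e
  -- horizontal moves
  have hstepH : ∀ i : ℤ, -R - 1 ≤ i → i + 1 ≤ R →
      wind (i + 1, 0) l g e = wind (i, 0) l g e := by
    intro i h1 h2
    have := jump_zero hl (x := (i + 1, 0)) (d := 0)
      (Or.inl (hnot _ (by rw [abs_le]; constructor <;> simp <;> omega) (by simpa using hR)))
    simpa [fc] using this
  have hstepV : ∀ i j : ℤ, -R - 1 ≤ i → i ≤ R → -R - 1 ≤ j → j + 1 ≤ R →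
      wind (i, j) l g e = wind (i, j + 1) l g e := by
    intro i j h1 h2 h3 h5
    have hx : ((i, j + 1) : Site) ∉ Ann R R' ∨ ((i, j + 1) : Site) + vec 1 ∉ Ann R R' := by
      by_cases hi : -R ≤ i
      · left
        exact hnot _ (by rw [abs_le]; exact ⟨hi, h2⟩)
          (by rw [abs_le]; constructor <;> simp <;> omega)
      · right
        refine hnot _ ?_ ?_
        · rw [abs_le]; simp [vec]; omega
        · rw [abs_le]; simp [vec]; omega
    have := jump_zero hl (x := (i, j + 1)) (d := 1) hx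
    simpa [fc] using this
  have hH : ∀ n : ℕ, ((n : ℤ) ≤ R → wind ((n : ℤ), 0) l g e = wind (0, 0) l g e) ∧
      ((n : ℤ) ≤ R + 1 → wind (-(n : ℤ), 0) l g e = wind (0, 0) l g e) := by
    intro n
    induction n with
    | zero => simp
    | succ n ih =>
      constructor
      · intro hn
        push_cast at hn ⊢
        rw [hstepH n (by omega) hn]
        exact ih.1 (by omega)
      · intro hn
        push_cast at hn ⊢
        have h1 := hstepH (-((n : ℤ) + 1)) (by omega) (by omega)
        rw [show -((n : ℤ) + 1) + 1 = -(n : ℤ) by ring] at h1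
        rw [← h1]
        exact ih.2 (by omega)
  have hH' : ∀ i : ℤ, -R - 1 ≤ i → i ≤ R → wind (i, 0) l g e = wind (0, 0) l g e := by
    intro i h1 h2
    rcases le_or_gt 0 i with h | h
    · obtain ⟨n, rfl⟩ := Int.eq_ofNat_of_zero_le h
      exact (hH n).1 h2
    · obtain ⟨n, hn⟩ := Int.eq_ofNat_of_zero_le (show 0 ≤ -i by omega)
      have : i = -(n : ℤ) := by omega
      rw [this]
      exact (hH n).2 (by omega)
  have hV : ∀ i : ℤ, -R - 1 ≤ i → i ≤ R → ∀ n : ℕ,
      ((n : ℤ) ≤ R → wind (i, (n : ℤ)) l g e = wind (i, 0) l g e) ∧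
      ((n : ℤ) ≤ R + 1 → wind (i, -(n : ℤ)) l g e = wind (i, 0) l g e) := by
    intro i h1 h2 n
    induction n with
    | zero => simp
    | succ n ih =>
      constructor
      · intro hn
        push_cast at hn ⊢
        rw [← hstepV i n h1 h2 (by omega) hn]
        exact ih.1 (by omega)
      · intro hn
        push_cast at hn ⊢
        have h3 := hstepV i (-((n : ℤ) + 1)) h1 h2 (by omega) (by omega)
        rw [show -((n : ℤ) + 1) + 1 = -(n : ℤ) by ring] at h3
        rw [h3]
        exact ih.2 (by omega)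
  have hall : ∀ i j : ℤ, -R - 1 ≤ i → i ≤ R → -R - 1 ≤ j → j ≤ R →
      wind (i, j) l g e = wind (0, 0) l g e := by
    intro i j h1 h2 h3 h5
    rw [← hH' i h1 h2]
    rcases le_or_gt 0 j with h | h
    · obtain ⟨n, rfl⟩ := Int.eq_ofNat_of_zero_le h
      exact (hV i h1 h2 n).1 h5
    · obtain ⟨n, hn⟩ := Int.eq_ofNat_of_zero_le (show 0 ≤ -j by omega)
      have : j = -(n : ℤ) := by omega
      rw [this]
      exact (hV i h1 h2 n).2 (by omega)
  rw [abs_le] at hx1 hx2
  have hfc : wind (fc x d) l g e = wind (0, 0) l g e := by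
    fin_cases d
    · exact hall x.1 x.2 (by omega) (by omega) (by omega) (by omega)
    · exact hall x.1 (x.2 - 1) (by omega) (by omega) (by omega) (by omega)
    · exact hall (x.1 - 1) (x.2 - 1) (by omega) (by omega) (by omega) (by omega)
    · exact hall (x.1 - 1) x.2 (by omega) (by omega) (by omega) (by omega)
  rw [hfc]
  exact hw

end Pool.Agent.Rotor2
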