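import Pool.Agent.Rotor2.Cert
import Pool.Agent.Rotor2.Wind
import Pool.Agent.Rotor2.Prob
import Pool.Agent.Rotor2.FourC

/-!
# Almost sure recurrence for the clockwise mechanism

`finite_ann`: `Ann R R'` is finite (contained in a box); let `An R : Finset Site` be `Ann R (8R+20)`.
`circ_rot`: by `circ_prob` and `prob_le`: `c ≤ Q {ω | Circ (Ann R (8R+20)) (OW (ρ · ω))}` for `R ≥ 0`.
Let `rad R 0 = R`, `rad R (j+1) = 8 * rad R j + 20`; `rad R j ≥ R ≥ 0`, increasing.  The annuli
`A j = Ann (rad R j) (rad R (j+1))` are pairwise disjoint (for `i < j`, `x ∈ A i` has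
`|x.1|, |x.2| ≤ rad R (i+1) ≤ rad R j`).  The event `E j = {ω | Circ (A j) (OW (ρ · ω))}` depends only on
`ρ x`, `x ∈ A j` (`Circ A O` only looks at `O` at sites of `A`: if `O` and `O'` contain the same
edges with tail in `A` then `Circ A O ↔ Circ A O'`), so by independence of the tuples
`(ρ x)_{x ∈ A j}` (`iIndepFun.finsets` and `iIndepFun.comp`, or `iIndepFun.finsets_comp`; or induction
with `iIndepFun.indepFun_finset` for the union of the first annuli and the next one)
`Q (⋂_{j<m} (E j)ᶜ) = ∏_{j<m} (1 - Q (E j)) ≤ (1 - c) ^ m`.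
Hence for every `R : ℕ` almost surely some `E j` occurs (`measure_mono_null` / the probability of
`⋂_j (E j)ᶜ` is `≤ (1-c)^m` for all `m`, which tends to `0`, `ENNReal.tendsto_pow_atTop_nhds_zero_of_lt_one`).
If `E j` occurs, `cert_of_circ` (with `rad R j ≥ 0`) gives a certificate which is `4` on
the box of radius `rad R j ≥ R`.  Countably many `R` (`ae_all_iff`), then `visits_of_cert`.
-/

namespace Pool.Agent.Rotor2

open MeasureTheory ProbabilityTheory

variable {Ω : Type*} [MeasurableSpace Ω] {Q : Measure Ω} [IsProbabilityMeasure Q]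
  {ρ : Site → Ω → Fin 4}

private theorem circ_imp_Fin {A : Set Site} {O O' : Set (Site × Fin 4)}
    (h : ∀ x ∈ A, ∀ d, (x, d) ∈ O → (x, d) ∈ O') (hc : Circ A O) : Circ A O' := by
  obtain ⟨l, g, e, hl, hw⟩ := hc
  exact ⟨l, g, e, ⟨hl.step, fun t ht => h _ (hl.mem t ht) _ (hl.opn t ht), hl.mem, hl.closed⟩, hw⟩

private theorem finite_ann (R R' : ℤ) : (Ann R R').Finite :=
  ((Set.finite_Icc (-R') R').prod (Set.finite_Icc (-R') R')).subset fun x hx =>
    ⟨abs_le.1 hx.2.1, abs_le.1 hx.2.2⟩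

/-- Extension by `0`. -/
private def ext0 (S : Finset Site) (v : ↥S → Fin 4) (x : Site) : Fin 4 :=
  if h : x ∈ S then v ⟨x, h⟩ else 0

private theorem indep_two (hρ : IsUnif Q ρ) (S T : Finset Site) (hd : Disjoint S T)
    (G G' : (Site → Fin 4) → Prop) (hG : ∀ r r', (∀ x ∈ S, r x = r' x) → G r → G r')
    (hG' : ∀ r r', (∀ x ∈ T, r x = r' x) → G' r → G' r') :
    Q {ω | G (fun x => ρ x ω) ∧ G' (fun x => ρ x ω)} =
      Q {ω | G (fun x => ρ x ω)} * Q {ω | G' (fun x => ρ x ω)} := by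
  have key : ∀ (U : Finset Site) (K : (Site → Fin 4) → Prop),
      (∀ r r', (∀ x ∈ U, r x = r' x) → K r → K r') →
      {ω | K (fun x => ρ x ω)} =
        (fun ω (i : ↥U) => ρ i ω) ⁻¹' {v : ↥U → Fin 4 | K (ext0 U v)} := by
    intro U K hK
    ext ω
    constructor
    · intro h
      refine hK _ _ (fun x hx => ?_) h
      simp [ext0, hx]
    · intro h
      refine hK _ _ (fun x hx => ?_) h
      simp [ext0, hx]
  have h1 := key S G hG
  have h2 := key T G' hG'
  have h3 : {ω | G (fun x => ρ x ω) ∧ G' (fun x => ρ x ω)} =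
      {ω | G (fun x => ρ x ω)} ∩ {ω | G' (fun x => ρ x ω)} := rfl
  rw [h3, h1, h2]
  exact (hρ.indep.indepFun_finset S T hd hρ.meas).measure_inter_preimage_eq_mul _ _
    (Set.toFinite _).measurableSet (Set.toFinite _).measurableSet

/-- The radii. -/
private def rad (R : ℤ) : ℕ → ℤ
  | 0 => R
  | j + 1 => 8 * rad R j + 20

private theorem rad_ge {R : ℤ} (hR : 0 ≤ R) (j : ℕ) : R ≤ rad R j := by
  induction j with
  | zero => exact le_rfl
  | succ j ih =>
    show R ≤ 8 * rad R j + 20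
    omega

private theorem rad_mono {R : ℤ} (hR : 0 ≤ R) {i j : ℕ} (h : i ≤ j) : rad R i ≤ rad R j := by
  induction h with
  | refl => exact le_rfl
  | @step m _ ih =>
    have h1 := rad_ge hR m
    refine ih.trans ?_
    show rad R m ≤ 8 * rad R m + 20
    omega

/-- No circuit in the first `m` annuli. -/
private def NoC (R : ℤ) (m : ℕ) (r : Site → Fin 4) : Prop :=
  ∀ j < m, ¬ Circ (Ann (rad R j) (8 * rad R j + 20)) (OW r)

private theorem noC_prob (hρ : IsUnif Q ρ) {c : ENNReal}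
    (hc : ∀ R : ℤ, 0 ≤ R → c ≤ TriPerc.P {w | Circ (Ann R (8 * R + 20)) (OB w)}) {R : ℤ}
    (hR : 0 ≤ R) (m : ℕ) : Q {ω | NoC R m (fun x => ρ x ω)} ≤ (1 - c) ^ m := by
  induction m with
  | zero => simpa using prob_le_one
  | succ m ih =>
    set S : Finset Site := Finset.Icc (-(rad R m)) (rad R m) ×ˢ Finset.Icc (-(rad R m)) (rad R m)
      with hS
    set T : Finset Site := (finite_ann (rad R m) (8 * rad R m + 20)).toFinset with hT
    have hTc : (T : Set Site) = Ann (rad R m) (8 * rad R m + 20) :=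
      (finite_ann _ _).coe_toFinset
    have hTm : ∀ x, x ∈ T ↔ x ∈ Ann (rad R m) (8 * rad R m + 20) := fun x =>
      (finite_ann _ _).mem_toFinset
    have hd : Disjoint S T := by
      refine Finset.disjoint_left.2 fun x hx hx' => ?_
      rw [hTm] at hx'
      rw [hS, Finset.mem_product, Finset.mem_Icc, Finset.mem_Icc] at hx
      rcases hx'.1 with h | h
      · exact absurd (abs_le.2 hx.1) (not_le.2 h)
      · exact absurd (abs_le.2 hx.2) (not_le.2 h)
    have e : {ω | NoC R (m + 1) (fun x => ρ x ω)} =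
        {ω | NoC R m (fun x => ρ x ω) ∧
          ¬ Circ (Ann (rad R m) (8 * rad R m + 20)) (OW fun x => ρ x ω)} := by
      ext ω
      constructor
      · intro h
        exact ⟨fun j hj => h j (by omega), h m (by omega)⟩
      · rintro ⟨h, h'⟩ j hj
        rcases Nat.lt_succ_iff_lt_or_eq.1 hj with h1 | h1
        · exact h j h1
        · rw [h1]
          exact h'
    have hG : ∀ r r' : Site → Fin 4, (∀ x ∈ S, r x = r' x) → NoC R m r → NoC R m r' := by
      intro r r' hrr h j hj hcirc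
      refine h j hj (circ_imp_Fin (fun x hx d hxd => ?_) hcirc)
      have h1 : rad R (j + 1) ≤ rad R m := rad_mono hR hj
      have h2 : x ∈ S := by
        rw [hS, Finset.mem_product, Finset.mem_Icc, Finset.mem_Icc]
        have h3 : 8 * rad R j + 20 ≤ rad R m := h1
        exact ⟨abs_le.1 (hx.2.1.trans h3), abs_le.1 (hx.2.2.trans h3)⟩
      have h4 : Opn r' x d := hxd
      show r x = d ∨ r x = d + 1
      rw [hrr x h2]
      exact h4
    have hG' : ∀ r r' : Site → Fin 4, (∀ x ∈ T, r x = r' x) →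
        ¬ Circ (Ann (rad R m) (8 * rad R m + 20)) (OW r) →
        ¬ Circ (Ann (rad R m) (8 * rad R m + 20)) (OW r') := by
      intro r r' hrr h hcirc
      refine h (circ_imp_Fin (fun x hx d hxd => ?_) hcirc)
      have h4 : Opn r' x d := hxd
      show r x = d ∨ r x = d + 1
      rw [hrr x ((hTm x).2 hx)]
      exact h4
    rw [e, indep_two hρ S T hd (NoC R m)
      (fun r => ¬ Circ (Ann (rad R m) (8 * rad R m + 20)) (OW r)) hG hG', pow_succ]
    refine mul_le_mul' ih ?_
    have hmeas := meas_w hρ T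
    have hle := prob_le hρ T
    rw [hTc] at hmeas hle
    have h5 : c ≤ Q {ω | Circ (Ann (rad R m) (8 * rad R m + 20)) (OW fun x => ρ x ω)} :=
      (hc _ (hR.trans (rad_ge hR m))).trans hle
    have h6 : {ω | ¬ Circ (Ann (rad R m) (8 * rad R m + 20)) (OW fun x => ρ x ω)} =
        {ω | Circ (Ann (rad R m) (8 * rad R m + 20)) (OW fun x => ρ x ω)}ᶜ := rfl
    rw [h6, prob_compl_eq_one_sub hmeas]
    exact tsub_le_tsub_left h5 1

theorem recurrent_cw (hρ : IsUnif Q ρ) :
    ∀ᵐ ω ∂Q, ∀ (y : Site) (T : ℕ), ∃ t ≥ T, walk (fun d => d + 1) (fun x => ρ x ω) t = y := by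
  obtain ⟨c, hc0, hc⟩ := circ_prob
  have h1 : ∀ R : ℕ, ∀ᵐ ω ∂Q, ∃ j,
      Circ (Ann (rad R j) (8 * rad R j + 20)) (OW fun x => ρ x ω) := by
    intro R
    rw [ae_iff]
    have h2 : ∀ m : ℕ, Q {ω | ¬ ∃ j, Circ (Ann (rad R j) (8 * rad R j + 20))
        (OW fun x => ρ x ω)} ≤ (1 - c) ^ m := by
      intro m
      refine le_trans (measure_mono ?_) (noC_prob hρ hc (Int.natCast_nonneg R) m)
      intro ω hω j _ h
      exact hω ⟨j, h⟩
    have h3 : (1 - c : ENNReal) < 1 := ENNReal.sub_lt_self ENNReal.one_ne_top one_ne_zero hc0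
    have h4 := ENNReal.tendsto_pow_atTop_nhds_zero_of_lt_one h3
    exact le_antisymm (ge_of_tendsto' h4 h2) bot_le
  filter_upwards [ae_all_iff.2 h1] with ω hω y T
  refine visits_of_cert _ (fun R => ?_) y T
  obtain ⟨j, hj⟩ := hω R
  have hR : (0 : ℤ) ≤ R := Int.natCast_nonneg R
  obtain ⟨c', h5, h6⟩ := cert_of_circ _ _ _ (hR.trans (rad_ge hR j)) hj
  exact ⟨c', h5, fun x hx hx' => h6 x (hx.trans (rad_ge hR j)) (hx'.trans (rad_ge hR j))⟩

end Pool.Agent.Rotor2
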