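import Pool.Agent.Rotor2.Defs
import Pool.Agent.TriPerc.Pth

/-!
# Lattice paths from paths in the triangular lattice

A vertex `(a, b)` of the triangular lattice has doubled coordinates `(p, q) = (a, a + b)`; it is a
site of `ℤ²` if `p, q` are even (i.e. `a, b` even), a face if `p, q` are odd (`a` odd, `b` even),
and a bond if `p + q` is odd (`b` odd).  `X v = p + q`, `v.2 = q - p`. `Typ O`: the set `O`
contains no faces.  `kap v = (p / 2, q / 2)` (rounded down): for a site it is the site, for a bond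
its left or lower end. `Pth S x y k`: there is a lattice path from `x` to `y` along edges whose
midpoints (`midT`) are in `S`, with signed number of crossings (`sg (0,0)`) equal to `k`.

* `pth_refl` (length 0), `pth_trans` (concatenate: `g t = if t < l then g1 t else g2 (t - l)`, the
  same for `e`; `Finset.sum_range_add` or `Finset.range_eq_Ico`), `pth_step`: if `midT x d ∈ S`
  then `Pth S x (x + vec d) (sg (0,0) x d)` (length 1).
* `pth_adj`: if `u, v ∈ O`, `Typ O`, `Adj u v`, `u, v ∈ S` then `∃ k, Pth (O ∩ S) (kap u) (kap v)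
  k`. PROOF.  A site `u = (a, b)`, `a, b` even: its neighbours `(a, b+1)`, `(a, b-1)`, `(a+1,
  b-1)`, `(a-1, b+1)` are the bonds north, south, east, west of `kap u`; `(a+1, b)`, `(a-1, b)`
  are faces (not in `O`).  `kap` of the bond is `kap u` for north, east, and the other end (one
  step along the bond: `midT (kap u) d = v`) for south, west.  The case `v` a site, `u` a bond:
  the same, with the step in the other direction (`midT_rev`). Both bonds (`b` odd; then `v.2 = b`
  since vertical neighbours have even row): `v = (a+1, b)` or `u = (v.1 + 1, v.2)`.  Let `v =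
  (a+1, b)`.  `u` has doubled coordinates `(p, q)`, `v` has `(p+1, q+1)`.  If `p` is odd, `q`
  even: `u` is a horizontal bond from `kap u = ((p-1)/2, q/2)` east to `kap v = ((p+1)/2, q/2)`;
  `v` is the bond north of `kap v`.  One step.  If `p` is even, `q` odd: `u` is the vertical bond
  from `kap u = (p/2, (q-1)/2)` north to `(p/2, (q+1)/2)`, `v` is the bond east of this site, and
  `kap v = (p/2, (q+1)/2)`.  One step. The other case by symmetry (reverse steps).
* `pth_of_conn`: induction on `Relation.ReflTransGen` (all vertices of the path are in `O ∩ S`).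
* `sg_upper`: if all midpoints are in `{v | 3 ≤ X v ∨ 1 ≤ v.2}`, the sum is `h x - h y` where `h z
  = if z.1 ≤ 0 then 1 else 0`.  PROOF.  Termwise `sg (0,0) z d = h z - h (z + vec d)`: for `d = 0,
  2` both sides are `0`.  For `d = 1` the right-hand side is `1` iff `z.1 = 0`; then `midT z 1 =
  (1, 2 z.2 - 1)`, `X = 2 z.2 + 1`, so `z.2 ≥ 1`. For `d = 3` it is `-1` iff `z.1 = 1`; `midT z 3
  = (1, 2 z.2 - 1)`, the same.
* `sg_lower`: if all midpoints are in `{v | X v ≤ 1 ∨ v.2 ≤ -1}`, all terms are `0`: `sg ≠ 0`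
  requires `z.1 = 0, d = 1, z.2 ≥ 1` or `z.1 = 1, d = 3, z.2 ≥ 1`, whose midpoint `(1, 2 z.2 - 1)`
  has `X ≥ 3` and row `≥ 1`.
-/

namespace Pool.Agent.Rotor2

/-- No faces. -/
def Typ (O : Set (ℤ × ℤ)) : Prop := ∀ v ∈ O, (v.1 % 2 = 0 ∧ v.2 % 2 = 0) ∨ v.2 % 2 = 1

/-- The site of a vertex of the triangular lattice. -/
def kap (v : ℤ × ℤ) : Site := (v.1 / 2, (v.1 + v.2) / 2)

/-- Lattice path from `x` to `y` along edges with midpoint in `S` and signed crossing number `k`. -/
def Pth (S : Set (ℤ × ℤ)) (x y : Site) (k : ℤ) : Prop :=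
  ∃ (l : ℕ) (g : ℕ → Site) (e : ℕ → Fin 4), g 0 = x ∧ g l = y ∧
    (∀ t < l, g (t + 1) = g t + vec (e t)) ∧ (∀ t < l, midT (g t) (e t) ∈ S) ∧
    ∑ t ∈ Finset.range l, sg (0, 0) (g t) (e t) = k

variable {O S : Set (ℤ × ℤ)} {x y z : Site} {j k : ℤ} {u v : ℤ × ℤ}

theorem pth_refl : Pth S x x 0 :=
  ⟨0, fun _ => x, fun _ => 0, rfl, rfl, by simp, by simp, by simp⟩

theorem pth_trans (h : Pth S x y j) (h' : Pth S y z k) : Pth S x z (j + k) := by
  obtain ⟨l, g, e, h0, hl, hs, hm, hsum⟩ := h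
  obtain ⟨l', g', e', h0', hl', hs', hm', hsum'⟩ := h'
  have hg1 : ∀ t ≤ l, (fun t => if t ≤ l then g t else g' (t - l)) t = g t := fun t ht =>
    if_pos ht
  have hg2 : ∀ s, (fun t => if t ≤ l then g t else g' (t - l)) (l + s) = g' s := by
    intro s
    rcases Nat.eq_zero_or_pos s with rfl | hs0
    · change (if l ≤ l then g l else _) = _
      rw [if_pos le_rfl, hl, h0']
    · change (if l + s ≤ l then _ else g' (l + s - l)) = _
      rw [if_neg (by omega), Nat.add_sub_cancel_left]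
  have he1 : ∀ t < l, (fun t => if t < l then e t else e' (t - l)) t = e t := fun t ht =>
    if_pos ht
  have he2 : ∀ s, (fun t => if t < l then e t else e' (t - l)) (l + s) = e' s := by
    intro s
    change (if l + s < l then _ else e' (l + s - l)) = _
    rw [if_neg (by omega), Nat.add_sub_cancel_left]
  generalize (fun t => if t ≤ l then g t else g' (t - l)) = G at hg1 hg2
  generalize (fun t => if t < l then e t else e' (t - l)) = E at he1 he2
  have hcase : ∀ t < l + l', t < l ∨ ∃ s < l', t = l + s := by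
    intro t ht
    rcases lt_or_ge t l with h1 | h1
    · exact Or.inl h1
    · exact Or.inr ⟨t - l, by omega, by omega⟩
  refine ⟨l + l', G, E, ?_, ?_, ?_, ?_, ?_⟩
  · rw [hg1 0 (Nat.zero_le _), h0]
  · rw [hg2, hl']
  · intro t ht
    rcases hcase t ht with h1 | ⟨s, hs1, rfl⟩
    · rw [hg1 t h1.le, hg1 (t + 1) h1, he1 t h1]
      exact hs t h1
    · rw [hg2 s, he2 s, add_assoc, hg2 (s + 1)]
      exact hs' s hs1
  · intro t ht
    rcases hcase t ht with h1 | ⟨s, hs1, rfl⟩
    · rw [hg1 t h1.le, he1 t h1]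
      exact hm t h1
    · rw [hg2 s, he2 s]
      exact hm' s hs1
  · rw [Finset.sum_range_add, ← hsum, ← hsum']
    congr 1
    · refine Finset.sum_congr rfl fun t ht => ?_
      have h1 := Finset.mem_range.1 ht
      rw [hg1 t h1.le, he1 t h1]
    · refine Finset.sum_congr rfl fun t _ => ?_
      rw [hg2 t, he2 t]

private theorem pth_step {d : Fin 4} (h : midT x d ∈ S) :
    Pth S x (x + vec d) (sg (0, 0) x d) := by
  refine ⟨1, fun t => if t = 0 then x else x + vec d, fun _ => d, rfl, rfl, ?_, ?_, ?_⟩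
  · intro t ht
    have h1 : t = 0 := by omega
    subst h1
    rfl
  · intro t ht
    have h1 : t = 0 := by omega
    subst h1
    exact h
  · rw [Finset.sum_range_one]
    rfl

private theorem kap_cases (hu : (u.1 % 2 = 0 ∧ u.2 % 2 = 0) ∨ u.2 % 2 = 1) :
    ∃ m n : ℤ, kap u = (m, n) ∧ ((u.1 = 2 * m ∧ u.2 = 2 * n - 2 * m) ∨
      (u.1 = 2 * m ∧ u.2 = 2 * n + 1 - 2 * m) ∨ (u.1 = 2 * m + 1 ∧ u.2 = 2 * n - 2 * m - 1)) := by
  refine ⟨u.1 / 2, (u.1 + u.2) / 2, rfl, ?_⟩
  omega

private theorem kap_adj (hu : (u.1 % 2 = 0 ∧ u.2 % 2 = 0) ∨ u.2 % 2 = 1)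
    (hv : (v.1 % 2 = 0 ∧ v.2 % 2 = 0) ∨ v.2 % 2 = 1) (h : TriPerc.Adj u v) :
    kap v = kap u ∨ ∃ d : Fin 4, kap v = kap u + vec d ∧
      (midT (kap u) d = u ∨ midT (kap u) d = v) := by
  obtain ⟨m, n, hk, hu'⟩ := kap_cases hu
  obtain ⟨m', n', hk', hv'⟩ := kap_cases hv
  clear hu hv
  rw [hk, hk']
  obtain ⟨a, b⟩ := u
  obtain ⟨c, f⟩ := v
  unfold TriPerc.Adj at h
  simp only at h hu' hv'
  have key : ∀ d : Fin 4, ∀ p q : ℤ, vec d = (p, q) → m' = m + p → n' = n + q →
      ((2 * m + p = a ∧ 2 * n + q - (2 * m + p) = b) ∨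
        (2 * m + p = c ∧ 2 * n + q - (2 * m + p) = f)) →
      ((m', n') : ℤ × ℤ) = (m, n) ∨ ∃ d : Fin 4, ((m', n') : ℤ × ℤ) = (m, n) + vec d ∧
      (midT (m, n) d = (a, b) ∨ midT (m, n) d = (c, f)) := by
    intro d p q hd h1 h2 hh
    refine Or.inr ⟨d, ?_, ?_⟩
    · rw [hd]
      exact Prod.ext h1 h2
    · rcases hh with h3 | h3
      · left
        unfold midT
        rw [hd]
        exact Prod.ext h3.1 h3.2
      · right
        unfold midT
        rw [hd]
        exact Prod.ext h3.1 h3.2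
  by_cases hmn : m' = m ∧ n' = n
  · exact Or.inl (Prod.ext hmn.1 hmn.2)
  have hd : (m' = m ∧ n' = n + 1) ∨ (m' = m + 1 ∧ n' = n) ∨ (m' = m ∧ n' = n - 1) ∨
      (m' = m - 1 ∧ n' = n) := by
    rcases hu' with h1 | h1 | h1 <;> rcases hv' with h2 | h2 | h2 <;> omega
  rcases hd with hd | hd | hd | hd
  · refine key 0 0 1 rfl (by omega) hd.2 ?_
    clear key hmn
    rcases hu' with h1 | h1 | h1 <;> rcases hv' with h2 | h2 | h2 <;> omega
  · refine key 1 1 0 rfl hd.1 (by omega) ?_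
    clear key hmn
    rcases hu' with h1 | h1 | h1 <;> rcases hv' with h2 | h2 | h2 <;> omega
  · refine key 2 0 (-1) rfl (by omega) (by omega) ?_
    clear key hmn
    rcases hu' with h1 | h1 | h1 <;> rcases hv' with h2 | h2 | h2 <;> omega
  · refine key 3 (-1) 0 rfl (by omega) (by omega) ?_
    clear key hmn
    rcases hu' with h1 | h1 | h1 <;> rcases hv' with h2 | h2 | h2 <;> omega

theorem pth_of_conn (hO : Typ O) (h : TriPerc.Conn (O ∩ S) u v) :
    ∃ k, Pth (O ∩ S) (kap u) (kap v) k := by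
  obtain ⟨hu, h⟩ := h
  suffices hh : v ∈ O ∩ S ∧ ∃ k, Pth (O ∩ S) (kap u) (kap v) k from hh.2
  induction h with
  | refl => exact ⟨hu, 0, pth_refl⟩
  | tail _ hbc ih =>
    obtain ⟨hb, k, hk⟩ := ih
    obtain ⟨hadj, hc⟩ := hbc
    refine ⟨hc, ?_⟩
    rcases kap_adj (hO _ hb.1) (hO _ hc.1) hadj with h1 | ⟨d, h1, h2⟩
    · rw [h1]
      exact ⟨k, hk⟩
    · rw [h1]
      refine ⟨_, pth_trans hk (pth_step (d := d) ?_)⟩
      rcases h2 with h2 | h2
      · rw [h2]
        exact hb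
      · rw [h2]
        exact hc

theorem sg_upper (h : Pth S x y k) (hS : ∀ v ∈ S, 3 ≤ TriPerc.X v ∨ 1 ≤ v.2) :
    k = (if x.1 ≤ 0 then 1 else 0) - (if y.1 ≤ 0 then 1 else 0) := by
  obtain ⟨l, g, e, rfl, rfl, hs, hm, rfl⟩ := h
  rw [← Finset.sum_range_sub' (fun t => if (g t).1 ≤ 0 then (1 : ℤ) else 0) l]
  refine Finset.sum_congr rfl fun t ht => ?_
  have h1 := Finset.mem_range.1 ht
  have h2 := hS _ (hm t h1)
  change sg (0, 0) (g t) (e t) =
    (if (g t).1 ≤ 0 then (1 : ℤ) else 0) - (if (g (t + 1)).1 ≤ 0 then 1 else 0)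
  rw [hs t h1]
  generalize g t = z at h2
  generalize e t = d at h2
  obtain ⟨a, b⟩ := z
  unfold TriPerc.X midT at h2
  unfold sg
  fin_cases d <;> simp [vec] at h2 ⊢ <;> split_ifs <;> omega

theorem sg_lower (h : Pth S x y k) (hS : ∀ v ∈ S, TriPerc.X v ≤ 1 ∨ v.2 ≤ -1) : k = 0 := by
  obtain ⟨l, g, e, rfl, rfl, hs, hm, rfl⟩ := h
  refine Finset.sum_eq_zero fun t ht => ?_
  have h1 := Finset.mem_range.1 ht
  have h2 := hS _ (hm t h1)
  generalize g t = z at h2
  generalize e t = d at h2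
  obtain ⟨a, b⟩ := z
  unfold TriPerc.X midT at h2
  unfold sg
  fin_cases d <;> simp [vec] at h2 ⊢ <;> omega

end Pool.Agent.Rotor2
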