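import Pool.Agent.Rotor2.FourA
import Pool.Agent.TriPerc.Rect

/-!
# Four crossings give a circuit

`O` contains no faces (`Typ O`), `10 ≤ N`, `4 R + 10 ≤ N`, `0 ≤ R`.  The four rectangles:
`R1 = Rec N (3N) (-3N) (3N)` (crossed vertically), `R2 = Rec (-3N) (3N) N (3N)` (horizontally),
`R3 = Rec (-3N) (-N) (-3N) (3N)` (vertically), `R4 = Rec (-3N) (3N) (-3N) (-N)` (horizontally).

PROOF of `circ_of_four`.  Let `C1` be the component in `O ∩ R1` of the first vertex of the vertical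
crossing of `R1` (`comp`); it contains the whole crossing (`Conn.in_comp`), so `VC C1 N (3N) (-3N) (3N)`;
similarly `C2, C3, C4`.  Corner squares: `Q12 = Rec N (3N) N (3N)`.
`hc_sub` (or `HC C2 N (3N) N (3N)`) and `vc_sub` (`VC C1 N (3N) N (3N)`), then `hc_meet_vc` gives a vertex
`z12 ∈ C1 ∩ C2` in `Q12`.  In the same way `z14 ∈ C1 ∩ C4` in `Rec N (3N) (-3N) (-N)`,
`z34 ∈ C3 ∩ C4` in `Rec (-3N) (-N) (-3N) (-N)`, `z23 ∈ C2 ∩ C3` in `Rec (-3N) (-N) N (3N)`.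
So `Conn (O ∩ R2) z23 z12`, `Conn (O ∩ R1) z12 z14`, `Conn (O ∩ R4) z14 z34`, `Conn (O ∩ R3) z34 z23`.
By `pth_of_conn` there are lattice paths from `kap z23` to `kap z12` with midpoints in `O ∩ R2`, from
`kap z12` to `kap z14` with midpoints in `O ∩ R1`, and so on.  By `sg_upper` (`R1, R2` are in
`{3 ≤ X ∨ 1 ≤ row}`) the crossing numbers of the first two sum up to
`[(kap z23).1 ≤ 0] - [(kap z14).1 ≤ 0] = 1 - 0`: for `z = z23`, `X z ≤ -N`, `z.2 ≥ N`, so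
`2 z.1 = X z - z.2 ≤ -2N` and `z.1 / 2 ≤ 0`; for `z = z14`, `2 z.1 = X z - z.2 ≥ 2N`, `z.1 ≥ 10`, so
`z.1 / 2 ≥ 1`.  By `sg_lower` the crossing numbers of the last two are `0` (`R3, R4` are in
`{X ≤ 1 ∨ row ≤ -1}`).  Concatenate (`pth_trans`, after enlarging the sets of midpoints to
`O ∩ {v | (N ≤ |X v| ∨ N ≤ |v.2|) ∧ |X v| ≤ 3N ∧ |v.2| ≤ 3N}`): a closed lattice path
with `wind (0,0) = 1`.
Its sites are in `Ann R (2N)`: let `x = g t`, `v = midT x (e t)`, `(p, q)` the doubled coordinates of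
`v`, so `|p - 2 x.1| + |q - 2 x.2| = 1`, `X v = p + q`, `v.2 = q - p`.  If `|x.1| ≤ R` and `|x.2| ≤ R` then
`|p| + |q| ≤ 4 R + 1 < N`, so `|X v|, |v.2| < N`, contradiction.  And
`2 |p| = |X v - v.2| ≤ 6 N`, `2 |q| ≤ 6 N`, so `|x.1|, |x.2| ≤ (3 N + 1) / 2 ≤ 2 N`.
-/

namespace Pool.Agent.Rotor2

/-- The directed edges whose midpoint is in `O`. -/
def OE (O : Set (ℤ × ℤ)) : Set (Site × Fin 4) := {p | midT p.1 p.2 ∈ O}

private theorem vc_comp {O : Set (ℤ × ℤ)} {l r b t : ℤ} (h : TriPerc.VC O l r b t) :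
    ∃ u, TriPerc.VC (TriPerc.comp (O ∩ TriPerc.Rec l r b t) u) l r b t := by
  obtain ⟨u, hu, v, hv, h⟩ := h
  refine ⟨u, u, hu, v, hv, h.in_comp.mono fun z hz => ⟨hz, (TriPerc.comp_subset hz).2⟩⟩

private theorem hc_comp {O : Set (ℤ × ℤ)} {l r b t : ℤ} (h : TriPerc.HC O l r b t) :
    ∃ u, TriPerc.HC (TriPerc.comp (O ∩ TriPerc.Rec l r b t) u) l r b t := by
  obtain ⟨u, hu, v, hv, h⟩ := h
  refine ⟨u, u, hu, v, hv, h.in_comp.mono fun z hz => ⟨hz, (TriPerc.comp_subset hz).2⟩⟩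

private theorem corner {S T : Set (ℤ × ℤ)} {l r b t : ℤ} (h : TriPerc.HC S l r b t)
    (h' : TriPerc.VC T l r b t) : ∃ z, z ∈ S ∧ z ∈ T ∧ z ∈ TriPerc.Rec l r b t := by
  obtain ⟨z, ⟨_, _, w, hw, h1⟩, -, ⟨_, _, w', hw', h2⟩, -⟩ := TriPerc.hc_meet_vc h h'
  have e1 : w = z := hw
  have e2 : w' = z := hw'
  rw [e1] at h1
  rw [e2] at h2
  exact ⟨z, h1.right.1, h2.right.1, h1.right.2⟩

private theorem pth_mono {S T : Set (ℤ × ℤ)} {x y : Site} {k : ℤ} (h : Pth S x y k)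
    (hST : S ⊆ T) : Pth T x y k := by
  obtain ⟨l, g, e, h0, hl, h1, h2, h3⟩ := h
  exact ⟨l, g, e, h0, hl, h1, fun t ht => hST (h2 t ht), h3⟩

private theorem ann_of_mid {N R : ℤ} (hN : 10 ≤ N) (hR : 0 ≤ R) (hRN : 4 * R + 10 ≤ N)
    {x : Site} {d : Fin 4}
    (h : (N ≤ |TriPerc.X (midT x d)| ∨ N ≤ |(midT x d).2|) ∧ |TriPerc.X (midT x d)| ≤ 3 * N ∧
      |(midT x d).2| ≤ 3 * N) : x ∈ Ann R (2 * N) := by
  have hd : ((vec d).1 = 0 ∧ (vec d).2 = 1) ∨ ((vec d).1 = 1 ∧ (vec d).2 = 0) ∨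
      ((vec d).1 = 0 ∧ (vec d).2 = -1) ∨ ((vec d).1 = -1 ∧ (vec d).2 = 0) := by
    fin_cases d <;> simp [vec]
  change (R < |x.1| ∨ R < |x.2|) ∧ |x.1| ≤ 2 * N ∧ |x.2| ≤ 2 * N
  unfold TriPerc.X midT at h
  simp only [le_abs, abs_le] at h
  simp only [lt_abs, abs_le]
  rcases hd with ⟨h1, h2⟩ | ⟨h1, h2⟩ | ⟨h1, h2⟩ | ⟨h1, h2⟩ <;> rw [h1, h2] at h <;> omega

theorem circ_of_four {O : Set (ℤ × ℤ)} (hO : Typ O) {N R : ℤ} (hN : 10 ≤ N) (hR : 0 ≤ R)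
    (hRN : 4 * R + 10 ≤ N)
    (h1 : TriPerc.VC O N (3 * N) (-(3 * N)) (3 * N))
    (h2 : TriPerc.HC O (-(3 * N)) (3 * N) N (3 * N))
    (h3 : TriPerc.VC O (-(3 * N)) (-N) (-(3 * N)) (3 * N))
    (h4 : TriPerc.HC O (-(3 * N)) (3 * N) (-(3 * N)) (-N)) :
    Circ (Ann R (2 * N)) (OE O) := by
  obtain ⟨u1, c1⟩ := vc_comp h1
  obtain ⟨u2, c2⟩ := hc_comp h2
  obtain ⟨u3, c3⟩ := vc_comp h3
  obtain ⟨u4, c4⟩ := hc_comp h4
  obtain ⟨z12, a1, a2, a3⟩ := corner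
    (TriPerc.hc_sub (l' := N) (r' := 3 * N) (by omega) le_rfl (by omega) c2)
    (TriPerc.vc_sub (b' := N) (t' := 3 * N) (by omega) le_rfl (by omega) c1)
  obtain ⟨z14, b1, b2, b3⟩ := corner
    (TriPerc.hc_sub (l' := N) (r' := 3 * N) (by omega) le_rfl (by omega) c4)
    (TriPerc.vc_sub (b' := -(3 * N)) (t' := -N) le_rfl (by omega) (by omega) c1)
  obtain ⟨z34, d1, d2, d3⟩ := corner
    (TriPerc.hc_sub (l' := -(3 * N)) (r' := -N) le_rfl (by omega) (by omega) c4)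
    (TriPerc.vc_sub (b' := -(3 * N)) (t' := -N) le_rfl (by omega) (by omega) c3)
  obtain ⟨z23, e1, e2, e3⟩ := corner
    (TriPerc.hc_sub (l' := -(3 * N)) (r' := -N) le_rfl (by omega) (by omega) c2)
    (TriPerc.vc_sub (b' := N) (t' := 3 * N) (by omega) le_rfl (by omega) c3)
  have f1 : TriPerc.Conn (O ∩ TriPerc.Rec (-(3 * N)) (3 * N) N (3 * N)) z23 z12 :=
    TriPerc.Conn.trans (TriPerc.Conn.symm e1) a1
  have f2 : TriPerc.Conn (O ∩ TriPerc.Rec N (3 * N) (-(3 * N)) (3 * N)) z12 z14 :=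
    TriPerc.Conn.trans (TriPerc.Conn.symm a2) b2
  have f3 : TriPerc.Conn (O ∩ TriPerc.Rec (-(3 * N)) (3 * N) (-(3 * N)) (-N)) z14 z34 :=
    TriPerc.Conn.trans (TriPerc.Conn.symm b1) d1
  have f4 : TriPerc.Conn (O ∩ TriPerc.Rec (-(3 * N)) (-N) (-(3 * N)) (3 * N)) z34 z23 :=
    TriPerc.Conn.trans (TriPerc.Conn.symm d2) e2
  obtain ⟨k1, g1⟩ := pth_of_conn hO f1
  obtain ⟨k2, g2⟩ := pth_of_conn hO f2
  obtain ⟨k3, g3⟩ := pth_of_conn hO f3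
  obtain ⟨k4, g4⟩ := pth_of_conn hO f4
  have m1 := sg_upper g1 (by
    rintro v ⟨-, v1, v2, v3, v4⟩
    right
    omega)
  have m2 := sg_upper g2 (by
    rintro v ⟨-, v1, v2, v3, v4⟩
    left
    omega)
  have m3 := sg_lower g3 (by
    rintro v ⟨-, v1, v2, v3, v4⟩
    right
    omega)
  have m4 := sg_lower g4 (by
    rintro v ⟨-, v1, v2, v3, v4⟩
    left
    omega)
  have n1 : (kap z23).1 ≤ 0 := by
    obtain ⟨v1, v2, v3, v4⟩ := e3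
    unfold TriPerc.X at v1 v2
    change z23.1 / 2 ≤ 0
    omega
  have n2 : ¬ (kap z14).1 ≤ 0 := by
    obtain ⟨v1, v2, v3, v4⟩ := b3
    unfold TriPerc.X at v1 v2
    change ¬ z14.1 / 2 ≤ 0
    omega
  rw [if_pos n1] at m1
  rw [if_neg n2] at m2
  have hk : k1 + k2 + k3 + k4 = 1 := by omega
  obtain ⟨W, hW⟩ : ∃ W : Set (ℤ × ℤ), W = O ∩ {v | (N ≤ |TriPerc.X v| ∨ N ≤ |v.2|) ∧
    |TriPerc.X v| ≤ 3 * N ∧ |v.2| ≤ 3 * N} := ⟨_, rfl⟩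
  have hsub : ∀ v ∈ O, (N ≤ |TriPerc.X v| ∨ N ≤ |v.2|) → |TriPerc.X v| ≤ 3 * N →
      |v.2| ≤ 3 * N → v ∈ W := by
    intro v q1 q2 q3 q4
    rw [hW]
    exact ⟨q1, q2, q3, q4⟩
  have p1 := pth_mono (T := W) g1 (by
    rintro v ⟨v0, v1, v2, v3, v4⟩
    refine hsub v v0 (Or.inr (le_abs.2 (Or.inl v3))) (abs_le.2 ⟨v1, v2⟩)
      (abs_le.2 ⟨by omega, v4⟩))
  have p2 := pth_mono (T := W) g2 (by
    rintro v ⟨v0, v1, v2, v3, v4⟩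
    refine hsub v v0 (Or.inl (le_abs.2 (Or.inl v1))) (abs_le.2 ⟨by omega, v2⟩)
      (abs_le.2 ⟨v3, v4⟩))
  have p3 := pth_mono (T := W) g3 (by
    rintro v ⟨v0, v1, v2, v3, v4⟩
    refine hsub v v0 (Or.inr (le_abs.2 (Or.inr (by omega)))) (abs_le.2 ⟨v1, v2⟩)
      (abs_le.2 ⟨v3, by omega⟩))
  have p4 := pth_mono (T := W) g4 (by
    rintro v ⟨v0, v1, v2, v3, v4⟩
    refine hsub v v0 (Or.inl (le_abs.2 (Or.inr (by omega)))) (abs_le.2 ⟨v1, by omega⟩)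
      (abs_le.2 ⟨v3, v4⟩))
  have p := pth_trans (pth_trans (pth_trans p1 p2) p3) p4
  rw [hk] at p
  obtain ⟨l, g, e, q0, ql, q1, q2, q3⟩ := p
  refine ⟨l, g, e, ⟨q1, ?_, ?_, by rw [ql, q0]⟩, ?_⟩
  · intro t ht
    have h := q2 t ht
    rw [hW] at h
    exact h.1
  · intro t ht
    have h := q2 t ht
    rw [hW] at h
    exact ann_of_mid hN hR hRN h.2
  · unfold wind
    rw [q3]

end Pool.Agent.Rotor2
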