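import Pool.Agent.Rotor2.Defs

/-!
# Simple loops and the exchange property

* `circ_simple`: if `Circ A O` there is a loop with winding number `≥ 1` which visits no site twice.
  PROOF.  Take a loop with the least length `l` (`Nat.find`) among all loops `IsLoop O A l g e` with
  `1 ≤ wind (0,0) l g e`.  Suppose `i < j < l` and `g i = g j`.  Put
  `g1 t = g (i + t)`, `e1 t = e (i + t)`, length `j - i` (closed since `g j = g i`), and
  `g2 t = if t < i then g t else g (t + (j - i))`, `e2` likewise, length `l - (j - i)`.  Both are
  loops in `A` with edges in `O`, both are shorter than `l` (`0 < j - i`, and `j < l` so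
  `j - i < l`), and the winding
  numbers add up: `∑_{t<l} = ∑_{t<i} + ∑_{i≤t<j} + ∑_{j≤t<l}`.  So one of them is `≥ 1`,
  contradiction to minimality.
* `circ_mono`, `circ_local` (only the edges with both ends in `A` matter: `g (t+1)` is in `A`,
  for `t + 1 = l` because `g l = g 0`).
* `circ_out`: a simple loop uses at most one edge out of `x`: if `g i = x = g j` then `i = j`, so
  `e i = e j`.  So if `d ≠ d'` it does not use both `(x,d)` and `(x,d')`.
* `circ_rev`: a simple loop with winding number `≥ 1` does not use both `(x,d)` and
  `(x + vec d, d + 2)`: if `g i = x`, `e i = d`, `g j = x + vec d`, `e j = d + 2` then the successor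
  of `i` is visited at time `j` (cyclically: `i + 1 = j`, or `i + 1 = l` and `j = 0`) and the
  successor of `j` is
  `x`, visited at time `i` (cyclically: `j + 1 = i`, or `j + 1 = l` and `i = 0`); so `l = 2` (if
  `i + 1 = j` then `j + 1 = i` is impossible, so `j + 1 = l` and `i = 0`, `j = 1`, `l = 2`; the
  other case is symmetric; `i + 1 = l`, `j = 0`, `j + 1 = i` gives `i = 1`, `l = 2`; `i + 1 = l`,
  `j = 0`, `j + 1 = l`, `i = 0` gives `i = j`, `x = x + vec d`, impossible).  The winding number of
  a loop of length `2` which goes back is `0`: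
  `sg f x d + sg f (x + vec d) (d + 2) = 0` (`fin_cases d`).
* Therefore: if all edges of the simple loop are in `O ∪ {a, b}` and it does not use both `a` and
  `b`, all its edges are in `O ∪ {a}` or all are in `O ∪ {b}`.
-/

namespace Pool.Agent.Rotor2

variable {A : Set Site} {O O' : Set (Site × Fin 4)}

theorem circ_simple (h : Circ A O) : ∃ l g e, IsLoop O A l g e ∧ 1 ≤ wind (0, 0) l g e ∧
    ∀ i < l, ∀ j < l, g i = g j → i = j := by
  classical
  have hex : ∃ l, ∃ g e, IsLoop O A l g e ∧ 1 ≤ wind (0, 0) l g e := h
  obtain ⟨g, e, hl, hw⟩ := Nat.find_spec hex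
  have hmin : ∀ m < Nat.find hex, ¬ ∃ g e, IsLoop O A m g e ∧ 1 ≤ wind (0, 0) m g e :=
    fun m hm => Nat.find_min hex hm
  generalize Nat.find hex = l at hl hw hmin
  have key : ∀ i a m, l = i + (a + m) → 0 < a → 0 < m → g i ≠ g (i + a) := by
    intro i a m hlm ha hm hg
    have h1 : IsLoop O A a (fun t => g (i + t)) (fun t => e (i + t)) :=
      { step := fun t ht => by
          have := hl.step (i + t) (by omega)
          simpa [add_assoc] using this
        opn := fun t ht => hl.opn (i + t) (by omega)
        mem := fun t ht => hl.mem (i + t) (by omega)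
        closed := by simpa using hg.symm }
    have h2 : IsLoop O A (i + m) (fun t => if t < i then g t else g (t + a))
        (fun t => if t < i then e t else e (t + a)) :=
      { step := fun t ht => by
          by_cases h1 : t + 1 < i
          · have h2 : t < i := by omega
            simp only [h1, h2, if_true]
            exact hl.step t (by omega)
          · by_cases h2 : t < i
            · have h3 : t + 1 = i := by omega
              simp only [h1, h2, if_true, if_false]
              rw [h3, ← hg, ← h3]
              exact hl.step t (by omega)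
            · simp only [h1, h2, if_false]
              have := hl.step (t + a) (by omega)
              rw [show t + 1 + a = t + a + 1 by omega]
              exact this
        opn := fun t ht => by
          by_cases h2 : t < i
          · simp only [h2, if_true]
            exact hl.opn t (by omega)
          · simp only [h2, if_false]
            exact hl.opn (t + a) (by omega)
        mem := fun t ht => by
          by_cases h2 : t < i
          · simp only [h2, if_true]
            exact hl.mem t (by omega)
          · simp only [h2, if_false]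
            exact hl.mem (t + a) (by omega)
        closed := by
          have h3 : ¬ (i + m < i) := by omega
          simp only [h3, if_false]
          rw [show i + m + a = l by omega, hl.closed]
          by_cases h4 : 0 < i
          · simp only [h4, if_true]
          · have h5 : i = 0 := by omega
            subst h5
            simp only [lt_irrefl, if_false]
            exact hg }
    have hsum : wind (0, 0) l g e = wind (0, 0) a (fun t => g (i + t)) (fun t => e (i + t)) +
        wind (0, 0) (i + m) (fun t => if t < i then g t else g (t + a))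
          (fun t => if t < i then e t else e (t + a)) := by
      unfold wind
      rw [hlm, Finset.sum_range_add, Finset.sum_range_add, Finset.sum_range_add]
      have e1 : ∑ t ∈ Finset.range i, sg (0, 0) (if t < i then g t else g (t + a))
          (if t < i then e t else e (t + a)) = ∑ t ∈ Finset.range i, sg (0, 0) (g t) (e t) := by
        refine Finset.sum_congr rfl fun t ht => ?_
        have := Finset.mem_range.1 ht
        simp only [this, if_true]
      have e2 : ∑ t ∈ Finset.range m, sg (0, 0) (if i + t < i then g (i + t) else g (i + t + a))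
          (if i + t < i then e (i + t) else e (i + t + a)) =
          ∑ t ∈ Finset.range m, sg (0, 0) (g (i + (a + t))) (e (i + (a + t))) := by
        refine Finset.sum_congr rfl fun t ht => ?_
        have h3 : ¬ (i + t < i) := by omega
        simp only [h3, if_false]
        rw [show i + t + a = i + (a + t) by omega]
      rw [e1, e2]
      ring
    have hw1 : ¬ 1 ≤ wind (0, 0) a (fun t => g (i + t)) (fun t => e (i + t)) :=
      fun h => hmin a (by omega) ⟨_, _, h1, h⟩
    have hw2 : ¬ 1 ≤ wind (0, 0) (i + m) (fun t => if t < i then g t else g (t + a))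
          (fun t => if t < i then e t else e (t + a)) :=
      fun h => hmin (i + m) (by omega) ⟨_, _, h2, h⟩
    omega
  refine ⟨l, g, e, hl, hw, ?_⟩
  intro i hi j hj hg
  rcases lt_trichotomy i j with h | h | h
  · exfalso
    refine key i (j - i) (l - j) (by omega) (by omega) (by omega) ?_
    rw [show i + (j - i) = j by omega]
    exact hg
  · exact h
  · exfalso
    refine key j (i - j) (l - i) (by omega) (by omega) (by omega) ?_
    rw [show j + (i - j) = i by omega]
    exact hg.symm

theorem circ_mono (h : O ⊆ O') (hc : Circ A O) : Circ A O' := by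
  obtain ⟨l, g, e, h1, h2⟩ := hc
  exact ⟨l, g, e, ⟨h1.step, fun t ht => h (h1.opn t ht), h1.mem, h1.closed⟩, h2⟩

/-- Only the edges with both ends in `A` matter. -/
theorem circ_local (h : Circ A O) : Circ A (O ∩ {p | p.1 ∈ A ∧ p.1 + vec p.2 ∈ A}) := by
  obtain ⟨l, g, e, h1, h2⟩ := h
  refine ⟨l, g, e, ⟨h1.step, fun t ht => ⟨h1.opn t ht, h1.mem t ht, ?_⟩, h1.mem, h1.closed⟩, h2⟩
  show g t + vec (e t) ∈ A
  rw [← h1.step t ht]
  by_cases h3 : t + 1 < l
  · exact h1.mem _ h3
  · rw [show t + 1 = l by omega, h1.closed]
    exact h1.mem 0 (by omega)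

/-- Two edges out of the same site. -/
theorem circ_out (x : Site) (d d' : Fin 4) (hd : d ≠ d') (h : Circ A (O ∪ {(x, d), (x, d')})) :
    Circ A (O ∪ {(x, d)}) ∨ Circ A (O ∪ {(x, d')}) := by
  obtain ⟨l, g, e, h1, h2, h3⟩ := circ_simple h
  by_cases hc : ∃ i < l, g i = x ∧ e i = d
  · obtain ⟨i, hi, hgi, hei⟩ := hc
    left
    refine ⟨l, g, e, ⟨h1.step, fun t ht => ?_, h1.mem, h1.closed⟩, h2⟩
    rcases h1.opn t ht with h | h | h
    · exact Or.inl h
    · exact Or.inr h
    · exfalso
      have h4 : g t = x := congrArg Prod.fst h
      have h5 : e t = d' := congrArg Prod.snd h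
      have h6 := h3 i hi t ht (hgi.trans h4.symm)
      subst h6
      exact hd (hei.symm.trans h5)
  · right
    refine ⟨l, g, e, ⟨h1.step, fun t ht => ?_, h1.mem, h1.closed⟩, h2⟩
    rcases h1.opn t ht with h | h | h
    · exact Or.inl h
    · exfalso
      exact hc ⟨t, ht, congrArg Prod.fst h, congrArg Prod.snd h⟩
    · exact Or.inr h

private theorem sg_rev (f x : Site) (d : Fin 4) : sg f x d + sg f (x + vec d) (d + 2) = 0 := by
  obtain ⟨a, b⟩ := x
  obtain ⟨u, v⟩ := f
  fin_cases d
  · simp [sg, vec]
  · by_cases h : a = u ∧ v < b
    · simp [sg, vec, h]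
    · simp [sg, vec, h]
  · simp [sg, vec]
  · by_cases h : a = u + 1 ∧ v < b
    · have h' : a - 1 = u ∧ v < b := ⟨by omega, h.2⟩
      simp [sg, vec, ← sub_eq_add_neg, h]
    · have h' : ¬ (a - 1 = u ∧ v < b) := fun hh => h ⟨by omega, hh.2⟩
      simp [sg, vec, ← sub_eq_add_neg, h, h']

/-- The two directions of an edge. -/
theorem circ_rev (x : Site) (d : Fin 4) (h : Circ A (O ∪ {(x, d), (x + vec d, d + 2)})) :
    Circ A (O ∪ {(x, d)}) ∨ Circ A (O ∪ {(x + vec d, d + 2)}) := by
  obtain ⟨l, g, e, h1, h2, h3⟩ := circ_simple h
  by_cases hc : ∃ i < l, g i = x ∧ e i = d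
  · obtain ⟨i, hi, hgi, hei⟩ := hc
    left
    refine ⟨l, g, e, ⟨h1.step, fun t ht => ?_, h1.mem, h1.closed⟩, h2⟩
    rcases h1.opn t ht with h | h | h
    · exact Or.inl h
    · exact Or.inr h
    · exfalso
      have h4 : g t = x + vec d := congrArg Prod.fst h
      have h5 : e t = d + 2 := congrArg Prod.snd h
      have hne : i ≠ t := by
        rintro rfl
        have h6 : d = d + 2 := hei.symm.trans h5
        revert h6
        fin_cases d <;> decide
      have s1 : g (i + 1) = g t := by rw [h1.step i hi, hgi, hei, h4]
      have s2 : g (t + 1) = g i := by rw [h1.step t ht, h4, h5, vec_rev, hgi]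
      have c1 : t = i + 1 ∨ (i + 1 = l ∧ t = 0) := by
        by_cases h6 : i + 1 < l
        · exact Or.inl (h3 _ ht _ h6 s1.symm)
        · refine Or.inr ⟨by omega, ?_⟩
          rw [show i + 1 = l by omega, h1.closed] at s1
          exact (h3 _ (by omega) _ ht s1).symm
      have c2 : i = t + 1 ∨ (t + 1 = l ∧ i = 0) := by
        by_cases h6 : t + 1 < l
        · exact Or.inl (h3 _ hi _ h6 s2.symm)
        · refine Or.inr ⟨by omega, ?_⟩
          rw [show t + 1 = l by omega, h1.closed] at s2
          exact (h3 _ (by omega) _ hi s2).symm
      have hl2 : l = 2 := by omega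
      have hz : wind (0, 0) l g e = 0 := by
        subst hl2
        unfold wind
        rw [Finset.sum_range_succ, Finset.sum_range_succ, Finset.sum_range_zero, zero_add]
        have hs := sg_rev (0, 0) x d
        have hcase : (i = 0 ∧ t = 1) ∨ (i = 1 ∧ t = 0) := by omega
        rcases hcase with ⟨hi0, ht1⟩ | ⟨hi1, ht0⟩
        · subst hi0 ht1
          rw [hgi, hei, h4, h5]
          exact hs
        · subst hi1 ht0
          rw [hgi, hei, h4, h5, add_comm]
          exact hs
      omega
  · right
    refine ⟨l, g, e, ⟨h1.step, fun t ht => ?_, h1.mem, h1.closed⟩, h2⟩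
    rcases h1.opn t ht with h | h | h
    · exact Or.inl h
    · exfalso
      exact hc ⟨t, ht, congrArg Prod.fst h, congrArg Prod.snd h⟩
    · exact Or.inr h

end Pool.Agent.Rotor2
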