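import Pool.Agent.Rotor2.Final

/-!
# The counterclockwise mechanism

Let `rf x = (-x.1, x.2)`.  `vec (-d) = rf (vec d)` (`fin_cases d`; `-0 = 0`, `-1 = 3`, `-2 = 2`,
`-3 = 1` in `Fin 4`), `rf (x + y) = rf x + rf y`, `rf (rf x) = x`.
For a rotor configuration `r` let `r' x = - r (rf x)`.
`walk (fun d => d + 3) r t = rf (walk (fun d => d + 1) r' t)`: more generally the map
`(x, r) ↦ (rf x, r')` conjugates `step (fun d => d + 3)` and `step (fun d => d + 1)`:
`-(d + 3) = -d + 1` in `Fin 4`; `Function.update`.  Induction on `t`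
(`Function.iterate_succ_apply'`).
If `ρ` is `IsUnif` then so is `fun x ω => - ρ (rf x) ω`: measurable (`Fin 4` is discrete:
`measurable_from_top` or `Measurable.of_discrete`), independent
(`iIndepFun.precomp` with the injective map `rf`, then `iIndepFun.comp` with `fun d => -d`),
uniform (`{ω | -ρ x ω = d} = {ω | ρ x ω = -d}`).
Then apply `recurrent_cw` to it and the site `rf y`.
-/

namespace Pool.Agent.Rotor2

open MeasureTheory ProbabilityTheory

variable {Ω : Type*} [MeasurableSpace Ω] {Q : Measure Ω} [IsProbabilityMeasure Q]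
  {ρ : Site → Ω → Fin 4}

private def rfRefl (x : Site) : Site := (-x.1, x.2)

private theorem rf_rf_Refl (x : Site) : rfRefl (rfRefl x) = x := by
  simp [rfRefl]

private theorem rf_add_Refl (x y : Site) : rfRefl (x + y) = rfRefl x + rfRefl y := by
  ext
  · simp only [rfRefl, Prod.fst_add]
    ring
  · simp only [rfRefl, Prod.snd_add]

private theorem vec_neg_Refl (d : Fin 4) : vec (-d) = rfRefl (vec d) := by
  revert d
  decide

private theorem rf_eq_iff_Refl (x y : Site) : rfRefl x = y ↔ x = rfRefl y := by
  constructor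
  · rintro rfl
    rw [rf_rf_Refl]
  · rintro rfl
    rw [rf_rf_Refl]

private theorem neg_add_three_Refl (d : Fin 4) : -(d + 3) = -d + 1 := by
  revert d
  decide

/-- the conjugation -/
private def conjRefl (p : Site × (Site → Fin 4)) : Site × (Site → Fin 4) :=
  (rfRefl p.1, fun y => -(p.2 (rfRefl y)))

private theorem step_conj_Refl (p : Site × (Site → Fin 4)) :
    conjRefl (step (fun d => d + 3) p) = step (fun d => d + 1) (conjRefl p) := by
  obtain ⟨x, r⟩ := p
  simp only [conjRefl, step, rf_rf_Refl]
  refine Prod.ext ?_ ?_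
  · simp only [rf_add_Refl, vec_neg_Refl]
  · funext y
    by_cases h : y = rfRefl x
    · subst h
      change -Function.update r x (r x + 3) (rfRefl (rfRefl x)) =
        Function.update (fun y => -r (rfRefl y)) (rfRefl x) (-r x + 1) (rfRefl x)
      rw [rf_rf_Refl, Function.update_self, Function.update_self]
      exact neg_add_three_Refl _
    · have h' : rfRefl y ≠ x := fun h1 => h (by rw [← h1, rf_rf_Refl])
      simp [Function.update_of_ne h, Function.update_of_ne h']

private theorem iter_conj_Refl (p : Site × (Site → Fin 4)) (t : ℕ) :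
    conjRefl ((step (fun d => d + 3))^[t] p) = (step (fun d => d + 1))^[t] (conjRefl p) := by
  induction t with
  | zero => rfl
  | succ t ih =>
    rw [Function.iterate_succ_apply', Function.iterate_succ_apply', step_conj_Refl, ih]

private theorem walk_Refl (r : Site → Fin 4) (t : ℕ) :
    rfRefl (walk (fun d => d + 3) r t) =
      walk (fun d => d + 1) (fun y => -(r (rfRefl y))) t := by
  have h := congrArg Prod.fst (iter_conj_Refl ((0, 0), r) t)
  have h0 : conjRefl ((0, 0), r) = ((0, 0), fun y => -(r (rfRefl y))) := by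
    simp [conjRefl, rfRefl]
  rw [h0] at h
  exact h

omit [IsProbabilityMeasure Q] in
private theorem unif_Refl (hρ : IsUnif Q ρ) : IsUnif Q fun x ω => -(ρ (rfRefl x) ω) where
  meas x := (Measurable.of_discrete (f := fun d : Fin 4 => -d)).comp (hρ.meas _)
  indep := by
    have hinj : Function.Injective rfRefl := fun x y h => by
      rw [← rf_rf_Refl x, h, rf_rf_Refl]
    exact (hρ.indep.precomp hinj).comp (fun _ d => -d) fun _ => Measurable.of_discrete
  unif x d := by
    have h : {ω | -(ρ (rfRefl x) ω) = d} = {ω | ρ (rfRefl x) ω = -d} := by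
      ext ω
      exact neg_eq_iff_eq_neg
    rw [h]
    exact hρ.unif _ _

theorem recurrent_ccw (hρ : IsUnif Q ρ) :
    ∀ᵐ ω ∂Q, ∀ (y : Site) (T : ℕ), ∃ t ≥ T, walk (fun d => d + 3) (fun x => ρ x ω) t = y := by
  filter_upwards [recurrent_cw (unif_Refl hρ)] with ω hω y T
  obtain ⟨t, ht, h⟩ := hω (rfRefl y) T
  refine ⟨t, ht, ?_⟩
  have h1 := walk_Refl (fun x => ρ x ω) t
  rw [h, rf_eq_iff_Refl, rf_rf_Refl] at h1
  exact h1

end Pool.Agent.Rotor2
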